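import Pool.Agent.T2H32.BF.Scale2

set_option autoImplicit false

/-! # The parameters -/

open Finset Filter Topology

namespace Pool.Agent.T2H32.BF

/-- `e^(-γ)` -/
noncomputable def eg : ℝ := Real.exp (-Real.eulerMascheroniConstant)

theorem eg_pos : 0 < eg := Real.exp_pos _

noncomputable def Yf (c : ℝ) (X : ℕ) : ℕ := yy c X ^ 6
noncomputable def Wf (c : ℝ) (X : ℕ) : ℝ := V (Yf c X) / V (ww X)
noncomputable def muf (c : ℝ) (X : ℕ) : ℝ := (TT c X).card * Wf c X
noncomputable def mu'f (c : ℝ) (X : ℕ) : ℝ := (VV c X).card * Wf c X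
noncomputable def sf (c ε : ℝ) (X : ℕ) : ℕ := ⌊(1 + ε) * muf c X⌋₊
noncomputable def vf (c : ℝ) (X : ℕ) : ℕ := ⌈mu'f c X / 2⌉₊
noncomputable def δf (c : ℝ) (z : ℕ → ℕ) (X : ℕ) : ℝ := V (z (X / 4)) / V (Yf c X)
noncomputable def δ'f (c : ℝ) (z : ℕ → ℕ) (X : ℕ) : ℝ := V (z X) / V (Yf c X)
noncomputable def lam (c ε : ℝ) (X : ℕ) : ℝ :=
  l2 X * (1 / Yf c X + 1 / sf c ε X) + (sf c ε X / Yf c X) * (2 + sf c ε X * l1 X)
noncomputable def df (c ε : ℝ) (z : ℕ → ℕ) (X : ℕ) : ℝ := δf c z X * Real.exp (lam c ε X)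
noncomputable def Qf (c : ℝ) (X : ℕ) : ℕ := primorial (ww X) * (4 * yy c X)
noncomputable def i0f (c : ℝ) (X : ℕ) : ℕ := X / (2 * Qf c X)
noncomputable def ρf (c : ℝ) (X : ℕ) : ℝ := ((1 - 1 / ((ww X : ℝ) + 1))⁻¹) ^ Nat.log 2 (2 * yy c X)

variable (c : ℝ) (hc : 0 < c) (ε : ℝ) (hε : 0 < ε)

theorem ev_pos : ∀ᶠ X in atTop, 0 < l1 X ∧ 0 < l2 X := by
  filter_upwards [tl1.eventually_gt_atTop 0, tl2.eventually_gt_atTop 0] with X h1 h2
  exact ⟨h1, h2⟩

include hc

theorem W_lim : Tendsto (Wf c) atTop (𝓝 (1 / 12)) := by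
  have h := (V_YY c hc).div V_ww (Real.exp_pos _).ne'
  have e : Real.exp (-Real.eulerMascheroniConstant) / 12 / Real.exp (-Real.eulerMascheroniConstant) = 1 / 12 := by
    have := Real.exp_pos (-Real.eulerMascheroniConstant)
    field_simp
  rw [e] at h
  refine h.congr' ?_
  filter_upwards [ev_pos] with X hX
  have h2 := V_pos (ww X)
  have h3 := hX.2
  simp only [Pi.div_apply, Wf, Yf]
  field_simp

theorem mu_lim : Tendsto (fun X => muf c X * l2 X / l1 X ^ 2) atTop (𝓝 (c / 24)) := by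
  have h := (TT_lim c hc).mul (W_lim c hc)
  have e : c / 2 * (1 / 12) = c / 24 := by ring
  rw [e] at h
  refine h.congr fun X => ?_
  unfold muf
  ring

theorem mu'_lower : ∀ᶠ X in atTop, c / 60 * (l1 X ^ 2 / l2 X) ≤ mu'f c X := by
  filter_upwards [VV_lower c hc (c / 4) (by positivity), (W_lim c hc).eventually_const_lt
    (show (1 : ℝ) / 15 < 1 / 12 by norm_num), ev_pos] with X h1 h2 h3
  obtain ⟨h4, h5⟩ := h3
  have h6 : c / 4 * (l1 X ^ 2 / l2 X) ≤ (VV c X).card := by
    rw [le_div_iff₀ (by positivity)] at h1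
    rw [mul_div_assoc', div_le_iff₀ h5]
    linarith
  unfold mu'f
  have h7 : 0 ≤ l1 X ^ 2 / l2 X := by positivity
  calc c / 60 * (l1 X ^ 2 / l2 X) = (c / 4 * (l1 X ^ 2 / l2 X)) * (1 / 15) := by ring
    _ ≤ (VV c X).card * Wf c X := by gcongr

theorem v_lower : ∀ᶠ X in atTop, c / 120 * (l1 X ^ 2 / l2 X) ≤ vf c X := by
  filter_upwards [mu'_lower c hc] with X h1
  have := Nat.le_ceil (mu'f c X / 2)
  unfold vf
  linarith

omit hc in
theorem l12 : Tendsto (fun X => l1 X ^ 2 / l2 X) atTop atTop := by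
  have h := l1_l2.atTop_mul_atTop₀ tl1
  refine h.congr fun X => ?_
  ring

include hε

theorem s_lim : Tendsto (fun X => (sf c ε X : ℝ) * l2 X / l1 X ^ 2) atTop (𝓝 ((1 + ε) * c / 24)) := by
  have h1 : Tendsto (fun X => (1 + ε) * (muf c X * l2 X / l1 X ^ 2)) atTop (𝓝 ((1 + ε) * c / 24)) := by
    have := (mu_lim c hc).const_mul (1 + ε)
    rwa [mul_div_assoc'] at this
  have h2 : Tendsto (fun X => (1 + ε) * (muf c X * l2 X / l1 X ^ 2) - l2 X / l1 X ^ 2) atTop
      (𝓝 ((1 + ε) * c / 24)) := by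
    have h3 : Tendsto (fun X => l2 X / l1 X ^ 2) atTop (𝓝 0) := by
      have := l2_l1 1 2 two_pos
      refine this.congr fun X => ?_
      rw [pow_one]
      norm_num
    simpa using h1.sub h3
  refine tendsto_of_tendsto_of_tendsto_of_le_of_le' h2 h1 ?_ ?_
  · filter_upwards [ev_pos] with X hX
    have h3 := (Nat.sub_one_lt_floor ((1 + ε) * muf c X)).le
    have e : (1 + ε) * (muf c X * l2 X / l1 X ^ 2) - l2 X / l1 X ^ 2 =
        ((1 + ε) * muf c X - 1) * l2 X / l1 X ^ 2 := by ring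
    rw [e]
    unfold sf
    have h4 := hX.1
    have h5 := hX.2
    gcongr
  · filter_upwards [ev_pos] with X hX
    have hmu : 0 ≤ (1 + ε) * muf c X := by
      have h4 := V_pos (Yf c X)
      have h5 := V_pos (ww X)
      unfold muf Wf
      positivity
    have h3 := Nat.floor_le hmu
    have e : (1 + ε) * (muf c X * l2 X / l1 X ^ 2) = ((1 + ε) * muf c X) * l2 X / l1 X ^ 2 := by ring
    rw [e]
    unfold sf
    have h4 := hX.1
    have h5 := hX.2
    gcongr

theorem s_atTop : Tendsto (fun X => (sf c ε X : ℝ)) atTop atTop := by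
  have h := (s_lim c hc ε hε).pos_mul_atTop (by positivity) l12
  refine h.congr' ?_
  filter_upwards [ev_pos] with X hX
  have h4 := hX.1
  have h5 := hX.2
  field_simp

omit hε in
/-- `Y / l1^12 → c^6` -/
theorem Y_lim : Tendsto (fun X => (Yf c X : ℝ) / l1 X ^ 12) atTop (𝓝 (c ^ 6)) := by
  have h := (yy_lim c hc).pow 6
  refine h.congr fun X => ?_
  unfold Yf
  push_cast
  rw [div_pow]
  ring

/-- powers -/
theorem pow_zero_lim (a b : ℕ) (r : ℝ) (h : 2 * a + b + r < 12) :
    Tendsto (fun X => (sf c ε X : ℝ) ^ a * l1 X ^ b * l1 X ^ r / Yf c X) atTop (𝓝 0) := by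
  -- `(s l2 / l1^2)^a * (l1^12 / Y) * (l1^(2a+b+r-12) / l2^a)`
  have h1 := ((s_lim c hc ε hε).pow a).div (Y_lim c hc) (by positivity)
  have h2 : Tendsto (fun X => l1 X ^ (2 * a + b + r - 12) / l2 X ^ a) atTop (𝓝 0) := by
    have h3 : Tendsto (fun X => l1 X ^ (-(12 - (2 * a + b + r)))) atTop (𝓝 0) :=
      (tendsto_rpow_neg_atTop (by linarith)).comp tl1
    refine squeeze_zero' ?_ ?_ h3
    · filter_upwards [ev_pos] with X hX
      have h4 := hX.1
      have h5 := hX.2
      positivity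
    · filter_upwards [ev_pos, tl2.eventually_ge_atTop 1] with X hX h6
      have h4 := hX.1
      have e : -(12 - (2 * (a : ℝ) + b + r)) = 2 * a + b + r - 12 := by ring
      rw [e]
      exact div_le_self (by positivity) (one_le_pow₀ h6)
  have h3 := h1.mul h2
  rw [mul_zero] at h3
  refine h3.congr' ?_
  filter_upwards [ev_pos, (yy_nat c hc).eventually_gt_atTop 0] with X hX hy
  have h4 := hX.1
  have h5 := hX.2
  have h6 : (0 : ℝ) < Yf c X := by
    unfold Yf
    have : (0 : ℝ) < yy c X := by exact_mod_cast hy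
    push_cast
    positivity
  have e1 : l1 X ^ (2 * a + b + r - 12 : ℝ) = l1 X ^ (2 * a) * l1 X ^ b * l1 X ^ r / l1 X ^ 12 := by
    rw [Real.rpow_sub h4, Real.rpow_add h4, Real.rpow_add h4]
    congr 1
    · congr 2
      · rw [← Real.rpow_natCast]
        push_cast
        rfl
      · rw [Real.rpow_natCast]
    · norm_cast
  simp only [Pi.div_apply]
  have e2 : ((sf c ε X : ℝ) * l2 X / l1 X ^ 2) ^ a = (sf c ε X : ℝ) ^ a * l2 X ^ a / (l1 X ^ 2) ^ a := by
    rw [div_pow, mul_pow]
  rw [e1, e2, pow_mul]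
  field_simp

theorem lam_lim : Tendsto (fun X => lam c ε X * l1 X ^ (3 / 2 : ℝ)) atTop (𝓝 0) := by
  -- the four terms
  have t1 : Tendsto (fun X => l2 X * l1 X ^ (3 / 2 : ℝ) / Yf c X) atTop (𝓝 0) := by
    have h := pow_zero_lim c hc ε hε 0 1 (3 / 2) (by norm_num)
    refine squeeze_zero' ?_ ?_ h
    · filter_upwards [ev_pos] with X hX
      have h4 := hX.1
      have h5 := hX.2
      positivity
    · filter_upwards [ev_pos] with X hX
      have h4 := hX.1
      have h5 := hX.2
      have h6 : l2 X ≤ l1 X := by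
        have := Real.log_le_sub_one_of_pos h4
        unfold l2 at *
        change Real.log (l1 X) ≤ l1 X
        linarith
      rw [pow_zero, one_mul, pow_one]
      gcongr
  have t2 : Tendsto (fun X => l2 X * l1 X ^ (3 / 2 : ℝ) / sf c ε X) atTop (𝓝 0) := by
    have h := (l2_l1 2 (1 / 2) (by norm_num)).div (s_lim c hc ε hε) (by positivity)
    rw [zero_div] at h
    refine h.congr' ?_
    filter_upwards [ev_pos, (s_atTop c hc ε hε).eventually_gt_atTop 0] with X hX hs
    have h4 := hX.1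
    have h5 := hX.2
    simp only [Pi.div_apply]
    have e1 : l1 X ^ 2 = l1 X ^ (3 / 2 : ℝ) * l1 X ^ (1 / 2 : ℝ) := by
      rw [← Real.rpow_add h4, ← Real.rpow_natCast]
      norm_num
    have e2 : l1 X ^ (1 / 2 : ℝ) ≠ 0 := (Real.rpow_pos_of_pos h4 _).ne'
    rw [e1]
    field_simp
  have t3 : Tendsto (fun X => 2 * ((sf c ε X : ℝ) ^ 1 * l1 X ^ 0 * l1 X ^ (3 / 2 : ℝ) / Yf c X)) atTop (𝓝 0) := by
    have := (pow_zero_lim c hc ε hε 1 0 (3 / 2) (by norm_num)).const_mul 2
    simpa using this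
  have t4 := pow_zero_lim c hc ε hε 2 1 (3 / 2) (by norm_num)
  have h := ((t1.add t2).add t3).add t4
  simp only [add_zero] at h
  refine h.congr fun X => ?_
  unfold lam
  ring

omit hc hε in
theorem lam_nonneg : ∀ᶠ X in atTop, 0 ≤ lam c ε X := by
  filter_upwards [ev_pos] with X hX
  have h4 := hX.1
  have h5 := hX.2
  unfold lam
  positivity

theorem lam_zero : Tendsto (lam c ε) atTop (𝓝 0) := by
  have h1 : Tendsto (fun X => l1 X ^ (-(3 / 2 : ℝ))) atTop (𝓝 0) :=
    (tendsto_rpow_neg_atTop (by norm_num)).comp tl1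
  have h2 := (lam_lim c hc ε hε).mul h1
  rw [mul_zero] at h2
  refine h2.congr' ?_
  filter_upwards [ev_pos] with X hX
  have h4 := hX.1
  rw [mul_assoc, ← Real.rpow_add h4]
  norm_num

variable (z : ℕ → ℕ) (hzV : Tendsto (fun n => V (z n) * Real.log n) atTop (𝓝 1))
include hzV

omit hε in
theorem δ'_lim : Tendsto (fun X => δ'f c z X * l1 X / l2 X) atTop (𝓝 (12 / eg)) := by
  have h := hzV.div (V_YY c hc) (by have := eg_pos; unfold eg at this; positivity)
  have e : (1 : ℝ) / (Real.exp (-Real.eulerMascheroniConstant) / 12) = 12 / eg := by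
    have := eg_pos
    unfold eg at *
    field_simp
  rw [e] at h
  refine h.congr' ?_
  filter_upwards [ev_pos] with X hX
  have h4 := hX.1
  have h5 := hX.2
  have h6 := V_pos (Yf c X)
  simp only [Pi.div_apply, δ'f]
  unfold Yf at *
  have : Real.log X = l1 X := rfl
  rw [this]
  field_simp

omit hε in
theorem δ_lim : Tendsto (fun X => δf c z X * l1 X / l2 X) atTop (𝓝 (12 / eg)) := by
  have hdiv : Tendsto (fun X : ℕ => X / 4) atTop atTop := Nat.tendsto_div_const_atTop (by norm_num)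
  have h0 := hzV.comp hdiv
  have hlog : Tendsto (fun X : ℕ => Real.log ((X / 4 : ℕ) : ℝ) / l1 X) atTop (𝓝 1) := by
    have hlo : Tendsto (fun X : ℕ => 1 - Real.log 8 / l1 X) atTop (𝓝 1) := by
      have := (tendsto_const_nhds (x := Real.log 8)).div_atTop tl1
      simpa using this.const_sub 1
    refine tendsto_of_tendsto_of_tendsto_of_le_of_le' hlo tendsto_const_nhds ?_ ?_
    · filter_upwards [ev_pos, eventually_ge_atTop 8] with X hX h8
      have h4 := hX.1
      have e : 1 - Real.log 8 / l1 X = (l1 X - Real.log 8) / l1 X := by field_simp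
      rw [e]
      gcongr
      have h9 : (0 : ℝ) < X := by exact_mod_cast (by omega : 0 < X)
      unfold l1
      rw [← Real.log_div h9.ne' (by norm_num)]
      refine Real.log_le_log (by positivity) ?_
      rw [div_le_iff₀ (by norm_num)]
      have : X ≤ (X / 4) * 8 := by omega
      exact_mod_cast this
    · filter_upwards [ev_pos, eventually_ge_atTop 8] with X hX h8
      have h4 := hX.1
      rw [div_le_one h4]
      unfold l1
      refine Real.log_le_log ?_ ?_
      · have : 0 < X / 4 := by omega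
        exact_mod_cast this
      · exact_mod_cast Nat.div_le_self X 4
  have h1 := h0.div hlog one_ne_zero
  have h := h1.div (V_YY c hc) (by have := eg_pos; unfold eg at this; positivity)
  have e : (1 : ℝ) / 1 / (Real.exp (-Real.eulerMascheroniConstant) / 12) = 12 / eg := by
    have := eg_pos
    unfold eg at *
    field_simp
  rw [e] at h
  refine h.congr' ?_
  have hlogpos : ∀ᶠ X : ℕ in atTop, 0 < Real.log ((X / 4 : ℕ) : ℝ) :=
    (Real.tendsto_log_atTop.comp (tendsto_natCast_atTop_atTop.comp hdiv)).eventually_gt_atTop 0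
  filter_upwards [ev_pos, hlogpos] with X hX h7
  have h4 := hX.1
  have h5 := hX.2
  have h6 := V_pos (Yf c X)
  simp only [Pi.div_apply, Function.comp_apply, δf]
  unfold Yf at *
  field_simp

theorem d_lim : Tendsto (fun X => df c ε z X * l1 X / l2 X) atTop (𝓝 (12 / eg)) := by
  have h1 : Tendsto (fun X => Real.exp (lam c ε X)) atTop (𝓝 1) := by
    have := (Real.continuous_exp.tendsto 0).comp (lam_zero c hc ε hε)
    rwa [Real.exp_zero] at this
  have h := (δ_lim c hc z hzV).mul h1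
  rw [mul_one] at h
  refine h.congr fun X => ?_
  unfold df
  ring

theorem d_zero : Tendsto (df c ε z) atTop (𝓝 0) := by
  have h1 : Tendsto (fun X => l2 X / l1 X) atTop (𝓝 0) := by
    have := l2_l1 1 1 one_pos
    refine this.congr fun X => ?_
    rw [pow_one, Real.rpow_one]
  have h := (d_lim c hc ε hε z hzV).mul h1
  rw [mul_zero] at h
  refine h.congr' ?_
  filter_upwards [ev_pos] with X hX
  have h4 := hX.1
  have h5 := hX.2
  field_simp

theorem sd_lim : Tendsto (fun X => sf c ε X * df c ε z X / l1 X) atTop (𝓝 ((1 + ε) * (c / (2 * eg)))) := by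
  have h := (s_lim c hc ε hε).mul (d_lim c hc ε hε z hzV)
  have e : (1 + ε) * c / 24 * (12 / eg) = (1 + ε) * (c / (2 * eg)) := by
    have := eg_pos
    field_simp
    ring
  rw [e] at h
  refine h.congr' ?_
  filter_upwards [ev_pos] with X hX
  have h4 := hX.1
  have h5 := hX.2
  field_simp

theorem sdd_lim : Tendsto (fun X => sf c ε X * (df c ε z X + df c ε z X ^ 2) / l1 X) atTop
    (𝓝 ((1 + ε) * (c / (2 * eg)))) := by
  have h := (sd_lim c hc ε hε z hzV).mul ((d_zero c hc ε hε z hzV).const_add 1)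
  rw [add_zero, mul_one] at h
  refine h.congr fun X => ?_
  ring

theorem diff_lim : Tendsto (fun X => sf c ε X * |df c ε z X + df c ε z X ^ 2 - δ'f c z X| / l1 X) atTop (𝓝 0) := by
  have h0 : Tendsto (fun X => sf c ε X * δ'f c z X / l1 X) atTop (𝓝 ((1 + ε) * (c / (2 * eg)))) := by
    have h := (s_lim c hc ε hε).mul (δ'_lim c hc z hzV)
    have e : (1 + ε) * c / 24 * (12 / eg) = (1 + ε) * (c / (2 * eg)) := by
      have := eg_pos
      field_simp
      ring
    rw [e] at h
    refine h.congr' ?_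
    filter_upwards [ev_pos] with X hX
    have h4 := hX.1
    have h5 := hX.2
    field_simp
  have h := ((sdd_lim c hc ε hε z hzV).sub h0).abs
  rw [sub_self, abs_zero] at h
  refine h.congr' ?_
  filter_upwards [ev_pos] with X hX
  have h4 := hX.1
  have e : (sf c ε X : ℝ) * (df c ε z X + df c ε z X ^ 2) / l1 X - sf c ε X * δ'f c z X / l1 X =
      sf c ε X * (df c ε z X + df c ε z X ^ 2 - δ'f c z X) / l1 X := by ring
  rw [e, abs_div, abs_mul, abs_of_pos h4, abs_of_nonneg (Nat.cast_nonneg _)]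

end Pool.Agent.T2H32.BF
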