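import Pool.Agent.T2H32.BF.Asy
import Pool.Agent.T2H32.CM.Asym

set_option autoImplicit false

/-! # Verification of the hypotheses of the two phases for large `X` -/

open Finset Filter Topology MeasureTheory

namespace Pool.Agent.T2H32.BF

theorem log_lower (x : ℝ) (h0 : 0 ≤ x) (h1 : x ≤ 1 / 4) : -x - x ^ 2 ≤ Real.log (1 - x) := by
  have h := Pool.Agent.T2H32.CM.log_bd x h0 (by linarith)
  rw [abs_le] at h
  have h2 : 2 * x ^ 3 ≤ x ^ 2 / 2 := by nlinarith [sq_nonneg x]
  linarith [h.2]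

theorem one_sub_exp (x : ℝ) (h0 : 0 ≤ x) (h1 : x ≤ 1 / 4) (t : ℕ) :
    Real.exp (-(t * (x + x ^ 2))) ≤ (1 - x) ^ t := by
  have h2 : 0 < 1 - x := by linarith
  rw [← Real.exp_log h2, ← Real.exp_nat_mul]
  apply Real.exp_le_exp.2
  have := log_lower x h0 h1
  have ht : (0 : ℝ) ≤ t := Nat.cast_nonneg t
  nlinarith

theorem one_sub_exp' (x : ℝ) (h1 : x ≤ 1) (t : ℕ) : (1 - x) ^ t ≤ Real.exp (-(t * x)) := by
  have h2 : 0 ≤ 1 - x := by linarith
  have h3 : 1 - x ≤ Real.exp (-x) := by
    have := Real.add_one_le_exp (-x)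
    linarith
  calc (1 - x) ^ t ≤ Real.exp (-x) ^ t := pow_le_pow_left₀ h2 h3 t
    _ = Real.exp (-(t * x)) := by
        rw [← Real.exp_nat_mul]
        congr 1
        ring

variable (c : ℝ) (hc : 0 < c) (ε : ℝ) (hε : 0 < ε)
variable (z : ℕ → ℕ) (hz : Monotone z) (hzV : Tendsto (fun n => V (z n) * Real.log n) atTop (𝓝 1))

include hz hzV in
theorem z_top : Tendsto z atTop atTop := by
  refine tendsto_atTop_atTop_of_monotone hz fun B => ?_
  by_contra hcon
  push Not at hcon
  have h1 : Tendsto (fun n : ℕ => V B * Real.log n) atTop atTop :=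
    tl1.const_mul_atTop (V_pos B)
  have h2 : ∀ᶠ n : ℕ in atTop, V (z n) * Real.log n < 2 := hzV.eventually_lt_const (by norm_num)
  obtain ⟨n, h3, h4, h5⟩ := (h2.and ((h1.eventually_gt_atTop 2).and (eventually_ge_atTop 1))).exists
  have h6 : V B ≤ V (z n) := V_anti (hcon n).le
  have h7 : 0 ≤ Real.log (n : ℝ) := Real.log_natCast_nonneg n
  nlinarith

theorem eg_lt_one : eg < 1 := by
  unfold eg
  rw [Real.exp_lt_one_iff]
  have := Real.one_half_lt_eulerMascheroniConstant
  linarith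

include hz hzV in
theorem logZ_le : ∀ᶠ X : ℕ in atTop, Real.log (z X) ≤ l1 X := by
  have h1 := (mertens.comp (z_top z hz hzV)).div hzV one_ne_zero
  rw [div_one] at h1
  filter_upwards [h1.eventually_lt_const (show Real.exp (-Real.eulerMascheroniConstant) < 1 from eg_lt_one),
    ev_pos] with X h2 h3
  simp only [Function.comp_apply, Pi.div_apply] at h2
  have h4 := V_pos (z X)
  have h5 := h3.1
  have e : V (z X) * Real.log (z X) / (V (z X) * Real.log X) = Real.log (z X) / l1 X := by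
    unfold l1 at *
    field_simp
  rw [e, div_lt_one h5] at h2
  exact h2.le

include hc

theorem yy_large (b : ℕ) : ∀ᶠ X in atTop, b ≤ yy c X := (yy_nat c hc).eventually_ge_atTop b

include hzV in
theorem δ_zero : Tendsto (δf c z) atTop (𝓝 0) := by
  have h1 : Tendsto (fun X => l2 X / l1 X) atTop (𝓝 0) := by
    have := l2_l1 1 1 one_pos
    refine this.congr fun X => ?_
    rw [pow_one, Real.rpow_one]
  have h := (δ_lim c hc z hzV).mul h1
  rw [mul_zero] at h
  refine h.congr' ?_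
  filter_upwards [ev_pos] with X hX
  have h4 := hX.1
  have h5 := hX.2
  field_simp

include hzV in
theorem δ_ge : ∀ᶠ X in atTop, 1 / l1 X ≤ δf c z X := by
  have h0 : (0 : ℝ) < 12 / eg := by have := eg_pos; positivity
  have h := (δ_lim c hc z hzV).pos_mul_atTop h0 tl2
  filter_upwards [h.eventually_ge_atTop 1, ev_pos] with X h1 h2
  have h4 := h2.1
  have h5 := h2.2
  rw [div_le_iff₀ h4]
  have e : δf c z X * l1 X / l2 X * l2 X = δf c z X * l1 X := by field_simp
  linarith

omit hc in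
theorem δ_prod (X : ℕ) (h : Yf c X ≤ z (X / 4)) :
    δf c z X = ∏ p ∈ PI (Yf c X) (z (X / 4)), (1 - 1 / (p : ℝ)) := V_ratio _ _ h

omit hc in
theorem δ'_prod (X : ℕ) (h : Yf c X ≤ z X) :
    δ'f c z X = ∏ p ∈ PI (Yf c X) (z X), (1 - 1 / (p : ℝ)) := V_ratio _ _ h

include hzV in
theorem Y_le_Z : ∀ᶠ X in atTop, Yf c X ≤ z (X / 4) := by
  filter_upwards [(δ_zero c hc z hzV).eventually_lt_const (show (0 : ℝ) < 1 by norm_num)] with X h1
  by_contra hcon
  push Not at hcon
  have h2 : V (Yf c X) ≤ V (z (X / 4)) := V_anti hcon.le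
  have h3 := V_pos (Yf c X)
  unfold δf at h1
  rw [div_lt_one h3] at h1
  linarith

include hε in
theorem s_le_Y : ∀ᶠ X in atTop, (sf c ε X : ℝ) / Yf c X ≤ 1 / 2 := by
  have h := pow_zero_lim c hc ε hε 1 0 0 (by norm_num)
  filter_upwards [h.eventually_lt_const (show (0 : ℝ) < 1 / 2 by norm_num)] with X h1
  simp only [pow_one, pow_zero, Real.rpow_zero, mul_one] at h1
  exact h1.le

include hε hz hzV in
theorem hlow_ev {Ω : Type*} [MeasurableSpace Ω] {P : Measure Ω} {a : ℕ → Ω → ℕ} (h : Model P a) :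
    ∀ᶠ X in atTop, ∀ U : Finset ℕ, U.card ≤ sf c ε X →
      (∀ p ∈ PI (Yf c X) (z (X / 4)), Set.InjOn (fun u => u % p) U) →
      (1 - df c ε z X) ^ U.card ≤ P.real (Kill a U (PI (Yf c X) (z (X / 4)))) := by
  have hdiv : Tendsto (fun X : ℕ => X / 4) atTop atTop := Nat.tendsto_div_const_atTop (by norm_num)
  have hlogZ := hdiv.eventually (logZ_le z hz hzV)
  filter_upwards [Y_le_Z c hc z hzV, δ_ge c hc z hzV,
    (δ_zero c hc z hzV).eventually_lt_const (show (0 : ℝ) < Real.exp (-4) by positivity),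
    ev_pos, s_le_Y c hc ε hε, (s_atTop c hc ε hε).eventually_ge_atTop 1, yy_large c hc 4, hlogZ,
    (d_zero c hc ε hε z hzV).eventually_lt_const (show (0 : ℝ) < 1 by norm_num), eventually_ge_atTop 8]
    with X hYZ hδ1 hδ2 hpos hsY hs1 hy4 hlZ hd1 hX8
  obtain ⟨hl1, hl2⟩ := hpos
  set s := sf c ε X with hs
  set Y := Yf c X with hY
  set Z := z (X / 4) with hZ
  set L := PI Y Z with hL
  have hY4 : 4 ≤ Y := by
    rw [hY]
    unfold Yf
    calc 4 ≤ yy c X := hy4
      _ = yy c X ^ 1 := (pow_one _).symm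
      _ ≤ yy c X ^ 6 := Nat.pow_le_pow_right (by omega) (by norm_num)
  have hYR : (4 : ℝ) ≤ Y := by exact_mod_cast hY4
  have hLY : ∀ p ∈ L, (Y : ℝ) ≤ p ∧ (p : ℝ) ≤ Z := by
    intro p hp
    rw [hL] at hp
    unfold PI at hp
    rw [mem_filter, mem_Ioc] at hp
    exact ⟨by exact_mod_cast hp.1.1.le, by exact_mod_cast hp.1.2⟩
  have hLp : ∀ p ∈ L, p.Prime := fun p hp => (mem_filter.1 hp).2
  set sg0 := ∑ p ∈ L, 1 / (p : ℝ) with hS
  have hδpos : 0 < δf c z X := by
    have h1 := V_pos (z (X / 4))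
    have h2 := V_pos (Yf c X)
    unfold δf
    positivity
  -- upper bound for the reciprocal sum
  have hS1 : sg0 ≤ l2 X := by
    have h1 : sg0 ≤ Real.log (V Y / V Z) := recip_le Y Z hYZ
    have h2 : Real.log (V Y / V Z) = - Real.log (δf c z X) := by
      unfold δf
      rw [← Real.log_inv, inv_div]
    have h3 : - Real.log (δf c z X) ≤ l2 X := by
      have h4 := Real.log_le_log (by positivity) hδ1
      rw [one_div, Real.log_inv] at h4
      have : Real.log (l1 X) = l2 X := rfl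
      linarith
    linarith
  have hS0 : 0 ≤ sg0 := sum_nonneg fun p _ => by positivity
  -- lower bound
  have hS2 : - Real.log (δf c z X) ≤ sg0 + sg0 / Y := by
    rw [δ_prod c z X hYZ, Real.log_prod (fun p hp => by
      have := (hLY p hp).1
      have h1 : 1 / (p : ℝ) ≤ 1 / 4 := by gcongr; linarith
      have : 0 < 1 - 1 / (p : ℝ) := by linarith
      exact this.ne'), ← sum_neg_distrib, hS, sum_div, ← sum_add_distrib]
    refine sum_le_sum fun p hp => ?_
    have h2 := (hLY p hp).1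
    have h1 : 1 / (p : ℝ) ≤ 1 / 4 := by gcongr; linarith
    have h3 := log_lower (1 / (p : ℝ)) (by positivity) h1
    have h4 : (1 / (p : ℝ)) ^ 2 ≤ 1 / (p : ℝ) / Y := by
      rw [sq, div_eq_mul_one_div (1 / (p : ℝ)) (Y : ℝ)]
      gcongr
    linarith
  have hs1' : 1 ≤ s := by exact_mod_cast hs1
  have hsY' : (s : ℝ) ≤ Y / 2 := by
    rw [div_le_iff₀ (by linarith)] at hsY
    linarith
  have hsL : s ≤ L.card := by
    have h1 : 4 ≤ - Real.log (δf c z X) := by
      have h2 := Real.log_lt_log hδpos hδ2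
      rw [Real.log_exp] at h2
      linarith
    have h2 : sg0 / Y ≤ sg0 := div_le_self hS0 (by linarith)
    have h3 : 2 ≤ sg0 := by linarith
    have h4 : sg0 ≤ L.card / Y := by
      calc sg0 ≤ ∑ p ∈ L, 1 / (Y : ℝ) := sum_le_sum fun p hp => by
            have := (hLY p hp).1
            gcongr
        _ = L.card / Y := by
            rw [sum_const, nsmul_eq_mul, mul_one_div]
    have h5 : (s : ℝ) ≤ L.card := by
      have h6 : 2 ≤ (L.card : ℝ) / Y := h3.trans h4
      rw [le_div_iff₀ (by linarith)] at h6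
      linarith
    exact_mod_cast h5
  have hZ1 : (1 : ℝ) ≤ Z := by
    have : 1 ≤ Z := by omega
    exact_mod_cast this
  have hlZ0 : 0 ≤ Real.log Z := Real.log_nonneg hZ1
  have hlZ1 : Real.log Z ≤ l1 X := by
    refine hlZ.trans ?_
    unfold l1
    refine Real.log_le_log ?_ ?_
    · have : 0 < X / 4 := by omega
      exact_mod_cast this
    · exact_mod_cast Nat.div_le_self X 4
  refine Kill_lower h L hLp s hs1' hsL Y Z (by linarith) hLY hsY (df c ε z X) hd1.le ?_
  have hexp : -((1 - 1 / (s : ℝ)) * (sg0 - s / Y)) + s / Y * (s * Real.log Z + Real.log 2) ≤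
      Real.log (δf c z X) + lam c ε X := by
    have hs0 : (0 : ℝ) < s := by linarith
    have h1 : -((1 - 1 / (s : ℝ)) * (sg0 - s / Y)) ≤ -sg0 + sg0 / s + s / Y := by
      have e : -((1 - 1 / (s : ℝ)) * (sg0 - s / Y)) = -sg0 + sg0 / s + s / Y - 1 / Y := by
        field_simp
        ring
      rw [e]
      have : 0 ≤ 1 / (Y : ℝ) := by positivity
      linarith
    have h2 : (s : ℝ) / Y * (s * Real.log Z + Real.log 2) ≤ s / Y * (s * l1 X + 1) := by
      have : Real.log 2 ≤ 1 := by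
        have := Real.log_two_lt_d9
        linarith
      gcongr
    have h3 : sg0 / s ≤ l2 X / s := by gcongr
    have h4 : sg0 / Y ≤ l2 X / Y := by gcongr
    have e : lam c ε X = l2 X / Y + l2 X / s + (s / Y + s / Y * (s * l1 X + 1)) := by
      unfold lam
      rw [← hs, ← hY]
      ring
    rw [e]
    linarith
  calc Real.exp (-((1 - 1 / (s : ℝ)) * (sg0 - s / Y)) + s / Y * (s * Real.log Z + Real.log 2))
      ≤ Real.exp (Real.log (δf c z X) + lam c ε X) := Real.exp_le_exp.2 hexp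
    _ = df c ε z X := by
        rw [Real.exp_add, Real.exp_log hδpos]
        rfl

/-! ### the exponents -/

/-- error in the correlation of two blocks -/
noncomputable def Ef (c ε : ℝ) (z : ℕ → ℕ) (X : ℕ) : ℝ :=
  8 * sf c ε X ^ 3 * Nat.log 2 X / Yf c X + 8 * (sf c ε X * df c ε z X) * lam c ε X

omit hc in
theorem natlog_le (X : ℕ) : (Nat.log 2 X : ℝ) ≤ 2 * l1 X := by
  have h1 := Real.natLog_le_logb X 2
  have h2 : Real.logb 2 X = l1 X / Real.log 2 := rfl
  have h3 := Real.log_two_gt_d9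
  have h4 : 0 ≤ l1 X := Real.log_natCast_nonneg X
  push_cast at h1
  rw [h2] at h1
  refine h1.trans ?_
  rw [div_le_iff₀ (by linarith)]
  nlinarith

include hε hzV in
theorem E_lim : Tendsto (fun X => Ef c ε z X * l1 X ^ (1 / 2 : ℝ)) atTop (𝓝 0) := by
  have t1 : Tendsto (fun X => 8 * (sf c ε X : ℝ) ^ 3 * Nat.log 2 X / Yf c X * l1 X ^ (1 / 2 : ℝ)) atTop (𝓝 0) := by
    have h := (pow_zero_lim c hc ε hε 3 1 (1 / 2) (by norm_num)).const_mul 16
    rw [mul_zero] at h
    refine squeeze_zero' ?_ ?_ h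
    · filter_upwards [ev_pos] with X hX
      have h4 := hX.1
      positivity
    · filter_upwards [ev_pos, eventually_ge_atTop 1] with X hX h1
      have h4 := hX.1
      have h2 := natlog_le X
      calc 8 * (sf c ε X : ℝ) ^ 3 * Nat.log 2 X / Yf c X * l1 X ^ (1 / 2 : ℝ)
          ≤ 8 * (sf c ε X : ℝ) ^ 3 * (2 * l1 X) / Yf c X * l1 X ^ (1 / 2 : ℝ) := by gcongr
        _ = 16 * ((sf c ε X : ℝ) ^ 3 * l1 X ^ 1 * l1 X ^ (1 / 2 : ℝ) / Yf c X) := by
            rw [pow_one]
            ring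
  have t2 : Tendsto (fun X => 8 * (sf c ε X * df c ε z X / l1 X) * (lam c ε X * l1 X ^ (3 / 2 : ℝ)))
      atTop (𝓝 0) := by
    have h := ((sd_lim c hc ε hε z hzV).const_mul 8).mul (lam_lim c hc ε hε)
    rw [mul_zero] at h
    exact h
  have h := t1.add t2
  rw [add_zero] at h
  refine h.congr' ?_
  filter_upwards [ev_pos] with X hX
  have h4 := hX.1
  have e1 : l1 X ^ (3 / 2 : ℝ) = l1 X * l1 X ^ (1 / 2 : ℝ) := by
    conv_rhs => rw [← Real.rpow_one (l1 X), ← Real.rpow_mul h4.le, ← Real.rpow_add h4]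
    norm_num
  rw [e1]
  unfold Ef
  field_simp

include hε hzV in
theorem xi_ev : ∀ᶠ X in atTop, 0 ≤ Ef c ε z X ∧ Ef c ε z X ≤ 1 ∧
    Real.exp (8 * sf c ε X ^ 3 * Nat.log 2 X / Yf c X) *
      ((1 - δf c z X) / (1 - df c ε z X)) ^ (2 * sf c ε X) ≤ 1 + 2 * Ef c ε z X := by
  have hE0 : ∀ᶠ X in atTop, Ef c ε z X ≤ 1 := by
    filter_upwards [(E_lim c hc ε hε z hzV).eventually_lt_const one_pos, tl1.eventually_ge_atTop 1] with X h1 h2
    have h3 : 1 ≤ l1 X ^ (1 / 2 : ℝ) := Real.one_le_rpow h2 (by norm_num)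
    by_contra hcon
    push Not at hcon
    nlinarith
  filter_upwards [hE0, ev_pos, (d_zero c hc ε hε z hzV).eventually_lt_const (show (0 : ℝ) < 1 / 2 by norm_num),
    (lam_zero c hc ε hε).eventually_lt_const (show (0 : ℝ) < 1 by norm_num), lam_nonneg c ε,
    δ_ge c hc z hzV] with X h1 hpos h2 h3 h4 h5
  obtain ⟨hl1, hl2⟩ := hpos
  have hδ0 : 0 < δf c z X := lt_of_lt_of_le (by positivity) h5
  have hd0 : 0 ≤ df c ε z X := by unfold df; positivity
  have hE : 0 ≤ Ef c ε z X := by unfold Ef; positivity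
  refine ⟨hE, h1, ?_⟩
  have hexp1 : Real.exp (lam c ε X) ≤ 1 + 2 * lam c ε X := by
    have := Real.abs_exp_sub_one_le (x := lam c ε X) (by rw [abs_of_nonneg h4]; exact h3.le)
    rw [abs_of_nonneg h4] at this
    have := (abs_le.1 this).2
    linarith
  have hdδ : df c ε z X - δf c z X ≤ 2 * df c ε z X * lam c ε X := by
    have h6 : δf c z X ≤ df c ε z X := by
      unfold df
      exact le_mul_of_one_le_right hδ0.le (Real.one_le_exp h4)
    have h7 : df c ε z X - δf c z X = δf c z X * (Real.exp (lam c ε X) - 1) := by unfold df; ring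
    rw [h7]
    have h8 : δf c z X * (Real.exp (lam c ε X) - 1) ≤ δf c z X * (2 * lam c ε X) := by
      refine mul_le_mul_of_nonneg_left ?_ hδ0.le
      linarith
    have h9 : δf c z X * (2 * lam c ε X) ≤ df c ε z X * (2 * lam c ε X) := by gcongr
    linarith
  have hr : (1 - δf c z X) / (1 - df c ε z X) ≤ Real.exp (4 * df c ε z X * lam c ε X) := by
    have h6 : 0 < 1 - df c ε z X := by linarith
    have h7 : (1 - δf c z X) / (1 - df c ε z X) = 1 + (df c ε z X - δf c z X) / (1 - df c ε z X) := by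
      field_simp
      ring
    have h8 : (df c ε z X - δf c z X) / (1 - df c ε z X) ≤ 4 * df c ε z X * lam c ε X := by
      rw [div_le_iff₀ h6]
      have : 0 ≤ df c ε z X * lam c ε X := by positivity
      nlinarith
    have h9 := Real.add_one_le_exp (4 * df c ε z X * lam c ε X)
    linarith
  have hr0 : 0 ≤ (1 - δf c z X) / (1 - df c ε z X) := by
    have h6 : δf c z X ≤ df c ε z X := by
      unfold df
      exact le_mul_of_one_le_right hδ0.le (Real.one_le_exp h4)
    have h7 : 0 < 1 - df c ε z X := by linarith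
    have h8 : 0 ≤ 1 - δf c z X := by linarith
    positivity
  calc Real.exp (8 * sf c ε X ^ 3 * Nat.log 2 X / Yf c X) *
      ((1 - δf c z X) / (1 - df c ε z X)) ^ (2 * sf c ε X)
      ≤ Real.exp (8 * sf c ε X ^ 3 * Nat.log 2 X / Yf c X) *
        (Real.exp (4 * df c ε z X * lam c ε X)) ^ (2 * sf c ε X) := by gcongr
    _ = Real.exp (Ef c ε z X) := by
        rw [← Real.exp_nat_mul, ← Real.exp_add]
        congr 1
        unfold Ef
        push_cast
        ring
    _ ≤ 1 + 2 * Ef c ε z X := by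
        have := Real.abs_exp_sub_one_le (x := Ef c ε z X) (by rw [abs_of_nonneg hE]; exact h1)
        rw [abs_of_nonneg hE] at this
        have := (abs_le.1 this).2
        linarith

/-- the error from the second half of the block -/
noncomputable def κ1 (c : ℝ) : ℝ := c / (40 * eg)

include hε hzV in
theorem tau_ev : ∀ᶠ X in atTop, ∀ t ≤ sf c ε X, (1 - δ'f c z X) ^ (t + vf c X) ≤
    Real.exp (-(κ1 c * l1 X)) * (1 - df c ε z X) ^ t := by
  have hk : 0 < κ1 c := by unfold κ1; have := eg_pos; positivity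
  have heg := eg_pos
  have h0 : (6 / eg : ℝ) < 12 / eg := by gcongr; norm_num
  have hδ'z : Tendsto (δ'f c z) atTop (𝓝 0) := by
    have h1 : Tendsto (fun X => l2 X / l1 X) atTop (𝓝 0) := by
      have := l2_l1 1 1 one_pos
      refine this.congr fun X => ?_
      rw [pow_one, Real.rpow_one]
    have h := (δ'_lim c hc z hzV).mul h1
    rw [mul_zero] at h
    refine h.congr' ?_
    filter_upwards [ev_pos] with X hX
    have h4 := hX.1
    have h5 := hX.2
    field_simp
  filter_upwards [(δ'_lim c hc z hzV).eventually_const_lt h0, v_lower c hc, ev_pos,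
    (diff_lim c hc ε hε z hzV).eventually_lt_const hk,
    (d_zero c hc ε hε z hzV).eventually_lt_const (show (0 : ℝ) < 1 / 4 by norm_num),
    hδ'z.eventually_lt_const (show (0 : ℝ) < 1 by norm_num), δ_ge c hc z hzV]
    with X h1 h2 hpos h3 h4 h4' h5 t ht
  obtain ⟨hl1, hl2⟩ := hpos
  have hδ0 : 0 < δf c z X := lt_of_lt_of_le (by positivity) h5
  have hd0 : 0 ≤ df c ε z X := by unfold df; positivity
  -- `δ' v ≥ 2 κ1 l1`
  have h6 : 2 * κ1 c * l1 X ≤ vf c X * δ'f c z X := by
    rw [lt_div_iff₀ hl2] at h1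
    have h7 : 6 / eg * l2 X / l1 X ≤ δ'f c z X := by
      rw [div_le_iff₀ hl1]
      exact h1.le
    calc 2 * κ1 c * l1 X = (c / 120 * (l1 X ^ 2 / l2 X)) * (6 / eg * l2 X / l1 X) := by
          unfold κ1
          field_simp
          ring
      _ ≤ vf c X * δ'f c z X := by gcongr
  have h7 : (t : ℝ) * (df c ε z X + df c ε z X ^ 2 - δ'f c z X) ≤ κ1 c * l1 X := by
    rw [div_lt_iff₀ hl1] at h3
    calc (t : ℝ) * (df c ε z X + df c ε z X ^ 2 - δ'f c z X)
        ≤ t * |df c ε z X + df c ε z X ^ 2 - δ'f c z X| := by gcongr; exact le_abs_self _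
      _ ≤ sf c ε X * |df c ε z X + df c ε z X ^ 2 - δ'f c z X| := by
          have : (t : ℝ) ≤ sf c ε X := by exact_mod_cast ht
          gcongr
      _ ≤ _ := h3.le
  calc (1 - δ'f c z X) ^ (t + vf c X) ≤ Real.exp (-((t + vf c X : ℕ) * δ'f c z X)) :=
        one_sub_exp' _ h4'.le _
    _ ≤ Real.exp (-(κ1 c * l1 X) + -(t * (df c ε z X + df c ε z X ^ 2))) := by
        apply Real.exp_le_exp.2
        push_cast
        linarith
    _ = Real.exp (-(κ1 c * l1 X)) * Real.exp (-(t * (df c ε z X + df c ε z X ^ 2))) := Real.exp_add _ _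
    _ ≤ _ := by
        have := one_sub_exp (df c ε z X) hd0 h4.le t
        gcongr

end Pool.Agent.T2H32.BF
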