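import Pool.Agent.T2H32.BF.Asy2

set_option autoImplicit false

/-! # The probability that there are few blocks -/

open Finset Filter Topology MeasureTheory

namespace Pool.Agent.T2H32.BF

variable (c : ℝ) (hc : 0 < c) (ε : ℝ) (hε : 0 < ε)
variable (z : ℕ → ℕ) (hz : Monotone z) (hzV : Tendsto (fun n => V (z n) * Real.log n) atTop (𝓝 1))

include hc

theorem Q_small (κ : ℝ) (hκ : 0 < κ) : ∀ᶠ X in atTop, 32 * (Qf c X : ℝ) ≤ Real.exp (κ * l1 X) := by
  have hl21 : Tendsto (fun X => l2 X / l1 X) atTop (𝓝 0) := by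
    have := l2_l1 1 1 one_pos
    refine this.congr fun X => ?_
    rw [pow_one, Real.rpow_one]
  have h1 : Tendsto (fun X => (ww X : ℝ) / l1 X) atTop (𝓝 0) := by
    have h := ww_lim.mul ((tendsto_const_nhds (x := (1 : ℝ))).div_atTop tl2)
    rw [mul_zero] at h
    refine h.congr' ?_
    filter_upwards [ev_pos] with X hX
    have h4 := hX.1
    have h5 := hX.2
    field_simp
  have h2 : Tendsto (fun X => Real.log (yy c X) / l1 X) atTop (𝓝 0) := by
    have h := (log_yy c hc).mul hl21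
    rw [mul_zero] at h
    refine h.congr' ?_
    filter_upwards [ev_pos] with X hX
    have h4 := hX.1
    have h5 := hX.2
    field_simp
  have h3 : Tendsto (fun X => Real.log 128 / l1 X) atTop (𝓝 0) := tendsto_const_nhds.div_atTop tl1
  have h4 := ((h1.mul_const (Real.log 4)).add h2).add h3
  rw [zero_mul, zero_add, zero_add] at h4
  filter_upwards [h4.eventually_lt_const hκ, ev_pos, yy_large c hc 1] with X h5 hpos hy
  obtain ⟨hl1, hl2⟩ := hpos
  have hy0 : (0 : ℝ) < yy c X := by exact_mod_cast hy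
  have h6 : (ww X : ℝ) * Real.log 4 + Real.log (yy c X) + Real.log 128 < κ * l1 X := by
    have e : (ww X : ℝ) / l1 X * Real.log 4 + Real.log (yy c X) / l1 X + Real.log 128 / l1 X =
        ((ww X : ℝ) * Real.log 4 + Real.log (yy c X) + Real.log 128) / l1 X := by ring
    rw [e, div_lt_iff₀ hl1] at h5
    exact h5
  have h7 : (Qf c X : ℝ) ≤ 4 ^ ww X * (4 * yy c X) := by
    unfold Qf
    have := primorial_le_four_pow (ww X)
    have h8 : (primorial (ww X) : ℝ) ≤ 4 ^ ww X := by exact_mod_cast this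
    push_cast
    gcongr
  calc 32 * (Qf c X : ℝ) ≤ 32 * (4 ^ ww X * (4 * yy c X)) := by gcongr
    _ = Real.exp ((ww X : ℝ) * Real.log 4 + Real.log (yy c X) + Real.log 128) := by
        rw [Real.exp_add, Real.exp_add, Real.exp_log hy0, Real.exp_log (by norm_num), Real.exp_nat_mul,
          Real.exp_log (by norm_num)]
        ring
    _ ≤ _ := Real.exp_le_exp.2 h6.le

theorem i0_lower : ∀ᶠ X in atTop, 0 < i0f c X ∧ (X : ℝ) / (4 * Qf c X) ≤ i0f c X ∧ Qf c X ≤ X / 4 := by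
  filter_upwards [Q_small c hc 1 one_pos, yy_large c hc 1, eventually_gt_atTop 0] with X h1 hy hX
  have hX0 : (0 : ℝ) < X := by exact_mod_cast hX
  have h2 : Real.exp (1 * l1 X) = X := by
    rw [one_mul]
    exact Real.exp_log hX0
  rw [h2] at h1
  have h3 : 32 * Qf c X ≤ X := by exact_mod_cast h1
  have hQ : 0 < Qf c X := by
    unfold Qf
    have := primorial_pos (ww X)
    positivity
  have hQR : (0 : ℝ) < Qf c X := by exact_mod_cast hQ
  have h4 : 16 ≤ i0f c X := by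
    unfold i0f
    rw [Nat.le_div_iff_mul_le (by omega)]
    omega
  refine ⟨by omega, ?_, by omega⟩
  rw [div_le_iff₀ (by positivity)]
  have h5 : X < 2 * Qf c X * (i0f c X + 1) := by
    unfold i0f
    exact Nat.lt_mul_div_succ X (by omega)
  have h6 : X ≤ i0f c X * (4 * Qf c X) := by nlinarith
  exact_mod_cast h6

omit hc in
theorem i0_upper (X : ℕ) : primorial (ww X) * (4 * yy c X) * (2 * i0f c X) ≤ X := by
  have := Nat.mul_div_le X (2 * Qf c X)
  unfold i0f
  calc primorial (ww X) * (4 * yy c X) * (2 * (X / (2 * Qf c X))) =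
      2 * Qf c X * (X / (2 * Qf c X)) := by unfold Qf; ring
    _ ≤ X := this

include hε hzV

theorem count_lower (θ κ : ℝ) (hκ : 0 < κ) (hθ : 2 * κ + (1 + ε) * (c / (2 * eg)) ≤ 1 - θ) :
    ∀ᶠ X : ℕ in atTop, (X : ℝ) ^ θ ≤ i0f c X * (1 - df c ε z X) ^ sf c ε X / 8 := by
  have hlt : (1 + ε) * (c / (2 * eg)) < (1 + ε) * (c / (2 * eg)) + κ := by linarith
  filter_upwards [Q_small c hc κ hκ, i0_lower c hc, (sdd_lim c hc ε hε z hzV).eventually_lt_const hlt,
    ev_pos, (d_zero c hc ε hε z hzV).eventually_lt_const (show (0 : ℝ) < 1 / 4 by norm_num),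
    δ_ge c hc z hzV, eventually_gt_atTop 0, yy_large c hc 1] with X h1 h2 h3 hpos h4 h5 hX hy
  obtain ⟨hl1, hl2⟩ := hpos
  have hX0 : (0 : ℝ) < X := by exact_mod_cast hX
  have hδ0 : 0 < δf c z X := lt_of_lt_of_le (by positivity) h5
  have hd0 : 0 ≤ df c ε z X := by unfold df; positivity
  rw [div_lt_iff₀ hl1] at h3
  have hQR : (0 : ℝ) < Qf c X := by
    have : 0 < Qf c X := by
      unfold Qf
      have := primorial_pos (ww X)
      positivity
    exact_mod_cast this
  have h6 := one_sub_exp (df c ε z X) hd0 h4.le (sf c ε X)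
  have h7 : Real.exp (-(((1 + ε) * (c / (2 * eg)) + κ) * l1 X)) ≤ (1 - df c ε z X) ^ sf c ε X := by
    refine le_trans (Real.exp_le_exp.2 ?_) h6
    linarith
  have hXe : (X : ℝ) = Real.exp (l1 X) := (Real.exp_log hX0).symm
  have h8 : Real.exp (l1 X - κ * l1 X) ≤ (X : ℝ) / (32 * Qf c X) := by
    rw [le_div_iff₀ (by positivity)]
    calc Real.exp (l1 X - κ * l1 X) * (32 * Qf c X) ≤ Real.exp (l1 X - κ * l1 X) * Real.exp (κ * l1 X) := by
          gcongr
      _ = X := by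
          rw [← Real.exp_add, sub_add_cancel, ← hXe]
  calc (X : ℝ) ^ θ = Real.exp (θ * l1 X) := by
        rw [Real.rpow_def_of_pos hX0, mul_comm]
        rfl
    _ ≤ Real.exp ((l1 X - κ * l1 X) + -(((1 + ε) * (c / (2 * eg)) + κ) * l1 X)) := by
        apply Real.exp_le_exp.2
        nlinarith
    _ = Real.exp (l1 X - κ * l1 X) * Real.exp (-(((1 + ε) * (c / (2 * eg)) + κ) * l1 X)) := Real.exp_add _ _
    _ ≤ ((X : ℝ) / (32 * Qf c X)) * (1 - df c ε z X) ^ sf c ε X := by
        have : 0 ≤ (1 - df c ε z X) ^ sf c ε X := by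
          have : 0 ≤ 1 - df c ε z X := by linarith
          positivity
        gcongr
    _ ≤ i0f c X * (1 - df c ε z X) ^ sf c ε X / 8 := by
        have e : ((X : ℝ) / (32 * Qf c X)) = X / (4 * Qf c X) / 8 := by
          field_simp
          norm_num
        rw [e]
        have : 0 ≤ (1 - df c ε z X) ^ sf c ε X := by
          have : 0 ≤ 1 - df c ε z X := by linarith
          positivity
        have h9 := h2.2.1
        calc (X : ℝ) / (4 * Qf c X) / 8 * (1 - df c ε z X) ^ sf c ε X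
            ≤ (i0f c X : ℝ) / 8 * (1 - df c ε z X) ^ sf c ε X := by gcongr
          _ = _ := by ring

omit hε hzV in
theorem rho_lim : Tendsto (fun X => (ρf c X - 1) * l1 X ^ (1 / 2 : ℝ)) atTop (𝓝 0) := by
  -- `ρ - 1 ≤ 2 K / w`, `K ≤ 2 log (2 y)`
  have hK : Tendsto (fun X => (2 * (Real.log (yy c X) / l2 X) + 2 / l2 X) *
      ((l2 X ^ 2 / l1 X ^ (1 / 2 : ℝ)) / ((ww X : ℝ) * l2 X / l1 X))) atTop (𝓝 0) := by
    have h1 := ((log_yy c hc).const_mul 2).add ((tendsto_const_nhds (x := (2 : ℝ))).div_atTop tl2)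
    have h2 := (l2_l1 2 (1 / 2) (by norm_num)).div ww_lim one_ne_zero
    have h := h1.mul h2
    simpa using h
  have hK' : Tendsto (fun X => (2 * Real.log (yy c X) + 2) / ww X * l1 X ^ (1 / 2 : ℝ)) atTop (𝓝 0) := by
    refine hK.congr' ?_
    filter_upwards [ev_pos, ww_atTop.eventually_gt_atTop 0] with X hX hw
    have h4 := hX.1
    have h5 := hX.2
    have e1 : l1 X = l1 X ^ (1 / 2 : ℝ) * l1 X ^ (1 / 2 : ℝ) := by
      rw [← Real.rpow_add h4]
      norm_num
    have e2 : 0 < l1 X ^ (1 / 2 : ℝ) := Real.rpow_pos_of_pos h4 _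
    set r := l1 X ^ (1 / 2 : ℝ) with hr
    rw [e1]
    field_simp
  have hK0 : Tendsto (fun X => (2 * Real.log (yy c X) + 2) / ww X) atTop (𝓝 0) := by
    have h1 : Tendsto (fun X => l1 X ^ (-(1 / 2 : ℝ))) atTop (𝓝 0) :=
      (tendsto_rpow_neg_atTop (by norm_num)).comp tl1
    have h2 := hK'.mul h1
    rw [mul_zero] at h2
    refine h2.congr' ?_
    filter_upwards [ev_pos] with X hX
    have h4 := hX.1
    rw [mul_assoc, ← Real.rpow_add h4]
    norm_num
  have hup : Tendsto (fun X => 2 * ((2 * Real.log (yy c X) + 2) / ww X * l1 X ^ (1 / 2 : ℝ))) atTop (𝓝 0) := by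
    simpa using hK'.const_mul 2
  have hb : ∀ᶠ X in atTop, 0 ≤ ρf c X - 1 ∧ ρf c X - 1 ≤ 2 * ((2 * Real.log (yy c X) + 2) / ww X) := by
    filter_upwards [ww_atTop.eventually_ge_atTop 1, yy_large c hc 1, hK0.eventually_lt_const one_pos] with X hw hy hlt
    have hy0 : (1 : ℝ) ≤ yy c X := by exact_mod_cast hy
    have e1 : (1 - 1 / ((ww X : ℝ) + 1))⁻¹ = 1 + 1 / ww X := by
      have hw0 : (0 : ℝ) < ww X := by linarith
      have e2 : 1 - 1 / ((ww X : ℝ) + 1) = ww X / (ww X + 1) := by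
        field_simp
        ring
      rw [e2, inv_div]
      field_simp
    have h1 : 1 + 1 / (ww X : ℝ) ≤ Real.exp (1 / ww X) := by
      have := Real.add_one_le_exp (1 / (ww X : ℝ))
      linarith
    have h2 : 1 ≤ ρf c X := by
      unfold ρf
      rw [e1]
      apply one_le_pow₀
      have : 0 ≤ 1 / (ww X : ℝ) := by positivity
      linarith
    have h3 : ρf c X ≤ Real.exp ((Nat.log 2 (2 * yy c X) : ℕ) * (1 / (ww X : ℝ))) := by
      unfold ρf
      rw [e1, Real.exp_nat_mul]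
      gcongr
    have h4 : (Nat.log 2 (2 * yy c X) : ℝ) ≤ 2 * Real.log (yy c X) + 2 := by
      have h5 := natlog_le (2 * yy c X)
      have h6 : l1 (2 * yy c X) = Real.log 2 + Real.log (yy c X) := by
        unfold l1
        push_cast
        rw [Real.log_mul (by norm_num) (by positivity)]
      rw [h6] at h5
      have := Real.log_two_lt_d9
      linarith
    have h5 : (Nat.log 2 (2 * yy c X) : ℝ) * (1 / (ww X : ℝ)) ≤ (2 * Real.log (yy c X) + 2) / ww X := by
      rw [mul_one_div]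
      gcongr
    have h6 : 0 ≤ (2 * Real.log (yy c X) + 2) / ww X := by
      have := Real.log_nonneg hy0
      positivity
    have h7 : ρf c X ≤ Real.exp ((2 * Real.log (yy c X) + 2) / ww X) := h3.trans (Real.exp_le_exp.2 h5)
    have h8 := Real.abs_exp_sub_one_le (x := (2 * Real.log (yy c X) + 2) / ww X)
      (by rw [abs_of_nonneg h6]; exact hlt.le)
    rw [abs_of_nonneg h6] at h8
    have h9 := (abs_le.1 h8).2
    constructor <;> linarith
  refine squeeze_zero' ?_ ?_ hup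
  · filter_upwards [hb, ev_pos] with X h1 hX
    have h4 := hX.1
    have := h1.1
    positivity
  · filter_upwards [hb, ev_pos] with X h1 hX
    have h4 := hX.1
    rw [← mul_assoc]
    have h5 := h1.2
    gcongr

omit hε hzV in
theorem inv_mu_lim : Tendsto (fun X => (1 / muf c X + 1 / mu'f c X) * l1 X ^ (1 / 2 : ℝ)) atTop (𝓝 0) := by
  have h := (l2_l1 1 (3 / 2) (by norm_num)).const_mul (48 / c + 60 / c)
  rw [mul_zero] at h
  have hc48 : c / 48 < c / 24 := by
    rw [div_lt_div_iff₀ (by norm_num) (by norm_num)]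
    linarith
  have hb : ∀ᶠ X in atTop, 0 < muf c X ∧ 0 < mu'f c X ∧ 1 / muf c X ≤ 48 / c * (l2 X / l1 X ^ 2) ∧
      1 / mu'f c X ≤ 60 / c * (l2 X / l1 X ^ 2) := by
    filter_upwards [(mu_lim c hc).eventually_const_lt hc48, mu'_lower c hc, ev_pos] with X h1 h2 hX
    have h4 := hX.1
    have h5 := hX.2
    rw [lt_div_iff₀ (by positivity)] at h1
    have h6 : c / 48 * (l1 X ^ 2 / l2 X) ≤ muf c X := by
      rw [mul_div_assoc', div_le_iff₀ h5]
      exact h1.le
    have h7 : 0 < c / 48 * (l1 X ^ 2 / l2 X) := by positivity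
    have h8 : 0 < c / 60 * (l1 X ^ 2 / l2 X) := by positivity
    refine ⟨h7.trans_le h6, h8.trans_le h2, ?_, ?_⟩
    · refine (one_div_le_one_div_of_le h7 h6).trans (le_of_eq ?_)
      field_simp
    · refine (one_div_le_one_div_of_le h8 h2).trans (le_of_eq ?_)
      field_simp
  refine squeeze_zero' ?_ ?_ h
  · filter_upwards [hb, ev_pos] with X h1 hX
    have h4 := hX.1
    have h5 := h1.1
    have h6 := h1.2.1
    positivity
  · filter_upwards [hb, ev_pos] with X h1 hX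
    have h4 := hX.1
    have h5 := hX.2
    have e1 : l1 X ^ 2 = l1 X ^ (3 / 2 : ℝ) * l1 X ^ (1 / 2 : ℝ) := by
      rw [← Real.rpow_add h4, ← Real.rpow_natCast]
      norm_num
    have e2 : 0 < l1 X ^ (1 / 2 : ℝ) := Real.rpow_pos_of_pos h4 _
    have e3 : 0 < l1 X ^ (3 / 2 : ℝ) := Real.rpow_pos_of_pos h4 _
    calc (1 / muf c X + 1 / mu'f c X) * l1 X ^ (1 / 2 : ℝ)
        ≤ (48 / c * (l2 X / l1 X ^ 2) + 60 / c * (l2 X / l1 X ^ 2)) * l1 X ^ (1 / 2 : ℝ) := by
          have := h1.2.2.1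
          have := h1.2.2.2
          gcongr
      _ = (48 / c + 60 / c) * (l2 X ^ 1 / l1 X ^ (3 / 2 : ℝ)) := by
          rw [e1, pow_one]
          field_simp

include hz

open Classical in
/-- **At most scales there are many blocks.** -/
theorem scale_ev {Ω : Type*} [MeasurableSpace Ω] {P : Measure Ω} {a : ℕ → Ω → ℕ} (h : Model P a)
    (θ : ℝ) (hθ0 : 0 < θ) (hθ : (1 + ε) * (c / (2 * eg)) < 1 - θ) :
    ∀ᶠ X : ℕ in atTop, P.real {ω | (((Ico (i0f c X) (2 * i0f c X)).filter (fun i =>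
        Blk (ww X) (yy c X) (Yf c X) (z (X / 4)) (z X) (fun p => a p ω) i)).card : ℝ) < (X : ℝ) ^ θ} ≤
      l1 X ^ (-(1 / 2) : ℝ) := by
  have heg := eg_pos
  set κ := (1 - θ - (1 + ε) * (c / (2 * eg))) / 2 with hκ
  have hκ0 : 0 < κ := by rw [hκ]; linarith
  have hk1 : 0 < κ1 c := by unfold κ1; positivity
  have hcount := count_lower c hc ε hε z hzV θ κ hκ0 (by rw [hκ]; linarith)
  -- the error terms
  have hexpθ : Tendsto (fun X => l1 X ^ (1 / 2 : ℝ) * Real.exp (-θ * l1 X)) atTop (𝓝 0) :=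
    (tendsto_rpow_mul_exp_neg_mul_atTop_nhds_zero (1 / 2) θ hθ0).comp tl1
  have hexpκ : Tendsto (fun X => l1 X ^ (1 / 2 : ℝ) * Real.exp (-(κ1 c) * l1 X)) atTop (𝓝 0) :=
    (tendsto_rpow_mul_exp_neg_mul_atTop_nhds_zero (1 / 2) (κ1 c) hk1).comp tl1
  have htot : Tendsto (fun X => (2 / ε ^ 2 + 8) * ((ρf c X - 1) * l1 X ^ (1 / 2 : ℝ)) +
      (2 / ε ^ 2 + 8) * ((1 / muf c X + 1 / mu'f c X) * l1 X ^ (1 / 2 : ℝ)) +
      4 * (l1 X ^ (1 / 2 : ℝ) * Real.exp (-θ * l1 X)) +
      32 * (Ef c ε z X * l1 X ^ (1 / 2 : ℝ)) +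
      32 * (l1 X ^ (1 / 2 : ℝ) * Real.exp (-(κ1 c) * l1 X))) atTop (𝓝 0) := by
    have := (((((rho_lim c hc).const_mul (2 / ε ^ 2 + 8)).add ((inv_mu_lim c hc).const_mul (2 / ε ^ 2 + 8))).add
      (hexpθ.const_mul 4)).add ((E_lim c hc ε hε z hzV).const_mul 32)).add (hexpκ.const_mul 32)
    simpa using this
  have hτ : Tendsto (fun X => Real.exp (-(κ1 c * l1 X))) atTop (𝓝 0) := by
    have : Tendsto (fun X => κ1 c * l1 X) atTop atTop := tl1.const_mul_atTop hk1
    exact Real.tendsto_exp_neg_atTop_nhds_zero.comp this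
  have hmu : ∀ᶠ X in atTop, 0 < muf c X ∧ 0 < mu'f c X := by
    have hc48 : c / 48 < c / 24 := by
      rw [div_lt_div_iff₀ (by norm_num) (by norm_num)]
      linarith
    filter_upwards [(mu_lim c hc).eventually_const_lt hc48, mu'_lower c hc, ev_pos] with X h1 h2 hX
    have h4 := hX.1
    have h5 := hX.2
    constructor
    · by_contra hcon
      push Not at hcon
      have : muf c X * l2 X / l1 X ^ 2 ≤ 0 :=
        div_nonpos_of_nonpos_of_nonneg (mul_nonpos_of_nonpos_of_nonneg hcon h5.le) (by positivity)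
      have : 0 < c / 48 := by positivity
      linarith
    · have : 0 < c / 60 * (l1 X ^ 2 / l2 X) := by positivity
      linarith
  filter_upwards [hcount, htot.eventually_lt_const one_pos, ev_pos, i0_lower c hc, Y_le_Z c hc z hzV,
    ww_nat.eventually_ge_atTop 1, yy_large c hc 2, ww_lt_yy c hc, hmu, xi_ev c hc ε hε z hzV,
    tau_ev c hc ε hε z hzV, hτ.eventually_lt_const (show (0 : ℝ) < 1 / 2 by norm_num),
    hlow_ev c hc ε hε z hz hzV h, (δ_zero c hc z hzV).eventually_lt_const (show (0 : ℝ) < 1 / 2 by norm_num),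
    (d_zero c hc ε hε z hzV).eventually_lt_const (show (0 : ℝ) < 1 by norm_num), lam_nonneg c ε,
    δ_ge c hc z hzV, eventually_gt_atTop 0] with
    X h1 h2 hpos hi0 hYZ hw hy hwy hmu hxi htau hτ2 hlow hδ2 hd1 hlam hδge hX
  obtain ⟨hl1, hl2⟩ := hpos
  have hX0 : (0 : ℝ) < X := by exact_mod_cast hX
  have hδ0 : 0 < δf c z X := lt_of_lt_of_le (by positivity) hδge
  have hδd : δf c z X ≤ df c ε z X := by
    unfold df
    exact le_mul_of_one_le_right hδ0.le (Real.one_le_exp hlam)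
  have hyY : 2 * yy c X ≤ Yf c X := by
    unfold Yf
    calc 2 * yy c X ≤ yy c X * yy c X := Nat.mul_le_mul_right _ hy
      _ = yy c X ^ 2 := (sq _).symm
      _ ≤ yy c X ^ 6 := Nat.pow_le_pow_right (by omega) (by norm_num)
  have hZZ : z (X / 4) ≤ z X := hz (Nat.div_le_self X 4)
  have key := scale h (ww X) (yy c X) (Yf c X) (z (X / 4)) (z X) X (sf c ε X) (vf c X) (i0f c X)
    hw (by omega) hyY (by omega) hZZ hi0.1 (i0_upper c X) (Wf c X) (ρf c X) ε (muf c X) (mu'f c X)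
    (V_ratio _ _ (by omega)) rfl rfl rfl hmu.1 hmu.2 hε (Nat.lt_floor_add_one _).le (by
      have h3 := Nat.ceil_lt_add_one (show 0 ≤ mu'f c X / 2 by have := hmu.2; positivity)
      unfold vf
      linarith) (δf c z X) (δ'f c z X) (df c ε z X) (δ_prod c z X hYZ) (δ'_prod c z X (hYZ.trans hZZ))
    hδ2.le hδd hd1 hlow (Real.exp (-(κ1 c * l1 X))) (2 * Ef c ε z X) (Real.exp_pos _).le hτ2.le
    (by have := hxi.1; positivity) hxi.2.2 htau
  refine (measureReal_mono ?_ (h₂ := ?_)).trans (key.trans ?_)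
  · intro ω hω
    exact lt_of_lt_of_le hω h1
  · have := prob h
    exact measure_ne_top _ _
  · -- the final estimate
    have hrpos : 0 < l1 X ^ (1 / 2 : ℝ) := Real.rpow_pos_of_pos hl1 _
    have e0 : l1 X ^ (-(1 / 2) : ℝ) = 1 / l1 X ^ (1 / 2 : ℝ) := by
      rw [Real.rpow_neg hl1.le]
      exact (one_div _).symm
    rw [e0, le_div_iff₀ hrpos]
    refine le_trans ?_ h2.le
    have hmu1 := hmu.1
    have hmu2 := hmu.2
    have e1 : (muf c X ^ 2 * (ρf c X - 1) + muf c X) / (ε * muf c X) ^ 2 =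
        1 / ε ^ 2 * ((ρf c X - 1) + 1 / muf c X) := by
      field_simp
    have e2 : (mu'f c X ^ 2 * (ρf c X - 1) + mu'f c X) / (mu'f c X / 2) ^ 2 =
        4 * ((ρf c X - 1) + 1 / mu'f c X) := by
      field_simp
      ring
    have hXθ : 0 < (X : ℝ) ^ θ := Real.rpow_pos_of_pos hX0 _
    have e3 : 32 / (i0f c X * (1 - df c ε z X) ^ sf c ε X) ≤ 4 * Real.exp (-θ * l1 X) := by
      have e4 : Real.exp (-θ * l1 X) = 1 / (X : ℝ) ^ θ := by
        have : -θ * l1 X = -(Real.log X * θ) := by unfold l1; ring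
        rw [this, Real.exp_neg, ← Real.rpow_def_of_pos hX0, one_div]
      have h3 : 8 * (X : ℝ) ^ θ ≤ i0f c X * (1 - df c ε z X) ^ sf c ε X := by linarith
      rw [e4, mul_one_div, div_le_div_iff₀ (by linarith) hXθ]
      linarith
    have hρ1 : 0 ≤ ρf c X - 1 := by
      have hw0 : (1 : ℝ) ≤ ww X := by exact_mod_cast hw
      have h0 : 0 < 1 - 1 / ((ww X : ℝ) + 1) := by
        have h1 : 1 / ((ww X : ℝ) + 1) ≤ 1 / 2 := by gcongr; linarith
        linarith
      have : 1 ≤ ρf c X := by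
        unfold ρf
        apply one_le_pow₀
        rw [one_le_inv₀ h0]
        have h1' : 0 < 1 / ((ww X : ℝ) + 1) := by positivity
        linarith
      linarith
    rw [e1, e2]
    have hA : 2 * (1 / ε ^ 2 * ((ρf c X - 1) + 1 / muf c X) + 4 * ((ρf c X - 1) + 1 / mu'f c X)) ≤
        (2 / ε ^ 2 + 8) * (ρf c X - 1) + (2 / ε ^ 2 + 8) * (1 / muf c X + 1 / mu'f c X) := by
      have h3 : 0 < 1 / muf c X := by positivity
      have h4 : 0 < 1 / mu'f c X := by positivity
      have h5 : 0 < 1 / ε ^ 2 := by positivity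
      have e5 : 2 / ε ^ 2 = 2 * (1 / ε ^ 2) := by ring
      rw [e5]
      nlinarith [mul_pos h5 h4, mul_pos h5 h3]
    have hB : 2 * (1 / ε ^ 2 * ((ρf c X - 1) + 1 / muf c X) + 4 * ((ρf c X - 1) + 1 / mu'f c X)) +
        (32 / (i0f c X * (1 - df c ε z X) ^ sf c ε X) +
          16 * (2 * Ef c ε z X + 2 * Real.exp (-(κ1 c * l1 X)))) ≤
        (2 / ε ^ 2 + 8) * (ρf c X - 1) + (2 / ε ^ 2 + 8) * (1 / muf c X + 1 / mu'f c X) +
          4 * Real.exp (-θ * l1 X) + 32 * Ef c ε z X + 32 * Real.exp (-(κ1 c) * l1 X) := by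
      have e6 : -(κ1 c * l1 X) = -(κ1 c) * l1 X := by ring
      rw [e6]
      linarith
    calc _ ≤ ((2 / ε ^ 2 + 8) * (ρf c X - 1) + (2 / ε ^ 2 + 8) * (1 / muf c X + 1 / mu'f c X) +
          4 * Real.exp (-θ * l1 X) + 32 * Ef c ε z X + 32 * Real.exp (-(κ1 c) * l1 X)) *
          l1 X ^ (1 / 2 : ℝ) := by gcongr
      _ = _ := by ring

end Pool.Agent.T2H32.BF
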