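import Pool.Agent.T2H32.BF.Num

set_option autoImplicit false

/-! # Integers up to `y` without prime factor up to `w`, `w` near `√y` -/

open Finset Filter Topology

namespace Pool.Agent.T2H32.BF

/-- the elements of `A` without prime factor `≤ w` -/
def rough (w : ℕ) (A : Finset ℕ) : Finset ℕ := A.filter (fun m => ∀ p ≤ w, p.Prime → ¬ p ∣ m)

/-- `y (log log X) / (log X)^2`-asymptotics of the prime counting function -/
theorem pi_scale (f : ℕ → ℕ) (κ : ℝ) (hκ : 0 < κ) (hf : Tendsto f atTop atTop)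
    (h : Tendsto (fun X => Real.log (f X) / l2 X) atTop (𝓝 κ)) :
    Tendsto (fun X => (Nat.primeCounting (f X) : ℝ) * l2 X / f X) atTop (𝓝 (1 / κ)) := by
  have h1 := (pnt.comp hf).div h hκ.ne'
  refine h1.congr' ?_
  have h2 : Tendsto (fun X => Real.log (f X)) atTop atTop :=
    Real.tendsto_log_atTop.comp (tendsto_natCast_atTop_atTop.comp hf)
  filter_upwards [tl2.eventually_gt_atTop 0, h2.eventually_gt_atTop 0, hf.eventually_gt_atTop 0]
    with X h3 h4 h5
  have h6 : (0 : ℝ) < f X := by exact_mod_cast h5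
  simp only [Function.comp_apply, Pi.div_apply]
  field_simp

variable (c : ℝ) (hc : 0 < c)

include hc in
theorem pi_y : Tendsto (fun X => (Nat.primeCounting (yy c X) : ℝ) * l2 X / l1 X ^ 2) atTop (𝓝 (c / 2)) := by
  have h1 := (pi_scale (yy c) 2 (by norm_num) (yy_nat c hc) (log_yy c hc)).mul (yy_lim c hc)
  have e : (1 : ℝ) / 2 * c = c / 2 := by ring
  rw [e] at h1
  refine h1.congr' ?_
  filter_upwards [tl1.eventually_gt_atTop 0, (yy_nat c hc).eventually_gt_atTop 0] with X h3 h5
  have h6 : (0 : ℝ) < yy c X := by exact_mod_cast h5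
  field_simp

include hc in
theorem pi_2y : Tendsto (fun X => (Nat.primeCounting (2 * yy c X) : ℝ) * l2 X / l1 X ^ 2) atTop (𝓝 c) := by
  have hf : Tendsto (fun X => 2 * yy c X) atTop atTop :=
    (yy_nat c hc).const_mul_atTop' (by norm_num)
  have hl : Tendsto (fun X => Real.log ((2 * yy c X : ℕ) : ℝ) / l2 X) atTop (𝓝 2) := by
    have := log_ratio (fun X => ((2 * yy c X : ℕ) : ℝ)) 2 0 (2 * c) (by positivity) (by
      refine ((yy_lim c hc).const_mul 2).congr fun X => ?_
      push_cast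
      ring)
    simpa using this
  have h1 := (pi_scale (fun X => 2 * yy c X) 2 (by norm_num) hf hl).mul ((yy_lim c hc).const_mul 2)
  have e : (1 : ℝ) / 2 * (2 * c) = c := by ring
  rw [e] at h1
  refine h1.congr' ?_
  filter_upwards [tl1.eventually_gt_atTop 0, (yy_nat c hc).eventually_gt_atTop 0] with X h3 h5
  have h6 : (0 : ℝ) < yy c X := by exact_mod_cast h5
  push_cast
  field_simp

include hc in
theorem ww_lt_yy : ∀ᶠ X in atTop, ww X < yy c X := by
  -- `w / l1 → 0`, `y / l1 → ∞`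
  have h1 := ww_lim
  have h2 := yy_lim c hc
  have h3 : Tendsto (fun X => c / 2 * l1 X) atTop atTop := tl1.const_mul_atTop (by positivity)
  filter_upwards [h1.eventually_lt_const (show (1 : ℝ) < 2 by norm_num), tl2.eventually_gt_atTop 1,
    tl1.eventually_gt_atTop 1, h2.eventually_const_lt (show c / 2 < c by linarith),
    h3.eventually_gt_atTop 2] with X h4 h5 h6 h7 h8
  rw [div_lt_iff₀ (by linarith)] at h4
  rw [lt_div_iff₀ (by positivity)] at h7
  have h9 : (ww X : ℝ) < 2 * l1 X := by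
    have : (ww X : ℝ) ≤ ww X * l2 X := le_mul_of_one_le_right (Nat.cast_nonneg _) h5.le
    linarith
  have h10 : (ww X : ℝ) < yy c X := by nlinarith
  exact_mod_cast h10

include hc in
theorem yy_lt_ww3 : ∀ᶠ X in atTop, yy c X < ww X ^ 3 := by
  have h1 : Tendsto (fun X => (yy c X : ℝ) / l1 X ^ 2 * (l2 X ^ 3 / l1 X ^ (1 : ℝ)) /
      ((ww X : ℝ) * l2 X / l1 X) ^ 3) atTop (𝓝 (c * 0 / 1 ^ 3)) :=
    ((yy_lim c hc).mul (l2_l1 3 1 one_pos)).div (ww_lim.pow 3) (by norm_num)
  rw [mul_zero, zero_div] at h1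
  filter_upwards [h1.eventually_lt_const one_pos, tl1.eventually_gt_atTop 0, tl2.eventually_gt_atTop 0,
    ww_nat.eventually_gt_atTop 0] with X h2 h3 h4 h5
  have h6 : (0 : ℝ) < ww X := by exact_mod_cast h5
  rw [Real.rpow_one] at h2
  have e : (yy c X : ℝ) / l1 X ^ 2 * (l2 X ^ 3 / l1 X) / ((ww X : ℝ) * l2 X / l1 X) ^ 3 =
      yy c X / ww X ^ 3 := by
    field_simp
  rw [e, div_lt_one (by positivity)] at h2
  exact_mod_cast h2

include hc in
theorem ww_le_sqrt : ∀ᶠ X in atTop, ww X ≤ Nat.sqrt (yy c X) := by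
  have h1 : Tendsto (fun X => ((ww X : ℝ) * l2 X / l1 X) ^ 2 * (1 / l2 X) ^ 2 /
      ((yy c X : ℝ) / l1 X ^ 2)) atTop (𝓝 (1 ^ 2 * 0 ^ 2 / c)) := by
    have h2 : Tendsto (fun X => 1 / l2 X) atTop (𝓝 0) := tendsto_const_nhds.div_atTop tl2
    exact ((ww_lim.pow 2).mul (h2.pow 2)).div (yy_lim c hc) hc.ne'
  have e0 : (1 : ℝ) ^ 2 * 0 ^ 2 / c = 0 := by simp
  rw [e0] at h1
  filter_upwards [h1.eventually_lt_const one_pos, tl1.eventually_gt_atTop 0, tl2.eventually_gt_atTop 0,
    (yy_nat c hc).eventually_gt_atTop 0] with X h2 h3 h4 h5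
  have h6 : (0 : ℝ) < yy c X := by exact_mod_cast h5
  have e : ((ww X : ℝ) * l2 X / l1 X) ^ 2 * (1 / l2 X) ^ 2 / ((yy c X : ℝ) / l1 X ^ 2) =
      ww X ^ 2 / yy c X := by
    field_simp
  rw [e, div_lt_one (by positivity)] at h2
  refine Nat.le_sqrt'.2 ?_
  exact_mod_cast h2.le

/-- combinatorial upper bound -/
theorem rough_le (w y : ℕ) (hw : y < w ^ 3) :
    ((rough w (Icc 1 y)).card : ℝ) ≤ 1 + Nat.primeCounting y +
      ∑ p ∈ (Ioc w (Nat.sqrt y)).filter Nat.Prime, (Nat.primeCounting (y / p) : ℝ) := by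
  have hpc : ∀ n, ((Icc 1 n).filter Nat.Prime).card = Nat.primeCounting n := fun n =>
    (Pool.Agent.R98.primeCounting_eq n).symm
  set A := (Ioc w (Nat.sqrt y)).filter Nat.Prime with hA
  have hsub : rough w (Icc 1 y) ⊆ {1} ∪ (Icc 1 y).filter Nat.Prime ∪
      A.biUnion (fun p => ((Icc 1 (y / p)).filter Nat.Prime).image (fun q => p * q)) := by
    intro m hm
    unfold rough at hm
    rw [mem_filter, mem_Icc] at hm
    obtain ⟨⟨hm1, hm2⟩, hm3⟩ := hm
    rw [mem_union, mem_union, mem_singleton, mem_filter, mem_Icc, mem_biUnion]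
    by_cases h1 : m = 1
    · exact Or.inl (Or.inl h1)
    by_cases h2 : m.Prime
    · exact Or.inl (Or.inr ⟨⟨hm1, hm2⟩, h2⟩)
    right
    set p := m.minFac with hp
    have hpp : p.Prime := Nat.minFac_prime h1
    have hpw : w < p := by
      by_contra hcon
      exact hm3 p (by omega) hpp (Nat.minFac_dvd m)
    obtain ⟨q, hq⟩ := Nat.minFac_dvd m
    rw [← hp] at hq
    have hq0 : q ≠ 0 := by
      rintro rfl
      omega
    have hq1 : q ≠ 1 := by
      rintro rfl
      rw [mul_one] at hq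
      exact h2 (hq ▸ hpp)
    have hpq : ∀ r : ℕ, r.Prime → r ∣ q → p ≤ r := fun r hr hrq =>
      Nat.minFac_le_of_dvd hr.two_le (hrq.trans ⟨p, by rw [hq, mul_comm]⟩)
    have hple : p ≤ q := (hpq _ (Nat.minFac_prime hq1) (Nat.minFac_dvd q)).trans (Nat.minFac_le (by omega))
    have hqp : q.Prime := by
      by_contra hqn
      -- `q` has at least two prime factors `≥ p`
      have h3 : p ^ 2 ≤ q := by
        have h4 := Nat.minFac_sq_le_self (by omega : 0 < q) hqn
        have h5 := hpq _ (Nat.minFac_prime hq1) (Nat.minFac_dvd q)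
        calc p ^ 2 ≤ q.minFac ^ 2 := Nat.pow_le_pow_left h5 2
          _ ≤ q := h4
      have h6 : p ^ 3 ≤ m := by
        rw [hq, pow_succ, mul_comm]
        exact Nat.mul_le_mul_left p h3
      have h7 : w ^ 3 ≤ p ^ 3 := Nat.pow_le_pow_left hpw.le 3
      omega
    refine ⟨p, ?_, ?_⟩
    · rw [hA, mem_filter, mem_Ioc]
      refine ⟨⟨hpw, ?_⟩, hpp⟩
      rw [Nat.le_sqrt]
      calc p * p ≤ p * q := Nat.mul_le_mul_left p hple
        _ = m := hq.symm
        _ ≤ y := hm2
    · rw [mem_image]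
      refine ⟨q, ?_, hq.symm⟩
      rw [mem_filter, mem_Icc]
      refine ⟨⟨by omega, ?_⟩, hqp⟩
      rw [Nat.le_div_iff_mul_le hpp.pos, mul_comm, ← hq]
      exact hm2
  have h1 := (card_le_card hsub).trans ((card_union_le _ _).trans
    (Nat.add_le_add (card_union_le _ _) card_biUnion_le))
  rw [card_singleton, hpc] at h1
  have h2 : ∑ p ∈ A, (((Icc 1 (y / p)).filter Nat.Prime).image (fun q => p * q)).card ≤
      ∑ p ∈ A, Nat.primeCounting (y / p) := by
    refine sum_le_sum fun p _ => ?_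
    rw [← hpc]
    exact card_image_le
  have h3 := h1.trans (Nat.add_le_add_left h2 _)
  exact_mod_cast h3

/-- lower bound -/
theorem le_rough (w a b : ℕ) (hwa : w ≤ a) :
    (Nat.primeCounting b : ℝ) - Nat.primeCounting a ≤ (rough w (Ioc a b)).card := by
  have hpc : ∀ n, ((Icc 1 n).filter Nat.Prime).card = Nat.primeCounting n := fun n =>
    (Pool.Agent.R98.primeCounting_eq n).symm
  have h1 : (Icc 1 b).filter Nat.Prime ⊆ (Icc 1 a).filter Nat.Prime ∪ rough w (Ioc a b) := by
    intro p hp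
    rw [mem_filter, mem_Icc] at hp
    rw [mem_union, mem_filter, mem_Icc]
    by_cases h : p ≤ a
    · exact Or.inl ⟨⟨hp.1.1, h⟩, hp.2⟩
    · right
      unfold rough
      rw [mem_filter, mem_Ioc]
      refine ⟨⟨by omega, hp.1.2⟩, fun q hq hqp hdvd => ?_⟩
      have := (Nat.prime_dvd_prime_iff_eq hqp hp.2).1 hdvd
      omega
  have h2 := (card_le_card h1).trans (card_union_le _ _)
  rw [hpc, hpc] at h2
  have h3 : (Nat.primeCounting b : ℝ) ≤ Nat.primeCounting a + (rough w (Ioc a b)).card := by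
    exact_mod_cast h2
  linarith

/-- reciprocal sums -/
theorem recip_le (m n : ℕ) (h : m ≤ n) :
    ∑ p ∈ (Ioc m n).filter Nat.Prime, 1 / (p : ℝ) ≤ Real.log (V m / V n) := by
  have h1 := V_pos m
  have h2 := V_pos n
  have e : Real.log (V m / V n) = - Real.log (V n / V m) := by
    rw [← Real.log_inv, inv_div]
  have hfac : ∀ p ∈ (Ioc m n).filter Nat.Prime, 0 < 1 - 1 / (p : ℝ) := fun p hp => by
    have h1 : (2 : ℝ) ≤ p := by exact_mod_cast (mem_filter.1 hp).2.two_le
    have h2 : 1 / (p : ℝ) ≤ 1 / 2 := by gcongr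
    linarith
  rw [e, V_ratio m n h, Real.log_prod (fun p hp => (hfac p hp).ne'), ← sum_neg_distrib]
  refine sum_le_sum fun p hp => ?_
  have := Real.log_le_sub_one_of_pos (hfac p hp)
  linarith

/-- `T`: the rough integers up to `y` -/
noncomputable def TT (c : ℝ) (X : ℕ) : Finset ℕ := rough (ww X) (Ioc 0 (yy c X))
/-- the rough integers in `(y, 2y]` -/
noncomputable def VV (c : ℝ) (X : ℕ) : Finset ℕ := rough (ww X) (Ioc (yy c X) (2 * yy c X))

include hc in
theorem TT_lim : Tendsto (fun X => ((TT c X).card : ℝ) * l2 X / l1 X ^ 2) atTop (𝓝 (c / 2)) := by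
  have hs : Tendsto (fun X => Nat.sqrt (yy c X)) atTop atTop := by
    refine tendsto_atTop.2 fun b => ?_
    filter_upwards [(yy_nat c hc).eventually_ge_atTop (b ^ 2)] with X hX
    exact Nat.le_sqrt'.2 hX
  have hinv : Tendsto (fun X => 1 / l1 X) atTop (𝓝 0) := tendsto_const_nhds.div_atTop tl1
  have hl21 : Tendsto (fun X => l2 X / l1 X) atTop (𝓝 0) := by
    have := l2_l1 1 1 one_pos
    refine this.congr fun X => ?_
    rw [pow_one, Real.rpow_one]
  -- lower bound
  have hlo : Tendsto (fun X => (Nat.primeCounting (yy c X) : ℝ) * l2 X / l1 X ^ 2 -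
      ((ww X : ℝ) * l2 X / l1 X) * (1 / l1 X)) atTop (𝓝 (c / 2)) := by
    have := (pi_y c hc).sub (ww_lim.mul hinv)
    rw [mul_zero, sub_zero] at this
    exact this
  -- upper bound
  have hV : Tendsto (fun X => Real.log (V (ww X) / V (Nat.sqrt (yy c X)))) atTop (𝓝 0) := by
    have h1 : Tendsto (fun X => (V (ww X) * l2 X) / (V (Nat.sqrt (yy c X)) * l2 X)) atTop (𝓝 1) := by
      have := V_ww.div (V_sqrt c hc) (Real.exp_pos _).ne'
      rwa [div_self (Real.exp_pos _).ne'] at this
    have h2 := (Real.continuousAt_log one_ne_zero).tendsto.comp h1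
    rw [Real.log_one] at h2
    refine h2.congr' ?_
    filter_upwards [tl2.eventually_gt_atTop 0] with X hX
    simp only [Function.comp_apply]
    congr 1
    have := V_pos (Nat.sqrt (yy c X))
    field_simp
  have hlogs : Tendsto (fun X => l2 X / Real.log (Nat.sqrt (yy c X))) atTop (𝓝 1) := by
    have h1 := (V_sqrt c hc).div (mertens.comp hs) (Real.exp_pos _).ne'
    rw [div_self (Real.exp_pos _).ne'] at h1
    refine h1.congr fun X => ?_
    simp only [Function.comp_apply, Pi.div_apply]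
    have := V_pos (Nat.sqrt (yy c X))
    field_simp
  have hup : Tendsto (fun X => (l2 X / l1 X) * (1 / l1 X) +
      (Nat.primeCounting (yy c X) : ℝ) * l2 X / l1 X ^ 2 +
      2 * ((yy c X : ℝ) / l1 X ^ 2) * (l2 X / Real.log (Nat.sqrt (yy c X))) *
        Real.log (V (ww X) / V (Nat.sqrt (yy c X)))) atTop (𝓝 (c / 2)) := by
    have := ((hl21.mul hinv).add (pi_y c hc)).add ((((yy_lim c hc).const_mul 2).mul hlogs).mul hV)
    simpa using this
  obtain ⟨n0, hn0⟩ := eventually_atTop.1 (pnt.eventually_lt_const (show (1 : ℝ) < 2 by norm_num))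
  refine tendsto_of_tendsto_of_tendsto_of_le_of_le' hlo hup ?_ ?_
  · filter_upwards [tl1.eventually_gt_atTop 0, tl2.eventually_gt_atTop 0, ww_lt_yy c hc] with X h1 h2 h3
    have h4 := le_rough (ww X) (ww X) (yy c X) le_rfl
    have h5 : ((rough (ww X) (Ioc (ww X) (yy c X))).card : ℝ) ≤ (TT c X).card := by
      unfold TT rough
      exact_mod_cast card_le_card (filter_subset_filter _ (Ioc_subset_Ioc_left (Nat.zero_le _)))
    have h6 : (Nat.primeCounting (ww X) : ℝ) ≤ ww X := by
      rw [Pool.Agent.R98.primeCounting_eq]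
      have : ((Icc 1 (ww X)).filter Nat.Prime).card ≤ ww X := by
        refine (card_filter_le _ _).trans ?_
        simp
      exact_mod_cast this
    have h7 : (Nat.primeCounting (yy c X) : ℝ) - ww X ≤ (TT c X).card := by linarith
    have e : (Nat.primeCounting (yy c X) : ℝ) * l2 X / l1 X ^ 2 - ((ww X : ℝ) * l2 X / l1 X) * (1 / l1 X) =
        ((Nat.primeCounting (yy c X) : ℝ) - ww X) * l2 X / l1 X ^ 2 := by
      field_simp
    rw [e]
    gcongr
  · filter_upwards [tl1.eventually_gt_atTop 0, tl2.eventually_gt_atTop 0, yy_lt_ww3 c hc, ww_le_sqrt c hc,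
      hs.eventually_ge_atTop (max n0 2), (yy_nat c hc).eventually_gt_atTop 0] with X h1 h2 h3 h4 h5 h5'
    have hTT : TT c X = rough (ww X) (Icc 1 (yy c X)) := by
      unfold TT
      congr 1
    have h6 := rough_le (ww X) (yy c X) h3
    rw [← hTT] at h6
    set y := yy c X with hy
    set r := Nat.sqrt y with hr
    have hr2 : (2 : ℝ) ≤ r := by exact_mod_cast (le_max_right _ _).trans h5
    have hlogr : 0 < Real.log r := Real.log_pos (by linarith)
    have h7 : ∑ p ∈ (Ioc (ww X) r).filter Nat.Prime, (Nat.primeCounting (y / p) : ℝ) ≤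
        ∑ p ∈ (Ioc (ww X) r).filter Nat.Prime, (2 * y / Real.log r) * (1 / (p : ℝ)) := by
      refine sum_le_sum fun p hp => ?_
      rw [mem_filter, mem_Ioc] at hp
      have hp0 : (0 : ℝ) < p := by exact_mod_cast hp.2.pos
      have h8 : r ≤ y / p := by
        rw [Nat.le_div_iff_mul_le hp.2.pos]
        calc r * p ≤ r * r := Nat.mul_le_mul_left r hp.1.2
          _ ≤ y := Nat.sqrt_le y
      have h9 := hn0 (y / p) ((le_max_left _ _).trans (h5.trans h8))
      have h10 : (0 : ℝ) < ((y / p : ℕ) : ℝ) := by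
        have : 0 < y / p := by omega
        exact_mod_cast this
      have h11 : Real.log r ≤ Real.log ((y / p : ℕ) : ℝ) :=
        Real.log_le_log (by linarith) (by exact_mod_cast h8)
      rw [div_lt_iff₀ h10] at h9
      have h12 : ((y / p : ℕ) : ℝ) ≤ (y : ℝ) / p := Nat.cast_div_le
      have h13 : (Nat.primeCounting (y / p) : ℝ) * Real.log r ≤ 2 * (y / p) := by
        have : (Nat.primeCounting (y / p) : ℝ) * Real.log r ≤
            (Nat.primeCounting (y / p) : ℝ) * Real.log ((y / p : ℕ) : ℝ) := by gcongr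
        linarith
      calc (Nat.primeCounting (y / p) : ℝ) ≤ 2 * (y / p) / Real.log r := by
            rw [le_div_iff₀ hlogr]
            exact h13
        _ = (2 * y / Real.log r) * (1 / (p : ℝ)) := by ring
    rw [← mul_sum] at h7
    have h8 := recip_le (ww X) r h4
    have h9 : (2 * y / Real.log r) * ∑ p ∈ (Ioc (ww X) r).filter Nat.Prime, 1 / (p : ℝ) ≤
        (2 * y / Real.log r) * Real.log (V (ww X) / V r) := by gcongr
    have h10 : ((TT c X).card : ℝ) ≤ 1 + Nat.primeCounting y + (2 * y / Real.log r) * Real.log (V (ww X) / V r) := by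
      linarith
    have e : (l2 X / l1 X) * (1 / l1 X) + (Nat.primeCounting y : ℝ) * l2 X / l1 X ^ 2 +
        2 * ((y : ℝ) / l1 X ^ 2) * (l2 X / Real.log r) * Real.log (V (ww X) / V r) =
        (1 + Nat.primeCounting y + (2 * y / Real.log r) * Real.log (V (ww X) / V r)) * l2 X / l1 X ^ 2 := by
      field_simp
    rw [e]
    gcongr

include hc in
theorem VV_lower : ∀ ε > 0, ∀ᶠ X in atTop, (c / 2 - ε) ≤ ((VV c X).card : ℝ) * l2 X / l1 X ^ 2 := by
  intro ε hε
  have h1 := (pi_2y c hc).sub (pi_y c hc)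
  have e : c - c / 2 = c / 2 := by ring
  rw [e] at h1
  filter_upwards [h1.eventually_const_lt (show c / 2 - ε < c / 2 by linarith), tl1.eventually_gt_atTop 0,
    tl2.eventually_gt_atTop 0, ww_lt_yy c hc] with X h2 h3 h4 h5
  refine h2.le.trans ?_
  have h6 := le_rough (ww X) (yy c X) (2 * yy c X) h5.le
  have e2 : (Nat.primeCounting (2 * yy c X) : ℝ) * l2 X / l1 X ^ 2 -
      (Nat.primeCounting (yy c X) : ℝ) * l2 X / l1 X ^ 2 =
      ((Nat.primeCounting (2 * yy c X) : ℝ) - Nat.primeCounting (yy c X)) * l2 X / l1 X ^ 2 := by ring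
  rw [e2]
  unfold VV
  gcongr

end Pool.Agent.T2H32.BF
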