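import Pool.Agent.T2H32.BF.Gap

set_option autoImplicit false

/-! # Existence of the model, the sieving limit of Banks, Ford and Tao, and the final form -/

open Finset Filter Topology MeasureTheory ProbabilityTheory
open scoped ENNReal

namespace Pool.Agent.T2H32.BF

theorem V_zero : Tendsto V atTop (𝓝 0) := by
  have h1 : Tendsto (fun n : ℕ => (Real.log n)⁻¹) atTop (𝓝 0) :=
    tendsto_inv_atTop_zero.comp (Real.tendsto_log_atTop.comp tendsto_natCast_atTop_atTop)
  have h2 := mertens.mul h1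
  rw [mul_zero] at h2
  refine h2.congr' ?_
  filter_upwards [eventually_ge_atTop 2] with n hn
  have : 0 < Real.log n := Real.log_pos (by exact_mod_cast hn)
  field_simp

theorem V_step (n : ℕ) : V n * (1 - 1 / ((n : ℝ) + 1)) ≤ V (n + 1) := by
  have h0 := V_pos n
  have h2 : 0 ≤ 1 / ((n : ℝ) + 1) := by positivity
  by_cases h : (n + 1).Prime
  · have e : V (n + 1) = (1 - 1 / ((n : ℝ) + 1)) * V n := by
      unfold V
      rw [range_add_one, filter_insert, if_pos h, prod_insert (by simp)]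
      push_cast
      rfl
    rw [e, mul_comm]
  · have e : V (n + 1) = V n := by
      unfold V
      rw [range_add_one, filter_insert, if_neg h]
    rw [e]
    nlinarith

/-- the sieving limit of Banks, Ford and Tao -/
noncomputable def z0 (n : ℕ) : ℕ := sSup {m : ℕ | (V m)⁻¹ ≤ Real.log n}

theorem z0_bdd (n : ℕ) : BddAbove {m : ℕ | (V m)⁻¹ ≤ Real.log n} := by
  by_contra hb
  rw [not_bddAbove_iff] at hb
  have h1 := V_zero
  have hpos : 0 < (max (Real.log n) 0 + 1)⁻¹ := by positivity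
  obtain ⟨N, hN⟩ := eventually_atTop.1 (h1.eventually_lt_const hpos)
  obtain ⟨m, hm, hNm⟩ := hb N
  have h2 := hN m hNm.le
  have h3 : (V m)⁻¹ ≤ Real.log n := hm
  have h4 : max (Real.log n) 0 + 1 < (V m)⁻¹ := by
    rw [lt_inv_comm₀ (by positivity) (V_pos m)]
    exact h2
  have h5 : Real.log n ≤ max (Real.log n) 0 := le_max_left _ _
  linarith

theorem z0_mem (n : ℕ) (hn : 3 ≤ n) : (V (z0 n))⁻¹ ≤ Real.log n := by
  have h1 : {m : ℕ | (V m)⁻¹ ≤ Real.log n}.Nonempty := by
    refine ⟨0, ?_⟩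
    have e : V 0 = 1 := by
      unfold V
      rfl
    simp only [Set.mem_ofPred_eq]
    rw [e, inv_one, Real.le_log_iff_exp_le (by positivity)]
    have h2 := Real.exp_one_lt_d9
    have h3 : (3 : ℝ) ≤ n := by exact_mod_cast hn
    linarith
  exact Nat.sSup_mem h1 (z0_bdd n)

theorem z0_lt (n : ℕ) : Real.log n < (V (z0 n + 1))⁻¹ := by
  by_contra h
  have h1 : z0 n + 1 ∈ {m : ℕ | (V m)⁻¹ ≤ Real.log n} := not_lt.1 h
  have h2 := le_csSup (z0_bdd n) h1
  have h3 : z0 n + 1 ≤ z0 n := h2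
  omega

theorem z0_mono : Monotone z0 := by
  intro m n hmn
  unfold z0
  rcases Set.eq_empty_or_nonempty {k : ℕ | (V k)⁻¹ ≤ Real.log m} with h | h
  · rw [h]
    simp
  · refine csSup_le_csSup (z0_bdd n) h ?_
    intro k hk
    have h1 : (V k)⁻¹ ≤ Real.log m := hk
    have h2 : 0 < (V k)⁻¹ := inv_pos.2 (V_pos k)
    have h3 : (0 : ℝ) < m := by
      rcases Nat.eq_zero_or_pos m with h0 | h0
      · rw [h0] at h1
        simp at h1
        linarith [V_pos k]
      · exact_mod_cast h0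
    have h4 : Real.log m ≤ Real.log n := Real.log_le_log h3 (by exact_mod_cast hmn)
    exact h1.trans h4

theorem z0_top : Tendsto z0 atTop atTop := by
  rw [tendsto_atTop]
  intro M
  filter_upwards [tl1.eventually_ge_atTop (V M)⁻¹] with n hn
  exact le_csSup (z0_bdd n) hn

theorem z0_lim : Tendsto (fun n => V (z0 n) * Real.log n) atTop (𝓝 1) := by
  have h1 : Tendsto (fun n => (1 - 1 / ((z0 n : ℝ) + 1))⁻¹) atTop (𝓝 1) := by
    have h2 : Tendsto (fun n => 1 / ((z0 n : ℝ) + 1)) atTop (𝓝 0) := by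
      have h3 : Tendsto (fun n => (z0 n : ℝ) + 1) atTop atTop :=
        (tendsto_natCast_atTop_atTop.comp z0_top).atTop_add tendsto_const_nhds
      exact (tendsto_inv_atTop_zero.comp h3).congr fun n => by simp
    have h4 := ((tendsto_const_nhds (x := (1 : ℝ))).sub h2).inv₀ (by norm_num)
    simpa using h4
  refine tendsto_of_tendsto_of_tendsto_of_le_of_le' tendsto_const_nhds h1 ?_ ?_
  · filter_upwards [eventually_ge_atTop 3] with n hn
    have h2 := z0_mem n hn
    have h3 := V_pos (z0 n)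
    rw [inv_le_iff_one_le_mul₀ h3] at h2
    linarith
  · filter_upwards [z0_top.eventually_ge_atTop 1] with n hn
    have h2 := z0_lt n
    have h3 := V_pos (z0 n)
    have h4 := V_pos (z0 n + 1)
    have h5 := V_step (z0 n)
    have h6 : (2 : ℝ) ≤ (z0 n : ℝ) + 1 := by
      have : (1 : ℝ) ≤ z0 n := by exact_mod_cast hn
      linarith
    have h7 : 1 / ((z0 n : ℝ) + 1) ≤ 1 / 2 := by gcongr
    have h8 : 0 < 1 - 1 / ((z0 n : ℝ) + 1) := by linarith
    have h10 : 0 ≤ Real.log n := Real.log_natCast_nonneg n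
    have h9 : Real.log n * V (z0 n + 1) < 1 := by
      have := mul_lt_mul_of_pos_right h2 h4
      rwa [inv_mul_cancel₀ h4.ne'] at this
    have h11 : V (z0 n) * Real.log n * (1 - 1 / ((z0 n : ℝ) + 1)) ≤ 1 := by
      have := mul_le_mul_of_nonneg_right h5 h10
      nlinarith
    calc V (z0 n) * Real.log n = V (z0 n) * Real.log n * (1 - 1 / ((z0 n : ℝ) + 1)) *
          (1 - 1 / ((z0 n : ℝ) + 1))⁻¹ := by
          rw [mul_assoc, mul_inv_cancel₀ h8.ne', mul_one]
      _ ≤ 1 * (1 - 1 / ((z0 n : ℝ) + 1))⁻¹ := mul_le_mul_of_nonneg_right h11 (inv_nonneg.2 h8.le)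
      _ = _ := one_mul _

theorem exists_model : ∃ (Ω : Type) (_ : MeasurableSpace Ω) (P : Measure Ω) (a : ℕ → Ω → ℕ), Model P a := by
  classical
  have hne : ∀ p : ℕ, (range (max p 1)).Nonempty := fun p => ⟨0, by simp⟩
  set ν : ℕ → Measure ℕ := fun p => (PMF.uniformOfFinset (range (max p 1)) (hne p)).toMeasure with hν
  have hνp : ∀ k, IsProbabilityMeasure (ν k) := fun k => by
    simp only [hν]
    infer_instance
  refine ⟨ℕ → ℕ, inferInstance, Measure.infinitePi ν, fun k ω => ω k, ?_, ?_, ?_⟩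
  · intro k
    exact measurable_pi_apply k
  · exact iIndepFun_infinitePi (P := ν) (X := fun _ x => x) (fun _ => measurable_id)
  · intro p hp r hr
    have h2 : (Measure.infinitePi ν) {ω | ω p = r} = ν p {r} := by
      rw [← Measure.infinitePi_map_eval ν p, Measure.map_apply (measurable_pi_apply p)
        (measurableSet_singleton r)]
      rfl
    rw [measureReal_def, h2]
    simp only [hν]
    rw [PMF.toMeasure_apply_singleton _ _ (measurableSet_singleton r), PMF.uniformOfFinset_apply]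
    have h3 : max p 1 = p := max_eq_left hp.one_le
    rw [h3, if_pos (mem_range.2 hr), card_range]
    simp

theorem gam : Real.eulerMascheroniConstant < 0.5851 := by
  have h := Real.eulerMascheroniConstant_lt_eulerMascheroniSeq' 64
  refine h.trans ?_
  unfold Real.eulerMascheroniSeq'
  rw [if_neg (by norm_num)]
  have h1 : Real.log ((64 : ℕ) : ℝ) = 6 * Real.log 2 := by
    rw [show ((64 : ℕ) : ℝ) = 2 ^ 6 by norm_num, Real.log_pow]
    norm_num
  rw [h1]
  have h2 := Real.log_two_gt_d9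
  have h3 : (harmonic 64 : ℝ) < 4.74389093 + 0.00002 := by
    have : (harmonic 64 : ℚ) < 4.74391093 := by
      simp only [harmonic, Finset.sum_range_succ, Finset.sum_range_zero]
      norm_num
    have h4 : ((harmonic 64 : ℚ) : ℝ) < ((4.74391093 : ℚ) : ℝ) := by exact_mod_cast this
    push_cast at h4
    norm_num at h4 ⊢
  norm_num at h3 ⊢
  linarith

/-- `e ^ γ < 9 / 5` -/
theorem expg : Real.exp Real.eulerMascheroniConstant < 9 / 5 := by
  have h1 := gam
  have h2 : Real.exp Real.eulerMascheroniConstant < Real.exp 0.5851 := Real.exp_lt_exp.2 h1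
  refine h2.trans ?_
  have h3 := Real.exp_bound' (x := 0.5851) (by norm_num) (by norm_num) (n := 6) (by norm_num)
  refine h3.trans_lt ?_
  simp only [Finset.sum_range_succ, Finset.sum_range_zero, Nat.factorial]
  norm_num

variable {Ω : Type*} [MeasurableSpace Ω] {P : Measure Ω} {a : ℕ → Ω → ℕ}

/-- the final form -/
theorem main_all (h : Model P a) (z : ℕ → ℕ) (hz : Monotone z)
    (hzV : Tendsto (fun n => V (z n) * Real.log n) atTop (𝓝 1)) :
    ∀ᵐ ω ∂P, (R z (fun p => a p ω)).Infinite ∧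
      ∀ c θ : ℝ, 0 < c → 0 ≤ θ → θ < 1 - c * (Real.exp Real.eulerMascheroniConstant / 2) →
        ∀ᶠ X : ℕ in atTop, (X : ℝ) ^ θ ≤ NN z (fun p => a p ω) c X := by
  have hE : 0 < Real.exp Real.eulerMascheroniConstant / 2 := by positivity
  have heq : ∀ c : ℝ, c / (2 * eg) = c * (Real.exp Real.eulerMascheroniConstant / 2) := by
    intro c
    unfold eg
    rw [Real.exp_neg]
    field_simp
  have h0 : ∀ q : ℚ × ℚ, 0 < q.1 → 0 < q.2 →
      (q.2 : ℝ) < 1 - q.1 * (Real.exp Real.eulerMascheroniConstant / 2) →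
      ∀ᵐ ω ∂P, (R z (fun p => a p ω)).Infinite ∧
        ∀ᶠ X : ℕ in atTop, (X : ℝ) ^ (q.2 : ℝ) ≤ NN z (fun p => a p ω) q.1 X := by
    intro q h1 h2 h3
    exact main_fixed h q.1 (by exact_mod_cast h1) z hz hzV q.2 (by exact_mod_cast h2) (by rw [heq]; exact h3)
  have hall : ∀ᵐ ω ∂P, ∀ q : ℚ × ℚ, 0 < q.1 → 0 < q.2 →
      (q.2 : ℝ) < 1 - q.1 * (Real.exp Real.eulerMascheroniConstant / 2) →
      (R z (fun p => a p ω)).Infinite ∧
        ∀ᶠ X : ℕ in atTop, (X : ℝ) ^ (q.2 : ℝ) ≤ NN z (fun p => a p ω) q.1 X := by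
    rw [ae_all_iff]
    intro q
    by_cases h1 : 0 < q.1
    · by_cases h2 : 0 < q.2
      · by_cases h3 : (q.2 : ℝ) < 1 - q.1 * (Real.exp Real.eulerMascheroniConstant / 2)
        · filter_upwards [h0 q h1 h2 h3] with ω hω _ _ _
          exact hω
        · exact Eventually.of_forall fun ω _ _ h => absurd h h3
      · exact Eventually.of_forall fun ω _ h => absurd h h2
    · exact Eventually.of_forall fun ω h => absurd h h1
  filter_upwards [hall] with ω hω
  have hinf : (R z (fun p => a p ω)).Infinite := by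
    have h1 := expg
    refine (hω (1 / 10, 1 / 10) (by norm_num) (by norm_num) ?_).1
    push_cast
    linarith
  refine ⟨hinf, ?_⟩
  intro c θ hc hθ0 hθ
  have h1 : c < (1 - θ) / (Real.exp Real.eulerMascheroniConstant / 2) := by
    rw [lt_div_iff₀ hE]
    linarith
  obtain ⟨c1, hc1, hc2⟩ := exists_rat_btwn h1
  rw [lt_div_iff₀ hE] at hc2
  obtain ⟨θ1, hθ1, hθ2⟩ := exists_rat_btwn (show θ < 1 - c1 * (Real.exp Real.eulerMascheroniConstant / 2) by linarith)
  have h2 : (0 : ℝ) < c1 := hc.trans hc1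
  have h3 : (0 : ℝ) < θ1 := lt_of_le_of_lt hθ0 hθ1
  filter_upwards [(hω (c1, θ1) (by exact_mod_cast h2) (by exact_mod_cast h3) hθ2).2, eventually_ge_atTop 1] with X hX hX1
  have h4 : (1 : ℝ) ≤ X := by exact_mod_cast hX1
  calc (X : ℝ) ^ θ ≤ (X : ℝ) ^ (θ1 : ℝ) := Real.rpow_le_rpow_of_exponent_le h4 hθ1.le
    _ ≤ NN z (fun p => a p ω) c1 X := hX
    _ ≤ NN z (fun p => a p ω) c X := by
      exact_mod_cast NN_mono z (fun p => a p ω) hinf c c1 hc1.le X X le_rfl

end Pool.Agent.T2H32.BF
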