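import Pool.Agent.T2H32.BF.Asy3

set_option autoImplicit false

/-! # From blocks to gaps between consecutive random primes -/

open Finset Filter Topology MeasureTheory
open scoped ENNReal

namespace Pool.Agent.T2H32.BF

/-- the random primes for the residue classes `b` and the sieving limits `z` -/
def R (z : ℕ → ℕ) (b : ℕ → ℕ) : Set ℕ := {k | 3 ≤ k ∧ ∀ p ≤ z k, p.Prime → k % p ≠ b p}

/-- the random primes in increasing order -/
noncomputable def pr (z : ℕ → ℕ) (b : ℕ → ℕ) (n : ℕ) : ℕ := Nat.nth (fun k => k ∈ R z b) n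

/-- the gaps -/
noncomputable def gp (z : ℕ → ℕ) (b : ℕ → ℕ) (n : ℕ) : ℝ := (pr z b (n + 1) : ℝ) - pr z b n - 1

/-- number of long gaps -/
noncomputable def NN (z : ℕ → ℕ) (b : ℕ → ℕ) (c : ℝ) (X : ℕ) : ℕ :=
  {n | c * Real.log (pr z b n) ^ 2 ≤ gp z b n ∧ pr z b n ≤ X}.ncard

theorem NN_fin (z b : ℕ → ℕ) (hinf : (R z b).Infinite) (c : ℝ) (X : ℕ) :
    {n | c * Real.log (pr z b n) ^ 2 ≤ gp z b n ∧ pr z b n ≤ X}.Finite := by
  refine (Set.finite_Iic X).subset fun n hn => ?_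
  have h1 : StrictMono (pr z b) := Nat.nth_strictMono hinf
  exact (h1.id_le n).trans hn.2

theorem NN_mono (z b : ℕ → ℕ) (hinf : (R z b).Infinite) (c c' : ℝ) (hc : c ≤ c') (X X' : ℕ) (hX : X ≤ X') :
    NN z b c' X ≤ NN z b c X' := by
  unfold NN
  refine Set.ncard_le_ncard ?_ (NN_fin z b hinf c X')
  rintro n ⟨h1, h2⟩
  refine ⟨le_trans ?_ h1, h2.trans hX⟩
  gcongr

section blocks

variable (z b : ℕ → ℕ) (hz : Monotone z) (hb : ∀ p, p.Prime → b p < p)
  (w y Y X i0 : ℕ) (hwY : w ≤ Y) (hYZ : Y ≤ z (X / 4)) (hX : 16 ≤ X) (hy : 1 ≤ y)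
  (hi0 : X / 4 ≤ primorial w * (4 * y) * i0)
  (hi1 : primorial w * (4 * y) * (2 * i0) ≤ X)

include hz hb hwY hYZ hi0 in
theorem blk_empty (i : ℕ) (hi : i ∈ Ico i0 (2 * i0)) (hB : Blk w y Y (z (X / 4)) (z X) b i) (u : ℕ)
    (hu : pos w y b i < u) (hu' : u ≤ pos w y b i + y) : u ∉ R z b := by
  rw [mem_Ico] at hi
  have hp1 : X / 4 ≤ pos w y b i := by
    unfold pos
    have : primorial w * (4 * y) * i0 ≤ primorial w * (4 * y) * i := Nat.mul_le_mul_left _ hi.1
    omega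
  have hzu : z (X / 4) ≤ z u := hz (by omega)
  intro huR
  obtain ⟨-, huR⟩ := huR
  set m := u - pos w y b i with hm
  have hum : u = pos w y b i + m := by omega
  by_cases h1 : ∃ p ≤ w, p.Prime ∧ p ∣ m
  · obtain ⟨p, hpw, hp, hdvd⟩ := h1
    refine huR p (by omega) hp ?_
    have hpW : p ∈ PW w := by
      unfold PW
      rw [mem_filter, mem_range]
      exact ⟨by omega, hp⟩
    rw [hum, Nat.add_mod, Nat.mod_eq_zero_of_dvd hdvd, add_zero, Nat.mod_mod, pos_mod w y b i p hpW,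
      Nat.mod_eq_of_lt (hb p hp)]
  · push Not at h1
    have hUS : u ∈ US w y (Ioc 0 y) b i := by
      unfold US rough
      rw [mem_image]
      refine ⟨m, ?_, hum.symm⟩
      rw [mem_filter, mem_Ioc]
      exact ⟨⟨by omega, by omega⟩, fun p hp hpp => h1 p hp hpp⟩
    by_cases h2 : ∀ p ∈ PI w Y, u % p ≠ b p
    · have hTS : u ∈ TS w y Y (Ioc 0 y) b i := mem_filter.2 ⟨hUS, h2⟩
      obtain ⟨p, hp, h3⟩ := hB.1 u hTS
      unfold PI at hp
      rw [mem_filter, mem_Ioc] at hp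
      exact huR p (by omega) hp.2 h3
    · push Not at h2
      obtain ⟨p, hp, h3⟩ := h2
      unfold PI at hp
      rw [mem_filter, mem_Ioc] at hp
      exact huR p (by omega) hp.2 h3

include hz hb hX hi0 hi1 hy in
theorem blk_next (i : ℕ) (hi : i ∈ Ico i0 (2 * i0)) (hB : Blk w y Y (z (X / 4)) (z X) b i) :
    ∃ u ∈ R z b, pos w y b i + y < u ∧ u ≤ pos w y b i + 2 * y := by
  rw [mem_Ico] at hi
  have hp1 : X / 4 ≤ pos w y b i := by
    unfold pos
    have : primorial w * (4 * y) * i0 ≤ primorial w * (4 * y) * i := Nat.mul_le_mul_left _ hi.1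
    omega
  have hp2 := pos_le w y i0 X hy hi1 b i hi.2
  have h0 := hB.2
  push Not at h0
  obtain ⟨u, hu, h1⟩ := h0
  unfold TS at hu
  rw [mem_filter] at hu
  obtain ⟨hu1, hu2⟩ := hu
  obtain ⟨m, hm, hm2, hum⟩ := US_mem w y _ b i u hu1
  rw [mem_Ioc] at hm
  refine ⟨u, ⟨by omega, fun p hpz hp he => ?_⟩, by omega, by omega⟩
  have hzu : z u ≤ z X := hz (by omega)
  rcases le_or_gt p w with h2 | h2
  · have hpW : p ∈ PW w := by
      unfold PW
      rw [mem_filter, mem_range]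
      exact ⟨by omega, hp⟩
    have h3 : pos w y b i % p = b p := by
      rw [pos_mod w y b i p hpW, Nat.mod_eq_of_lt (hb p hp)]
    have h4 : (pos w y b i + m) ≡ pos w y b i [MOD p] := by
      show (pos w y b i + m) % p = pos w y b i % p
      rw [← hum, he, h3]
    have h5 : pos w y b i + m ≡ pos w y b i + 0 [MOD p] := by simpa using h4
    have h6 := Nat.ModEq.add_left_cancel' _ h5
    exact hm2 p h2 hp ((Nat.modEq_zero_iff_dvd).1 h6)
  · rcases le_or_gt p Y with h3 | h3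
    · refine hu2 p ?_ he
      unfold PI
      rw [mem_filter, mem_Ioc]
      exact ⟨⟨h2, h3⟩, hp⟩
    · refine h1 p ?_ he
      unfold PI
      rw [mem_filter, mem_Ioc]
      exact ⟨⟨h3, by omega⟩, hp⟩

open Classical in
include hz hb hwY hYZ hX hi0 hi1 hy in
/-- **Counting the gaps.** -/
theorem blk_count (hinf : (R z b).Infinite) (c : ℝ) (hc : 0 < c) (hcy : c * l1 X ^ 2 ≤ y) :
    ((Ico i0 (2 * i0)).filter (fun i => Blk w y Y (z (X / 4)) (z X) b i)).card ≤ NN z b c X + 1 := by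
  set S := (Ico i0 (2 * i0)).filter (fun i => Blk w y Y (z (X / 4)) (z X) b i) with hS
  rcases S.eq_empty_or_nonempty with h0 | h0
  · rw [h0]
    simp
  set i1 := S.min' h0 with hi1'
  have hSI : ∀ i ∈ S, i ∈ Ico i0 (2 * i0) ∧ Blk w y Y (z (X / 4)) (z X) b i := fun i hi => mem_filter.1 hi
  set cn : ℕ → ℕ := fun i => Nat.count (fun k => k ∈ R z b) (pos w y b i + 1) with hcn
  -- strictly increasing
  have hmono : ∀ i ∈ S, ∀ j, i < j → cn i < cn j := by
    intro i hi j hij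
    obtain ⟨u, huR, hu1, hu2⟩ := blk_next z b hz hb w y Y X i0 hX hy hi0 hi1 i (hSI i hi).1 (hSI i hi).2
    have h1 := pos_lt w y hy b i j hij
    calc cn i ≤ Nat.count (fun k => k ∈ R z b) u := Nat.count_monotone _ (by omega)
      _ < cn j := Nat.count_strict_mono huR (by omega)
  have hcard : (S.erase i1).card + 1 = S.card := card_erase_add_one (S.min'_mem h0)
  have hle : (S.erase i1).card ≤ NN z b c X := by
    have hinj : Set.InjOn (fun i => cn i - 1) (S.erase i1 : Finset ℕ) := by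
      intro i hi j hj hij
      have hi' := mem_erase.1 (mem_coe.1 hi)
      have hj' := mem_erase.1 (mem_coe.1 hj)
      have h1 : i1 < i := lt_of_le_of_ne (S.min'_le i hi'.2) (Ne.symm hi'.1)
      have h2 : i1 < j := lt_of_le_of_ne (S.min'_le j hj'.2) (Ne.symm hj'.1)
      have h3 := hmono i1 (S.min'_mem h0) i h1
      have h4 := hmono i1 (S.min'_mem h0) j h2
      simp only at hij
      by_contra hne
      rcases lt_or_gt_of_ne hne with h5 | h5
      · have := hmono i hi'.2 j h5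
        omega
      · have := hmono j hj'.2 i h5
        omega
    rw [← card_image_of_injOn hinj]
    unfold NN
    rw [← Set.ncard_coe_finset]
    refine Set.ncard_le_ncard ?_ (NN_fin z b hinf c X)
    intro k hk
    rw [coe_image] at hk
    obtain ⟨i, hi, rfl⟩ := hk
    have hi' := mem_erase.1 (mem_coe.1 hi)
    have h1 : i1 < i := lt_of_le_of_ne (S.min'_le i hi'.2) (Ne.symm hi'.1)
    have h3 := hmono i1 (S.min'_mem h0) i h1
    simp only
    have hI := hSI i hi'.2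
    have hp2 := pos_le w y i0 X hy hi1 b i (mem_Ico.1 hI.1).2
    have e1 : cn i - 1 + 1 = cn i := by omega
    have h4 : pr z b (cn i - 1) < pos w y b i + 1 := by
      unfold pr
      refine Nat.nth_lt_of_lt_count ?_
      show cn i - 1 < cn i
      omega
    have h5 : pos w y b i + 1 ≤ pr z b (cn i) :=
      Nat.le_nth_count (p := fun k => k ∈ R z b) hinf (pos w y b i + 1)
    have h6 : pr z b (cn i) ∈ R z b := Nat.nth_mem_of_infinite hinf _
    have h7 : pos w y b i + y < pr z b (cn i) := by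
      by_contra hcon
      push Not at hcon
      exact blk_empty z b hz hb w y Y X i0 hwY hYZ hi0 i hI.1 hI.2 _ (by omega) hcon h6
    refine ⟨?_, by omega⟩
    unfold gp
    rw [e1]
    have h8 : (pr z b (cn i - 1) : ℝ) ≤ pos w y b i := by exact_mod_cast (by omega : pr z b (cn i - 1) ≤ pos w y b i)
    have h9 : (pos w y b i : ℝ) + y + 1 ≤ pr z b (cn i) := by exact_mod_cast h7
    have h10 : 3 ≤ pr z b (cn i - 1) := (Nat.nth_mem_of_infinite hinf (cn i - 1) : pr z b (cn i - 1) ∈ R z b).1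
    have h11 : Real.log (pr z b (cn i - 1)) ≤ l1 X := by
      unfold l1
      refine Real.log_le_log ?_ ?_
      · exact_mod_cast (by omega : 0 < pr z b (cn i - 1))
      · exact_mod_cast (by omega : pr z b (cn i - 1) ≤ X)
    have h12 : 0 ≤ Real.log (pr z b (cn i - 1)) := Real.log_natCast_nonneg _
    have h13 : c * Real.log (pr z b (cn i - 1)) ^ 2 ≤ c * l1 X ^ 2 := by gcongr
    linarith
  omega

end blocks

theorem ae_lt {Ω : Type*} [MeasurableSpace Ω] {P : Measure Ω} {a : ℕ → Ω → ℕ} (h : Model P a) :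
    ∀ᵐ ω ∂P, ∀ p, p.Prime → a p ω < p := by
  have := prob h
  rw [ae_all_iff]
  intro p
  by_cases hp : p.Prime
  · have hm : ∀ r, MeasurableSet {ω | a p ω = r} := fun r => h.measurable p (measurableSet_singleton r)
    have h1 := split_class h p hp Set.univ MeasurableSet.univ
    have h2 : MeasurableSet {ω | a p ω < p} := h.measurable p (measurableSet_Iio)
    have h3 : P.real {ω | a p ω < p} = 1 := by
      have e : {ω | a p ω < p} = ⋃ r ∈ range p, {ω | a p ω = r} := by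
        ext ω
        simp
      rw [e, measureReal_biUnion_finset ?_ (fun r _ => hm r)]
      · simp only [Set.inter_univ] at h1
        rw [← h1]
        simp
      · intro r _ r' _ hne
        rw [Function.onFun, Set.disjoint_left]
        intro ω h1 h2
        exact hne ((show a p ω = r from h1).symm.trans h2)
    have h4 : P {ω | a p ω < p}ᶜ = 0 := by
      have : P.real {ω | a p ω < p}ᶜ = 0 := by rw [probReal_compl_eq_one_sub h2, h3, sub_self]
      rwa [measureReal_eq_zero_iff] at this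
    have h5 : ∀ᵐ ω ∂P, a p ω < p := by
      rw [ae_iff]
      exact h4
    filter_upwards [h5] with ω hω _
    exact hω
  · exact Eventually.of_forall fun ω hp' => absurd hp' hp

/-- the sparse scales -/
noncomputable def Xj (j : ℕ) : ℕ := ⌈Real.exp ((j : ℝ) ^ 3)⌉₊

theorem Xj_atTop : Tendsto Xj atTop atTop := by
  have h1 : Tendsto (fun j : ℕ => (j : ℝ) ^ 3) atTop atTop :=
    (tendsto_pow_atTop (by norm_num)).comp tendsto_natCast_atTop_atTop
  exact tendsto_nat_ceil_atTop.comp (Real.tendsto_exp_atTop.comp h1)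

theorem Xj_lower (j : ℕ) : (j : ℝ) ^ 3 ≤ l1 (Xj j) := by
  unfold l1 Xj
  have h1 := Nat.le_ceil (Real.exp ((j : ℝ) ^ 3))
  have h2 := Real.log_le_log (Real.exp_pos _) h1
  rwa [Real.log_exp] at h2

theorem Xj_upper (j : ℕ) : l1 (Xj j) ≤ (j : ℝ) ^ 3 + 1 := by
  unfold l1 Xj
  have h0 : 1 ≤ Real.exp ((j : ℝ) ^ 3) := Real.one_le_exp (by positivity)
  have h1 := (Nat.ceil_lt_add_one (Real.exp_pos ((j : ℝ) ^ 3)).le).le
  have h2 : (⌈Real.exp ((j : ℝ) ^ 3)⌉₊ : ℝ) ≤ Real.exp ((j : ℝ) ^ 3 + 1) := by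
    rw [Real.exp_add]
    have h3 : 2 ≤ Real.exp 1 := by
      have := Real.add_one_le_exp 1
      linarith
    nlinarith
  have h3 : (0 : ℝ) < ⌈Real.exp ((j : ℝ) ^ 3)⌉₊ := by
    have := Nat.le_ceil (Real.exp ((j : ℝ) ^ 3))
    linarith
  have h4 := Real.log_le_log h3 h2
  rwa [Real.log_exp] at h4

theorem Xj_mono : Monotone Xj := by
  intro i j hij
  unfold Xj
  apply Nat.ceil_mono
  apply Real.exp_le_exp.2
  have : (i : ℝ) ≤ j := by exact_mod_cast hij
  gcongr

variable {Ω : Type*} [MeasurableSpace Ω] {P : Measure Ω} {a : ℕ → Ω → ℕ}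

open Classical in
/-- almost surely there are many blocks at the sparse scales -/
theorem ae_scales (h : Model P a) (c : ℝ) (hc : 0 < c) (z : ℕ → ℕ) (hz : Monotone z)
    (hzV : Tendsto (fun n => V (z n) * Real.log n) atTop (𝓝 1)) (θ : ℝ) (hθ0 : 0 < θ)
    (hθ : θ < 1 - c / (2 * eg)) :
    ∀ᵐ ω ∂P, ∀ᶠ j : ℕ in atTop, (Xj j : ℝ) ^ θ ≤
      (((Ico (i0f c (Xj j)) (2 * i0f c (Xj j))).filter (fun i =>
        Blk (ww (Xj j)) (yy c (Xj j)) (Yf c (Xj j)) (z (Xj j / 4)) (z (Xj j)) (fun p => a p ω) i)).card : ℝ) := by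
  have := prob h
  have heg := eg_pos
  have hA : 0 < c / (2 * eg) := by positivity
  set ε := (1 - θ - c / (2 * eg)) / (2 * (c / (2 * eg))) with hε
  have hε0 : 0 < ε := by
    rw [hε]
    have : 0 < 1 - θ - c / (2 * eg) := by linarith
    positivity
  have hεA : (1 + ε) * (c / (2 * eg)) < 1 - θ := by
    have e : (1 + ε) * (c / (2 * eg)) = c / (2 * eg) + (1 - θ - c / (2 * eg)) / 2 := by
      rw [hε]
      field_simp
    rw [e]
    linarith
  have h1 := Xj_atTop.eventually (scale_ev c hc ε hε0 z hz hzV h θ hθ0 hεA)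
  obtain ⟨J, hJ⟩ := eventually_atTop.1 h1
  set B : ℕ → Set Ω := fun j => {ω | (((Ico (i0f c (Xj j)) (2 * i0f c (Xj j))).filter (fun i =>
        Blk (ww (Xj j)) (yy c (Xj j)) (Yf c (Xj j)) (z (Xj j / 4)) (z (Xj j)) (fun p => a p ω) i)).card : ℝ) <
          (Xj j : ℝ) ^ θ} with hB
  have hsum : ∑' j : ℕ, P (B (j + (J + 1))) ≠ ∞ := by
    have hb : ∀ j : ℕ, P (B (j + (J + 1))) ≤ ENNReal.ofReal (1 / ((j + 1 : ℕ) : ℝ) ^ (3 / 2 : ℝ)) := by
      intro j
      have h2 := hJ (j + (J + 1)) (by omega)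
      have h3 : P.real (B (j + (J + 1))) ≤ 1 / ((j + 1 : ℕ) : ℝ) ^ (3 / 2 : ℝ) := by
        refine h2.trans ?_
        have h4 := Xj_lower (j + (J + 1))
        have h5 : (0 : ℝ) < ((j + 1 : ℕ) : ℝ) := by positivity
        have h6 : ((j + 1 : ℕ) : ℝ) ^ 3 ≤ l1 (Xj (j + (J + 1))) := by
          refine le_trans ?_ h4
          have : ((j + 1 : ℕ) : ℝ) ≤ ((j + (J + 1) : ℕ) : ℝ) := by exact_mod_cast (by omega)
          gcongr
        have h7 : l1 (Xj (j + (J + 1))) ^ (-(1 / 2) : ℝ) ≤ (((j + 1 : ℕ) : ℝ) ^ 3) ^ (-(1 / 2) : ℝ) :=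
          Real.rpow_le_rpow_of_nonpos (by positivity) h6 (by norm_num)
        refine h7.trans (le_of_eq ?_)
        have e : 1 / ((j + 1 : ℕ) : ℝ) ^ (3 / 2 : ℝ) = ((j + 1 : ℕ) : ℝ) ^ (-(3 / 2) : ℝ) := by
          rw [Real.rpow_neg h5.le]
          exact one_div _
        rw [e, ← Real.rpow_natCast ((j + 1 : ℕ) : ℝ) 3, ← Real.rpow_mul h5.le]
        norm_num
      rw [← ENNReal.ofReal_toReal (measure_ne_top P _)]
      exact ENNReal.ofReal_le_ofReal h3
    refine ne_top_of_le_ne_top ?_ (ENNReal.tsum_le_tsum hb)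
    have hs : Summable (fun j : ℕ => 1 / ((j + 1 : ℕ) : ℝ) ^ (3 / 2 : ℝ)) :=
      (summable_nat_add_iff 1).2 (Real.summable_one_div_nat_rpow.2 (by norm_num))
    exact hs.tsum_ofReal_ne_top
  have h2 := ae_eventually_notMem hsum
  filter_upwards [h2] with ω hω
  obtain ⟨N, hN⟩ := eventually_atTop.1 hω
  refine eventually_atTop.2 ⟨N + (J + 1), fun j hj => ?_⟩
  have h3 := hN (j - (J + 1)) (by omega)
  rw [Nat.sub_add_cancel (by omega)] at h3
  exact not_lt.1 h3

open Classical in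
theorem main_fixed (h : Model P a) (c : ℝ) (hc : 0 < c) (z : ℕ → ℕ) (hz : Monotone z)
    (hzV : Tendsto (fun n => V (z n) * Real.log n) atTop (𝓝 1)) (θ : ℝ) (hθ0 : 0 < θ)
    (hθ : θ < 1 - c / (2 * eg)) :
    ∀ᵐ ω ∂P, (R z (fun p => a p ω)).Infinite ∧
      ∀ᶠ X : ℕ in atTop, (X : ℝ) ^ θ ≤ NN z (fun p => a p ω) c X := by
  -- a slightly larger exponent
  set θ' := (θ + (1 - c / (2 * eg))) / 2 with hθ'
  have hθθ' : θ < θ' := by rw [hθ']; linarith
  have hθ'1 : θ' < 1 - c / (2 * eg) := by rw [hθ']; linarith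
  filter_upwards [ae_scales h c hc z hz hzV θ' (by linarith) hθ'1, ae_lt h] with ω hω hlt
  -- deterministic facts at large scales
  have hdet : ∀ᶠ X in atTop, ww X ≤ Yf c X ∧ Yf c X ≤ z (X / 4) ∧ 16 ≤ X ∧ 1 ≤ yy c X ∧
      X / 4 ≤ primorial (ww X) * (4 * yy c X) * i0f c X := by
    filter_upwards [ww_lt_yy c hc, Y_le_Z c hc z hzV, eventually_ge_atTop 16, yy_large c hc 1, i0_lower c hc]
      with X h1 h2 h3 h4 h5
    refine ⟨?_, h2, h3, h4, ?_⟩
    · unfold Yf
      calc ww X ≤ yy c X := h1.le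
        _ = yy c X ^ 1 := (pow_one _).symm
        _ ≤ yy c X ^ 6 := Nat.pow_le_pow_right (by omega) (by norm_num)
    · have h6 : X < 2 * Qf c X * (i0f c X + 1) := by
        unfold i0f
        have hQ : 0 < Qf c X := by
          unfold Qf
          have := primorial_pos (ww X)
          positivity
        exact Nat.lt_mul_div_succ X (by omega)
      have h7 : Qf c X ≤ X / 4 := h5.2.2
      have e : primorial (ww X) * (4 * yy c X) * i0f c X = Qf c X * i0f c X := rfl
      rw [e]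
      have h8 : X < 2 * (Qf c X * i0f c X) + 2 * Qf c X := by
        calc X < 2 * Qf c X * (i0f c X + 1) := h6
          _ = _ := by ring
      omega
  have hdet' := Xj_atTop.eventually hdet
  have hpow : Tendsto (fun j => (Xj j : ℝ) ^ θ') atTop atTop :=
    (tendsto_rpow_atTop (by linarith)).comp (tendsto_natCast_atTop_atTop.comp Xj_atTop)
  -- infinitude
  have hinf : (R z (fun p => a p ω)).Infinite := by
    rw [Set.infinite_iff_exists_gt]
    intro N
    obtain ⟨j, h1, ⟨h2, h3, h4, h5, h6⟩, h7, h8⟩ := (hω.and (hdet'.and ((hpow.eventually_gt_atTop 0).and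
      (Xj_atTop.eventually_ge_atTop (4 * N + 4))))).exists
    have h9 : (0 : ℝ) < (((Ico (i0f c (Xj j)) (2 * i0f c (Xj j))).filter (fun i =>
        Blk (ww (Xj j)) (yy c (Xj j)) (Yf c (Xj j)) (z (Xj j / 4)) (z (Xj j)) (fun p => a p ω) i)).card : ℝ) :=
      h7.trans_le h1
    have h10 : 0 < ((Ico (i0f c (Xj j)) (2 * i0f c (Xj j))).filter (fun i =>
        Blk (ww (Xj j)) (yy c (Xj j)) (Yf c (Xj j)) (z (Xj j / 4)) (z (Xj j)) (fun p => a p ω) i)).card := by
      exact_mod_cast h9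
    obtain ⟨i, hi⟩ := card_pos.1 h10
    rw [mem_filter] at hi
    obtain ⟨u, hu, hu1, hu2⟩ := blk_next z (fun p => a p ω) hz hlt (ww (Xj j)) (yy c (Xj j)) (Yf c (Xj j)) (Xj j)
      (i0f c (Xj j)) h4 h5 h6 (i0_upper c (Xj j)) i hi.1 hi.2
    refine ⟨u, hu, ?_⟩
    have h11 : Xj j / 4 ≤ pos (ww (Xj j)) (yy c (Xj j)) (fun p => a p ω) i := by
      unfold pos
      have : primorial (ww (Xj j)) * (4 * yy c (Xj j)) * i0f c (Xj j) ≤
          primorial (ww (Xj j)) * (4 * yy c (Xj j)) * i := Nat.mul_le_mul_left _ (mem_Ico.1 hi.1).1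
      omega
    omega
  refine ⟨hinf, ?_⟩
  -- at the sparse scales
  have hsc : ∀ᶠ j in atTop, (Xj j : ℝ) ^ θ' ≤ NN z (fun p => a p ω) c (Xj j) + 1 := by
    filter_upwards [hω, hdet'] with j h1 h2
    obtain ⟨h2, h3, h4, h5, h6⟩ := h2
    have h7 := blk_count z (fun p => a p ω) hz hlt (ww (Xj j)) (yy c (Xj j)) (Yf c (Xj j)) (Xj j)
      (i0f c (Xj j)) h2 h3 h4 h5 h6 (i0_upper c (Xj j)) hinf c hc (Nat.le_ceil _)
    refine h1.trans ?_
    exact_mod_cast h7
  -- interpolation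
  have hgrow : ∀ᶠ j : ℕ in atTop, θ * ((j + 1 : ℝ) ^ 3 + 1) + Real.log 2 ≤ θ' * (j : ℝ) ^ 3 ∧
      1 ≤ θ' * (j : ℝ) ^ 3 := by
    have h1 : Tendsto (fun j : ℕ => (θ' - θ) * (j : ℝ) ^ 3 - (3 * θ * (j : ℝ) ^ 2 + 3 * θ * j + 2 * θ + 1))
        atTop atTop := by
      have e : ∀ j : ℕ, 1 ≤ j → (j : ℝ) ^ 2 * ((θ' - θ) * j - (8 * θ + 1)) ≤
          (θ' - θ) * (j : ℝ) ^ 3 - (3 * θ * (j : ℝ) ^ 2 + 3 * θ * j + 2 * θ + 1) := by
        intro j hj
        have hj1 : (1 : ℝ) ≤ j := by exact_mod_cast hj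
        have h2 : (j : ℝ) ≤ (j : ℝ) ^ 2 := by nlinarith
        have h3 : 1 ≤ (j : ℝ) ^ 2 := by nlinarith
        nlinarith [mul_le_mul_of_nonneg_left h2 hθ0.le, mul_le_mul_of_nonneg_left h3 hθ0.le]
      have h2 : Tendsto (fun j : ℕ => (j : ℝ) ^ 2 * ((θ' - θ) * j - (8 * θ + 1))) atTop atTop := by
        refine ((tendsto_pow_atTop (by norm_num)).comp tendsto_natCast_atTop_atTop).atTop_mul_atTop₀ ?_
        exact tendsto_atTop_add_const_right _ _ (tendsto_natCast_atTop_atTop.const_mul_atTop (by linarith))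
      refine tendsto_atTop_mono' _ ?_ h2
      filter_upwards [eventually_ge_atTop 1] with j hj
      exact e j hj
    have h3 : Tendsto (fun j : ℕ => θ' * (j : ℝ) ^ 3) atTop atTop :=
      ((tendsto_pow_atTop (by norm_num)).comp tendsto_natCast_atTop_atTop).const_mul_atTop (by linarith)
    filter_upwards [h1.eventually_ge_atTop 0, h3.eventually_ge_atTop 1] with j h4 h5
    refine ⟨?_, h5⟩
    have h6 := Real.log_two_lt_d9
    nlinarith
  obtain ⟨J, hJ⟩ := eventually_atTop.1 (hsc.and hgrow)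
  refine eventually_atTop.2 ⟨Xj J + 1, fun X hX => ?_⟩
  -- the scale below `X`
  obtain ⟨k, hk⟩ := (Xj_atTop.eventually_gt_atTop X).exists
  have hne : ∃ k, X < Xj k := ⟨k, hk⟩
  have hs := Nat.find_spec hne
  set j1 := Nat.find hne with hj1
  have hJ1 : J < j1 := by
    by_contra hcon
    push Not at hcon
    have := Xj_mono hcon
    omega
  have hlow : Xj (j1 - 1) ≤ X := by
    have := Nat.find_min hne (m := j1 - 1) (by omega)
    omega
  obtain ⟨h1, h2, h3⟩ := hJ (j1 - 1) (by omega)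
  have hX0 : (0 : ℝ) < X := by exact_mod_cast (by omega : 0 < X)
  have hXj0 : (0 : ℝ) < Xj (j1 - 1) := by
    have : 0 < Xj (j1 - 1) := by
      unfold Xj
      exact Nat.ceil_pos.2 (Real.exp_pos _)
    exact_mod_cast this
  have h4 : NN z (fun p => a p ω) c (Xj (j1 - 1)) ≤ NN z (fun p => a p ω) c X :=
    NN_mono z _ hinf c c le_rfl _ _ hlow
  have h5 : 2 * (X : ℝ) ^ θ ≤ (Xj (j1 - 1) : ℝ) ^ θ' := by
    have h6 : Real.log X ≤ ((j1 - 1 : ℕ) + 1 : ℝ) ^ 3 + 1 := by
      have h7 := Xj_upper j1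
      have h8 : Real.log X ≤ l1 (Xj j1) := by
        unfold l1
        exact Real.log_le_log hX0 (by exact_mod_cast hs.le)
      have e : ((j1 - 1 : ℕ) + 1 : ℝ) = j1 := by
        have : j1 - 1 + 1 = j1 := by omega
        exact_mod_cast this
      rw [e]
      linarith
    have h9 := Xj_lower (j1 - 1)
    rw [Real.rpow_def_of_pos hX0, Real.rpow_def_of_pos hXj0]
    have e2 : (2 : ℝ) = Real.exp (Real.log 2) := (Real.exp_log (by norm_num)).symm
    calc 2 * Real.exp (Real.log X * θ) = Real.exp (Real.log 2 + Real.log X * θ) := by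
          rw [Real.exp_add, ← e2]
      _ ≤ Real.exp (Real.log (Xj (j1 - 1)) * θ') := by
          apply Real.exp_le_exp.2
          have h10 : Real.log X * θ ≤ (((j1 - 1 : ℕ) + 1 : ℝ) ^ 3 + 1) * θ := by gcongr
          have h11 : ((j1 - 1 : ℕ) : ℝ) ^ 3 * θ' ≤ Real.log (Xj (j1 - 1)) * θ' := by
            have : 0 ≤ θ' := by linarith
            exact mul_le_mul_of_nonneg_right h9 this
          linarith
  have h6 : (1 : ℝ) ≤ (X : ℝ) ^ θ := Real.one_le_rpow (by exact_mod_cast (by omega : 1 ≤ X)) hθ0.le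
  have h7 : (NN z (fun p => a p ω) c (Xj (j1 - 1)) : ℝ) ≤ NN z (fun p => a p ω) c X := by exact_mod_cast h4
  linarith

end Pool.Agent.T2H32.BF
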