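import Pool.Agent.T2H32.BF.Occ

set_option autoImplicit false

/-! # Random residue classes and the probability that all elements of a finite set are sieved out -/

open Finset MeasureTheory ProbabilityTheory
open scoped ENNReal

namespace Pool.Agent.T2H32.BF

/-- independent uniform residue classes -/
structure Model {Ω : Type*} [MeasurableSpace Ω] (P : Measure Ω) (a : ℕ → Ω → ℕ) : Prop where
  measurable : ∀ p, Measurable (a p)
  independent : iIndepFun a P
  uniform : ∀ p, p.Prime → ∀ r < p, P.real {ω | a p ω = r} = 1 / p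

variable {Ω : Type*} [MeasurableSpace Ω] {P : Measure Ω} {a : ℕ → Ω → ℕ}

/-- every element of `U` is in the random class modulo some `p ∈ L` -/
def Kill (a : ℕ → Ω → ℕ) (U L : Finset ℕ) : Set Ω := {ω | ∀ u ∈ U, ∃ p ∈ L, u % p = a p ω}

omit [MeasurableSpace Ω] in
theorem Kill_mono (a : ℕ → Ω → ℕ) (U L L' : Finset ℕ) (h : L ⊆ L') : Kill a U L ⊆ Kill a U L' := by
  intro ω hω u hu
  obtain ⟨p, hp, h1⟩ := hω u hu
  exact ⟨p, h hp, h1⟩

omit [MeasurableSpace Ω] in
theorem Kill_union (a : ℕ → Ω → ℕ) (U U' L : Finset ℕ) : Kill a U L ∩ Kill a U' L = Kill a (U ∪ U') L := by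
  ext ω
  simp only [Kill, Set.mem_inter_iff, Set.mem_ofPred_eq, mem_union]
  constructor
  · rintro ⟨h1, h2⟩ u (hu | hu)
    · exact h1 u hu
    · exact h2 u hu
  · intro h
    exact ⟨fun u hu => h u (Or.inl hu), fun u hu => h u (Or.inr hu)⟩

/-- the σ-algebra of the classes modulo the elements of `L` -/
@[instance_reducible]
def sg (a : ℕ → Ω → ℕ) (L : Set ℕ) : MeasurableSpace Ω := ⨆ i ∈ L, MeasurableSpace.comap (a i) ⊤

theorem sg_le (h : Model P a) (L : Set ℕ) : sg a L ≤ (inferInstance : MeasurableSpace Ω) := by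
  refine iSup₂_le fun i _ => ?_
  exact (h.measurable i).comap_le

omit [MeasurableSpace Ω] in
theorem sg_meas (a : ℕ → Ω → ℕ) (L : Set ℕ) (p : ℕ) (hp : p ∈ L) (R : Set ℕ) :
    @MeasurableSet _ (sg a L) {ω | a p ω ∈ R} := by
  have h1 : MeasurableSpace.comap (a p) ⊤ ≤ sg a L := le_iSup₂_of_le p hp le_rfl
  exact h1 _ ⟨R, trivial, rfl⟩

theorem Kill_sg (a : ℕ → Ω → ℕ) (U L : Finset ℕ) : @MeasurableSet _ (sg a L) (Kill a U L) := by
  have e : Kill a U L = ⋂ u ∈ U, ⋃ p ∈ L, {ω | a p ω ∈ ({u % p} : Set ℕ)} := by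
    ext ω
    simp only [Kill, Set.mem_ofPred_eq, Set.mem_iInter, Set.mem_iUnion, Set.mem_singleton_iff, exists_prop]
    constructor
    · intro h u hu
      obtain ⟨p, hp, h1⟩ := h u hu
      exact ⟨p, hp, h1.symm⟩
    · intro h u hu
      obtain ⟨p, hp, h1⟩ := h u hu
      exact ⟨p, hp, h1.symm⟩
  rw [e]
  refine @Finset.measurableSet_biInter _ _ (sg a L) _ _ fun u _ => ?_
  refine @Finset.measurableSet_biUnion _ _ (sg a L) _ _ fun p hp => ?_
  exact sg_meas a L p (by exact_mod_cast hp) _

theorem Kill_meas (h : Model P a) (U L : Finset ℕ) : MeasurableSet (Kill a U L) :=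
  sg_le h L _ (Kill_sg a U L)

theorem indep_sg (h : Model P a) (L L' : Set ℕ) (hd : Disjoint L L') (A B : Set Ω)
    (hA : @MeasurableSet _ (sg a L) A) (hB : @MeasurableSet _ (sg a L') B) :
    P (A ∩ B) = P A * P B := by
  have h1 := indep_iSup_of_disjoint (m := fun i => MeasurableSpace.comap (a i) ⊤)
    (fun i => (h.measurable i).comap_le) h.independent.iIndep hd
  exact (Indep_iff _ _ _).1 h1 A B hA hB

theorem prob (h : Model P a) : IsProbabilityMeasure P := h.independent.isProbabilityMeasure

theorem split_class (h : Model P a) (p : ℕ) (hp : p.Prime) (A : Set Ω) (hA : MeasurableSet A) :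
    P.real A = ∑ r ∈ range p, P.real ({ω | a p ω = r} ∩ A) := by
  have := prob h
  have hm : ∀ r, MeasurableSet {ω | a p ω = r} := fun r => h.measurable p (measurableSet_singleton r)
  have hdisj : (↑(range p) : Set ℕ).PairwiseDisjoint (fun r => {ω | a p ω = r}) := by
    intro r _ r' _ hne
    rw [Function.onFun, Set.disjoint_left]
    intro ω h1 h2
    exact hne ((show a p ω = r from h1).symm.trans h2)
  set B := ⋃ r ∈ range p, {ω | a p ω = r} with hB
  have hBm : MeasurableSet B := Finset.measurableSet_biUnion _ fun r _ => hm r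
  have hB1 : P.real B = 1 := by
    rw [hB, measureReal_biUnion_finset hdisj (fun r _ => hm r)]
    rw [sum_congr rfl fun r hr => h.uniform p hp r (mem_range.1 hr)]
    simp only [sum_const, card_range, nsmul_eq_mul]
    have : (p : ℝ) ≠ 0 := by exact_mod_cast hp.ne_zero
    field_simp
  have hBc : P.real Bᶜ = 0 := by rw [probReal_compl_eq_one_sub hBm, hB1, sub_self]
  have h2 : P.real A = P.real (B ∩ A) := by
    have h3 : P.real (A ∩ B) + P.real (A \ B) = P.real A := measureReal_inter_add_sdiff hBm
    have h4 : P.real (A \ B) ≤ P.real Bᶜ := measureReal_mono (fun ω hω => hω.2)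
    have h5 : 0 ≤ P.real (A \ B) := measureReal_nonneg
    rw [Set.inter_comm B A]
    linarith
  rw [h2, hB, Set.iUnion₂_inter, measureReal_biUnion_finset]
  · intro r hr r' hr' hne
    exact (hdisj hr hr' hne).mono Set.inter_subset_left Set.inter_subset_left
  · intro r _
    exact (hm r).inter hA

/-- **Recursion.** -/
theorem Kill_insert (h : Model P a) (U L : Finset ℕ) (p : ℕ) (hp : p.Prime) (hpL : p ∉ L) :
    P.real (Kill a U (insert p L)) =
      (1 / p) * ∑ r ∈ range p, P.real (Kill a (U.filter (fun u => u % p ≠ r)) L) := by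
  have := prob h
  rw [split_class h p hp _ (Kill_meas h _ _), mul_sum]
  refine sum_congr rfl fun r hr => ?_
  have e : {ω | a p ω = r} ∩ Kill a U (insert p L) =
      {ω | a p ω ∈ ({r} : Set ℕ)} ∩ Kill a (U.filter (fun u => u % p ≠ r)) L := by
    ext ω
    simp only [Set.mem_inter_iff, Kill, Set.mem_ofPred_eq, mem_insert, Set.mem_singleton_iff, mem_filter]
    constructor
    · rintro ⟨h1, h2⟩
      refine ⟨h1, fun u hu => ?_⟩
      obtain ⟨q, hq | hq, h3⟩ := h2 u hu.1
      · subst hq
        exact absurd (h3.trans h1) hu.2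
      · exact ⟨q, hq, h3⟩
    · rintro ⟨h1, h2⟩
      refine ⟨h1, fun u hu => ?_⟩
      by_cases h3 : u % p = r
      · exact ⟨p, Or.inl rfl, h3.trans h1.symm⟩
      · obtain ⟨q, hq, h4⟩ := h2 u ⟨hu, h3⟩
        exact ⟨q, Or.inr hq, h4⟩
  rw [e, measureReal_def, indep_sg h {p} L (by
      rw [Set.disjoint_singleton_left]
      exact_mod_cast hpL) _ _ (sg_meas a {p} p rfl _) (Kill_sg a _ L), ENNReal.toReal_mul]
  have h1 : (P {ω | a p ω ∈ ({r} : Set ℕ)}).toReal = 1 / p := by
    have := h.uniform p hp r (mem_range.1 hr)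
    rw [measureReal_def] at this
    exact this
  rw [h1, measureReal_def]

theorem Kill_empty (h : Model P a) (U : Finset ℕ) : P.real (Kill a U ∅) = if U.card = 0 then 1 else 0 := by
  have := prob h
  rcases U.eq_empty_or_nonempty with h1 | h1
  · subst h1
    have : Kill a (∅ : Finset ℕ) ∅ = Set.univ := by
      ext ω
      simp [Kill]
    rw [this]
    simp
  · have e : Kill a U ∅ = ∅ := by
      ext ω
      simp only [Kill, Set.mem_ofPred_eq, Set.mem_empty_iff_false, iff_false, not_forall]
      obtain ⟨u, hu⟩ := h1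
      exact ⟨u, hu, by simp⟩
    rw [e, if_neg (by rw [card_eq_zero]; exact h1.ne_empty)]
    simp

theorem Kill_congr_card (h : Model P a) (pr : ℕ → ℕ) (n : ℕ) (hpr : ∀ k < n, (pr k).Prime)
    (hinj : ∀ i < n, ∀ j < n, pr i = pr j → i = j) :
    ∀ U : Finset ℕ, (∀ k < n, Set.InjOn (fun u => u % pr k) U) →
      P.real (Kill a U ((range n).image pr)) = F (fun k => 1 / (pr k : ℝ)) n U.card := by
  induction n with
  | zero =>
    intro U _
    simp only [range_zero, image_empty, F]
    exact Kill_empty h U
  | succ n ih =>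
    intro U hU
    have hnot : pr n ∉ (range n).image pr := by
      simp only [mem_image, mem_range, not_exists, not_and]
      intro k hk he
      have := hinj k (by omega) n (by omega) he
      omega
    have e : (range (n + 1)).image pr = insert (pr n) ((range n).image pr) := by
      rw [range_add_one, image_insert]
    have ih' := ih (fun k hk => hpr k (by omega)) (fun i hi j hj => hinj i (by omega) j (by omega))
    rw [e, Kill_insert h U _ (pr n) (hpr n (by omega)) hnot]
    set p := pr n with hp
    have hpp : p.Prime := hpr n (by omega)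
    have hp0 : (0 : ℝ) < p := by exact_mod_cast hpp.pos
    have h1 : ∀ r ∈ range p, P.real (Kill a (U.filter (fun u => u % p ≠ r)) ((range n).image pr)) =
        F (fun k => 1 / (pr k : ℝ)) n (U.filter (fun u => u % p ≠ r)).card := by
      intro r _
      exact ih' _ fun k hk => (hU k (by omega)).mono (by
        intro u hu
        rw [mem_coe, mem_filter] at hu
        exact_mod_cast hu.1)
    rw [sum_congr rfl h1]
    set I := U.image (fun u => u % p) with hI
    have hIcard : I.card = U.card := card_image_of_injOn (hU n (by omega))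
    have hIsub : I ⊆ range p := by
      intro r hr
      rw [hI, mem_image] at hr
      obtain ⟨u, _, rfl⟩ := hr
      exact mem_range.2 (Nat.mod_lt _ hpp.pos)
    have h2 : ∀ r ∈ range p, F (fun k => 1 / (pr k : ℝ)) n (U.filter (fun u => u % p ≠ r)).card =
        if r ∈ I then F (fun k => 1 / (pr k : ℝ)) n (U.card - 1) else F (fun k => 1 / (pr k : ℝ)) n U.card := by
      intro r _
      split_ifs with hr
      · rw [hI, mem_image] at hr
        obtain ⟨u, hu, hur⟩ := hr
        have : U.filter (fun u => u % p ≠ r) = U.erase u := by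
          ext x
          simp only [mem_filter, mem_erase]
          constructor
          · rintro ⟨hx, hne⟩
            refine ⟨?_, hx⟩
            rintro rfl
            exact hne hur
          · rintro ⟨hne, hx⟩
            refine ⟨hx, fun he => hne ?_⟩
            exact hU n (by omega) (by exact_mod_cast hx) (by exact_mod_cast hu) (he.trans hur.symm)
        rw [this, card_erase_of_mem hu]
      · congr 2
        refine filter_true_of_mem fun u hu he => hr ?_
        rw [hI, mem_image]
        exact ⟨u, hu, he⟩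
    rw [sum_congr rfl h2, ← sum_filter_add_sum_filter_not (range p) (fun r => r ∈ I)]
    rw [sum_congr rfl (fun r hr => if_pos (mem_filter.1 hr).2),
      sum_congr rfl (fun r hr => if_neg (mem_filter.1 hr).2)]
    have e1 : (range p).filter (fun r => r ∈ I) = I := by
      ext r
      rw [mem_filter]
      exact ⟨fun h => h.2, fun h => ⟨hIsub h, h⟩⟩
    have e2 : ((range p).filter (fun r => ¬ r ∈ I)).card = p - U.card := by
      have h3 := card_filter_add_card_filter_not (s := range p) (fun r => r ∈ I)
      rw [e1, card_range, hIcard] at h3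
      omega
    have hle : U.card ≤ p := by
      rw [← hIcard, ← card_range p]
      exact card_le_card hIsub
    rw [e1, sum_const, sum_const, e2, hIcard, nsmul_eq_mul, nsmul_eq_mul, Nat.cast_sub hle]
    simp only [F]
    rw [← hp]
    field_simp
    ring

/-- enumeration of a finite set -/
theorem exists_enum (L : Finset ℕ) : ∃ pr : ℕ → ℕ, (∀ i < L.card, ∀ j < L.card, pr i = pr j → i = j) ∧
    (∀ k < L.card, pr k ∈ L) ∧ (range L.card).image pr = L := by
  classical
  set e := L.equivFin with he
  refine ⟨fun k => if h : k < L.card then ((e.symm ⟨k, h⟩ : L) : ℕ) else 0, ?_, ?_, ?_⟩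
  · intro i hi j hj hij
    simp only [dif_pos hi, dif_pos hj] at hij
    have := e.symm.injective (Subtype.ext hij)
    simpa using this
  · intro k hk
    simp only [dif_pos hk]
    exact (e.symm ⟨k, hk⟩).2
  · ext x
    simp only [mem_image, mem_range]
    constructor
    · rintro ⟨k, hk, rfl⟩
      rw [dif_pos hk]
      exact (e.symm ⟨k, hk⟩).2
    · intro hx
      refine ⟨(e ⟨x, hx⟩ : ℕ), (e ⟨x, hx⟩).2, ?_⟩
      rw [dif_pos (e ⟨x, hx⟩).2]
      simp

/-- upper bound when all elements are distinct modulo all primes -/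
theorem Kill_upper (h : Model P a) (U L : Finset ℕ) (hL : ∀ p ∈ L, p.Prime)
    (hU : ∀ p ∈ L, Set.InjOn (fun u => u % p) U) :
    P.real (Kill a U L) ≤ (1 - ∏ p ∈ L, (1 - 1 / (p : ℝ))) ^ U.card := by
  obtain ⟨pr, h1, h2, h3⟩ := exists_enum L
  have h4 := Kill_congr_card h pr L.card (fun k hk => hL _ (h2 k hk)) h1 U (fun k hk => hU _ (h2 k hk))
  rw [h3] at h4
  rw [h4]
  have hcard : ∀ p ∈ L, U.card ≤ p := by
    intro p hp
    have h5 : (U.image (fun u => u % p)).card = U.card := card_image_of_injOn (hU p hp)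
    rw [← h5]
    conv_rhs => rw [← card_range p]
    refine card_le_card fun r hr => ?_
    rw [mem_image] at hr
    obtain ⟨u, _, rfl⟩ := hr
    exact mem_range.2 (Nat.mod_lt _ (hL p hp).pos)
  have hpos : ∀ k < L.card, (0 : ℝ) < pr k := fun k hk => by
    exact_mod_cast (hL _ (h2 k hk)).pos
  have h5 := F_upper (fun k => 1 / (pr k : ℝ)) U.card L.card (fun k hk => by have := hpos k hk; positivity)
    (fun k hk => by
      have h6 := hpos k hk
      rw [mul_one_div, div_le_one h6]
      exact_mod_cast hcard _ (h2 k hk))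
    (fun k hk => by
      have h6 : (1 : ℝ) ≤ pr k := by exact_mod_cast (hL _ (h2 k hk)).one_le
      rw [div_le_one (hpos k hk)]
      exact h6) L.card le_rfl U.card le_rfl
  have h6 : ∏ p ∈ L, (1 - 1 / (p : ℝ)) = ∏ i ∈ range L.card, (1 - 1 / (pr i : ℝ)) := by
    conv_lhs => rw [← h3]
    rw [prod_image]
    intro i hi j hj hij
    exact h1 i (by exact_mod_cast mem_range.1 hi) j (by exact_mod_cast mem_range.1 hj) hij
  rw [h6]
  exact h5

/-- upper bound with exceptional primes -/
theorem Kill_upper_exc (h : Model P a) (U L L2 : Finset ℕ) (hL2 : ∀ p ∈ L2, p.Prime) (hd : Disjoint L L2)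
    (G : ℝ) (hG : 1 / 2 ≤ G) (hG1 : G ≤ 1)
    (hU : ∀ p ∈ L2, ∀ r, (U.filter (fun u => u % p = r)).card ≤ 2)
    (h1 : ∀ U' ⊆ U, P.real (Kill a U' L) ≤ G ^ U'.card) :
    ∀ U' ⊆ U, P.real (Kill a U' (L ∪ L2)) ≤ (∏ p ∈ L2, (1 + 4 * (U.card : ℝ) / p)) * G ^ U'.card := by
  induction L2 using Finset.induction_on with
  | empty =>
    intro U' hU'
    rw [union_empty, prod_empty, one_mul]
    exact h1 U' hU'
  | insert p L2 hp ih =>
    intro U' hU'
    have hpp : p.Prime := hL2 p (mem_insert_self _ _)
    have hp0 : (0 : ℝ) < p := by exact_mod_cast hpp.pos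
    have ih' := ih (fun q hq => hL2 q (mem_insert_of_mem hq))
      (hd.mono_right (subset_insert _ _)) (fun q hq => hU q (mem_insert_of_mem hq))
    have hpL : p ∉ L ∪ L2 := by
      rw [mem_union, not_or]
      exact ⟨fun h' => disjoint_left.1 hd h' (mem_insert_self _ _), hp⟩
    rw [union_insert, Kill_insert h U' _ p hpp hpL, prod_insert hp]
    set C := ∏ q ∈ L2, (1 + 4 * (U.card : ℝ) / q) with hC
    have hC0 : 0 ≤ C := prod_nonneg fun q _ => by positivity
    have hG0 : 0 < G := by linarith
    have h2 : ∀ r ∈ range p, P.real (Kill a (U'.filter (fun u => u % p ≠ r)) (L ∪ L2)) ≤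
        C * G ^ U'.card * (if r ∈ U'.image (fun u => u % p) then 4 else 1) := by
      intro r _
      have h3 := ih' (U'.filter (fun u => u % p ≠ r)) ((filter_subset _ _).trans hU')
      refine h3.trans ?_
      rw [mul_assoc]
      refine mul_le_mul_of_nonneg_left ?_ hC0
      split_ifs with hr
      · have h4 : U'.card ≤ (U'.filter (fun u => u % p ≠ r)).card + 2 := by
          have h5 := card_filter_add_card_filter_not (s := U') (fun u => u % p = r)
          have h6 : (U'.filter (fun u => u % p = r)).card ≤ 2 :=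
            (card_le_card (filter_subset_filter _ hU')).trans (hU p (mem_insert_self _ _) r)
          change U'.card ≤ (U'.filter (fun u => ¬ u % p = r)).card + 2
          omega
        have h5 : G ^ ((U'.filter (fun u => u % p ≠ r)).card + 2) ≤ G ^ U'.card :=
          pow_le_pow_of_le_one hG0.le hG1 h4
        rw [pow_add] at h5
        have h6 : (1 : ℝ) / 4 ≤ G ^ 2 := by nlinarith
        have h7 : 0 < G ^ (U'.filter (fun u => u % p ≠ r)).card := by positivity
        nlinarith
      · have : U'.filter (fun u => u % p ≠ r) = U' := by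
          refine filter_true_of_mem fun u hu he => hr ?_
          rw [mem_image]
          exact ⟨u, hu, he⟩
        rw [this, mul_one]
    have h3 := sum_le_sum h2
    rw [← mul_sum] at h3
    have h4 : ∑ r ∈ range p, (if r ∈ U'.image (fun u => u % p) then (4 : ℝ) else 1) ≤ p + 4 * U.card := by
      calc ∑ r ∈ range p, (if r ∈ U'.image (fun u => u % p) then (4 : ℝ) else 1)
          ≤ ∑ r ∈ range p, (1 + (if r ∈ U'.image (fun u => u % p) then (4 : ℝ) else 0)) := by
            refine sum_le_sum fun r _ => ?_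
            split_ifs <;> norm_num
        _ = p + ∑ r ∈ range p, (if r ∈ U'.image (fun u => u % p) then (4 : ℝ) else 0) := by
            rw [sum_add_distrib]
            simp
        _ ≤ p + 4 * U.card := by
            rw [← sum_filter]
            simp only [sum_const, nsmul_eq_mul]
            have h5 : ((range p).filter (fun r => r ∈ U'.image (fun u => u % p))).card ≤ U.card := by
              calc _ ≤ (U'.image (fun u => u % p)).card :=
                    card_le_card (fun r hr => (mem_filter.1 hr).2)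
                _ ≤ U'.card := card_image_le
                _ ≤ U.card := card_le_card hU'
            have h6 : (((range p).filter (fun r => r ∈ U'.image (fun u => u % p))).card : ℝ) ≤ U.card := by
              exact_mod_cast h5
            linarith
    calc (1 / (p : ℝ)) * ∑ r ∈ range p, P.real (Kill a (U'.filter (fun u => u % p ≠ r)) (L ∪ L2))
        ≤ (1 / (p : ℝ)) * (C * G ^ U'.card * (p + 4 * U.card)) := by
          have h5 : 0 ≤ C * G ^ U'.card := by positivity
          refine mul_le_mul_of_nonneg_left (h3.trans ?_) (by positivity)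
          exact mul_le_mul_of_nonneg_left h4 h5
      _ = (1 + 4 * (U.card : ℝ) / p) * C * G ^ U'.card := by
          field_simp

/-- lower bound -/
theorem Kill_lower (h : Model P a) (L : Finset ℕ) (hL : ∀ p ∈ L, p.Prime) (s : ℕ) (hs : 1 ≤ s)
    (hsL : s ≤ L.card) (Y Z : ℝ) (hY : 1 ≤ Y) (hLY : ∀ p ∈ L, Y ≤ p ∧ (p : ℝ) ≤ Z)
    (hsY : s / Y ≤ 1 / 2) (d : ℝ) (hd1 : d ≤ 1)
    (hd : Real.exp (-((1 - 1 / s) * (∑ p ∈ L, 1 / (p : ℝ) - s / Y)) +
      s / Y * (s * Real.log Z + Real.log 2)) ≤ d) :
    ∀ U : Finset ℕ, U.card ≤ s → (∀ p ∈ L, Set.InjOn (fun u => u % p) U) →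
      (1 - d) ^ U.card ≤ P.real (Kill a U L) := by
  intro U hUs hU
  obtain ⟨pr, h1, h2, h3⟩ := exists_enum L
  have h4 := Kill_congr_card h pr L.card (fun k hk => hL _ (h2 k hk)) h1 U (fun k hk => hU _ (h2 k hk))
  rw [h3] at h4
  rw [h4]
  have hpos : ∀ k < L.card, (0 : ℝ) < pr k := fun k hk => by
    exact_mod_cast (hL _ (h2 k hk)).pos
  have h6 : ∑ p ∈ L, 1 / (p : ℝ) = ∑ i ∈ range L.card, 1 / (pr i : ℝ) := by
    conv_lhs => rw [← h3]
    rw [sum_image]
    intro i hi j hj hij
    exact h1 i (by exact_mod_cast mem_range.1 hi) j (by exact_mod_cast mem_range.1 hj) hij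
  have hYZ : Y ≤ Z := by
    have := hLY _ (h2 0 (by omega))
    exact this.1.trans this.2
  have hZ0 : 0 < Z := by linarith
  refine F_lower (fun k => 1 / (pr k : ℝ)) L.card s (1 / Y) (1 / Z) (by positivity) ?_ ?_ ?_ hs hsL d ?_ hd1
    U.card hUs
  · rw [div_le_one hZ0]
    linarith
  · intro k hk
    have h7 := hLY _ (h2 k hk)
    have h8 := hpos k hk
    constructor
    · exact one_div_le_one_div_of_le h8 h7.2
    · exact one_div_le_one_div_of_le (by linarith) h7.1
  · rw [mul_one_div]
    exact hsY
  · rw [← h6]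
    refine le_trans (le_of_eq ?_) hd
    congr 1
    rw [one_div_one_div]
    ring

end Pool.Agent.T2H32.BF
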