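import Pool.Agent.T2H32.BF.Kill

set_option autoImplicit false

/-! # Conditioning on finitely many classes; moments of the number of survivors -/

open Finset MeasureTheory ProbabilityTheory
open scoped ENNReal

namespace Pool.Agent.T2H32.BF

variable {Ω : Type*} [MeasurableSpace Ω] {P : Measure Ω} {a : ℕ → Ω → ℕ}

theorem cond (h : Model P a) (S T : Finset ℕ) (hd : Disjoint S T) (Q : (ℕ → ℕ) → Prop)
    (hQ : ∀ b b' : ℕ → ℕ, (∀ i ∈ S ∪ T, b i = b' i) → (Q b ↔ Q b')) (η : ℝ) (hη : 0 ≤ η)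
    (hyp : ∀ α : ℕ → ℕ, P.real {ω | Q (fun i => if i ∈ S then α i else a i ω)} ≤ η) :
    P.real {ω | Q (fun i => a i ω)} ≤ η := by
  classical
  have := prob h
  set X : Ω → (S → ℕ) := fun ω i => a i ω with hX
  set Y : Ω → (T → ℕ) := fun ω i => a i ω with hY
  have hXm : Measurable X := measurable_pi_lambda _ fun i => h.measurable i
  have hYm : Measurable Y := measurable_pi_lambda _ fun i => h.measurable i
  have hind : IndepFun X Y P := h.independent.indepFun_finset S T hd h.measurable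
  have hmap := (indepFun_iff_map_prod_eq_prod_map_map hXm.aemeasurable hYm.aemeasurable).1 hind
  set glue : (S → ℕ) → (T → ℕ) → ℕ → ℕ := fun x y i =>
    if hi : i ∈ S then x ⟨i, hi⟩ else if hi : i ∈ T then y ⟨i, hi⟩ else 0 with hglue
  set 𝒬 : Set ((S → ℕ) × (T → ℕ)) := {z | Q (glue z.1 z.2)} with h𝒬
  have h𝒬m : MeasurableSet 𝒬 := (Set.to_countable 𝒬).measurableSet
  have e1 : {ω | Q (fun i => a i ω)} = (fun ω => (X ω, Y ω)) ⁻¹' 𝒬 := by
    ext ω
    simp only [h𝒬, Set.mem_ofPred_eq, Set.mem_preimage]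
    refine hQ _ _ fun i hi => ?_
    simp only [hglue]
    rcases mem_union.1 hi with h1 | h1
    · rw [dif_pos h1]
    · rw [dif_neg (fun h2 => disjoint_left.1 hd h2 h1), dif_pos h1]
  have e2 : P {ω | Q (fun i => a i ω)} = ((P.map X).prod (P.map Y)) 𝒬 := by
    rw [← hmap, Measure.map_apply (hXm.prodMk hYm) h𝒬m, e1]
  have : IsProbabilityMeasure (P.map X) := Measure.isProbabilityMeasure_map hXm.aemeasurable
  have : IsProbabilityMeasure (P.map Y) := Measure.isProbabilityMeasure_map hYm.aemeasurable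
  have e3 : ∀ x : S → ℕ, (P.map Y) (Prod.mk x ⁻¹' 𝒬) ≤ ENNReal.ofReal η := by
    intro x
    rw [Measure.map_apply hYm (Set.to_countable _).measurableSet]
    have h1 := hyp (fun i => if hi : i ∈ S then x ⟨i, hi⟩ else 0)
    have e4 : Y ⁻¹' (Prod.mk x ⁻¹' 𝒬) =
        {ω | Q (fun i => if i ∈ S then (if hi : i ∈ S then x ⟨i, hi⟩ else 0) else a i ω)} := by
      ext ω
      simp only [h𝒬, Set.mem_ofPred_eq, Set.mem_preimage]
      refine hQ _ _ fun i hi => ?_
      simp only [hglue]
      rcases mem_union.1 hi with h1 | h1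
      · rw [dif_pos h1, if_pos h1, dif_pos h1]
      · have h2 : i ∉ S := fun h2 => disjoint_left.1 hd h2 h1
        rw [dif_neg h2, dif_pos h1, if_neg h2]
    rw [e4]
    rw [measureReal_def] at h1
    rw [← ENNReal.ofReal_toReal (measure_ne_top P _)]
    exact ENNReal.ofReal_le_ofReal h1
  rw [measureReal_def, e2, Measure.prod_apply h𝒬m]
  have e5 : ∫⁻ x, (P.map Y) (Prod.mk x ⁻¹' 𝒬) ∂(P.map X) ≤ ∫⁻ _, ENNReal.ofReal η ∂(P.map X) :=
    lintegral_mono e3
  rw [lintegral_const, measure_univ, mul_one] at e5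
  calc (∫⁻ x, (P.map Y) (Prod.mk x ⁻¹' 𝒬) ∂(P.map X)).toReal ≤ (ENNReal.ofReal η).toReal :=
        ENNReal.toReal_mono ENNReal.ofReal_ne_top e5
    _ = η := ENNReal.toReal_ofReal hη

/-- number of the events which occur -/
noncomputable def cnt {ι : Type*} (I : Finset ι) (E : ι → Set Ω) (ω : Ω) : ℝ :=
  ∑ i ∈ I, (E i).indicator (fun _ => (1 : ℝ)) ω

/-- **Chebyshev's inequality for the number of events which occur.** -/
theorem cheb [IsProbabilityMeasure P] {ι : Type*} (I : Finset ι) (E : ι → Set Ω)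
    (hE : ∀ i ∈ I, MeasurableSet (E i)) (t : ℝ) (ht : 0 < t) :
    P.real {ω | t ≤ |cnt I E ω - ∑ i ∈ I, P.real (E i)|} ≤
      (∑ i ∈ I, ∑ j ∈ I, P.real (E i ∩ E j) - (∑ i ∈ I, P.real (E i)) ^ 2) / t ^ 2 := by
  have hint : ∫ ω, cnt I E ω ∂P = ∑ i ∈ I, P.real (E i) := by
    unfold cnt
    rw [integral_finsetSum _ fun k hk => (integrable_const (1 : ℝ)).indicator (hE k hk)]
    refine Finset.sum_congr rfl fun k hk => ?_
    rw [integral_indicator_const _ (hE k hk)]
    simp
  have hmem : MemLp (cnt I E) 2 P := by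
    unfold cnt
    exact memLp_finsetSum _ fun k hk => (memLp_const (1 : ℝ)).indicator (hE k hk)
  have hsq : ∫ ω, (cnt I E ^ 2) ω ∂P = ∑ i ∈ I, ∑ j ∈ I, P.real (E i ∩ E j) := by
    have h2 : (fun ω => (cnt I E ^ 2) ω) = fun ω => ∑ k ∈ I, ∑ l ∈ I,
        (E k ∩ E l).indicator (fun _ => (1 : ℝ)) ω := by
      funext ω
      simp only [Pi.pow_apply, cnt, sq, Finset.sum_mul_sum]
      refine Finset.sum_congr rfl fun k _ => Finset.sum_congr rfl fun l _ => ?_
      by_cases hk : ω ∈ E k <;> by_cases hl : ω ∈ E l <;> simp [hk, hl]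
    have h3 : ∫ ω, (cnt I E ^ 2) ω ∂P = ∫ ω, ∑ k ∈ I, ∑ l ∈ I,
        (E k ∩ E l).indicator (fun _ => (1 : ℝ)) ω ∂P := by rw [← h2]
    rw [h3, integral_finsetSum _ fun k hk => integrable_finsetSum _ fun l hl =>
      (integrable_const (1 : ℝ)).indicator ((hE k hk).inter (hE l hl))]
    refine Finset.sum_congr rfl fun k hk => ?_
    rw [integral_finsetSum _ fun l hl =>
      (integrable_const (1 : ℝ)).indicator ((hE k hk).inter (hE l hl))]
    refine Finset.sum_congr rfl fun l hl => ?_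
    rw [integral_indicator_const _ ((hE k hk).inter (hE l hl))]
    simp
  have h1 := meas_ge_le_variance_div_sq hmem ht
  rw [hint, variance_eq_sub hmem, hsq, hint] at h1
  have h2 : 0 ≤ (∑ i ∈ I, ∑ j ∈ I, P.real (E i ∩ E j) - (∑ i ∈ I, P.real (E i)) ^ 2) / t ^ 2 := by
    have h3 := variance_nonneg (cnt I E) P
    rw [variance_eq_sub hmem, hsq, hint] at h3
    positivity
  rw [measureReal_def]
  calc (P {ω | t ≤ |cnt I E ω - ∑ i ∈ I, P.real (E i)|}).toReal ≤
        (ENNReal.ofReal ((∑ i ∈ I, ∑ j ∈ I, P.real (E i ∩ E j) - (∑ i ∈ I, P.real (E i)) ^ 2) / t ^ 2)).toReal :=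
        ENNReal.toReal_mono ENNReal.ofReal_ne_top h1
    _ = _ := ENNReal.toReal_ofReal h2

/-- `u` is in none of the random classes modulo the elements of `B` -/
def Surv (a : ℕ → Ω → ℕ) (B : Finset ℕ) (A : Finset ℕ) : Set Ω := {ω | ∀ p ∈ B, ∀ u ∈ A, u % p ≠ a p ω}

theorem Surv_sg (a : ℕ → Ω → ℕ) (B A : Finset ℕ) : @MeasurableSet _ (sg a B) (Surv a B A) := by
  have e : Surv a B A = ⋂ p ∈ B, {ω | a p ω ∈ {r : ℕ | ∀ u ∈ A, u % p ≠ r}} := by
    ext ω
    simp [Surv]
  rw [e]
  refine @Finset.measurableSet_biInter _ _ (sg a B) _ _ fun p hp => ?_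
  exact sg_meas a B p (by exact_mod_cast hp) _

theorem Surv_meas (h : Model P a) (B A : Finset ℕ) : MeasurableSet (Surv a B A) :=
  sg_le h B _ (Surv_sg a B A)

theorem prob_class (h : Model P a) (p : ℕ) (hp : p.Prime) (R : Finset ℕ) (hR : R ⊆ range p) :
    P.real {ω | a p ω ∈ {r : ℕ | r ∉ R}} = 1 - (R.card : ℝ) / p := by
  have := prob h
  have hm : ∀ r, MeasurableSet {ω | a p ω = r} := fun r => h.measurable p (measurableSet_singleton r)
  have e : {ω | a p ω ∈ {r : ℕ | r ∉ R}} = (⋃ r ∈ R, {ω | a p ω = r})ᶜ := by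
    ext ω
    simp
  rw [e, probReal_compl_eq_one_sub (Finset.measurableSet_biUnion _ fun r _ => hm r),
    measureReal_biUnion_finset ?_ (fun r _ => hm r)]
  · rw [sum_congr rfl fun r hr => h.uniform p hp r (mem_range.1 (hR hr))]
    simp [div_eq_mul_inv]
  · intro r _ r' _ hne
    rw [Function.onFun, Set.disjoint_left]
    intro ω h1 h2
    exact hne ((show a p ω = r from h1).symm.trans h2)

theorem Surv_prob (h : Model P a) (A B : Finset ℕ) (hB : ∀ p ∈ B, p.Prime) :
    P.real (Surv a B A) = ∏ p ∈ B, (1 - ((A.image (fun u => u % p)).card : ℝ) / p) := by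
  have := prob h
  induction B using Finset.induction_on with
  | empty =>
    have : Surv a ∅ A = Set.univ := by
      ext ω
      simp [Surv]
    rw [this]
    simp
  | insert p B hp ih =>
    have e : Surv a (insert p B) A =
        {ω | a p ω ∈ {r : ℕ | r ∉ A.image (fun u => u % p)}} ∩ Surv a B A := by
      ext ω
      simp only [Surv, Set.mem_ofPred_eq, mem_insert, forall_eq_or_imp, Set.mem_inter_iff, mem_image,
        not_exists, not_and]
    rw [e, measureReal_def, indep_sg h {p} B (by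
      rw [Set.disjoint_singleton_left]
      exact_mod_cast hp) _ _ (sg_meas a {p} p rfl _) (Surv_sg a B A), ENNReal.toReal_mul,
      ← measureReal_def, ← measureReal_def, ih (fun q hq => hB q (mem_insert_of_mem hq)),
      prob_class h p (hB p (mem_insert_self _ _)) _ ?_, prod_insert hp]
    intro r hr
    rw [mem_image] at hr
    obtain ⟨u, _, rfl⟩ := hr
    exact mem_range.2 (Nat.mod_lt _ (hB p (mem_insert_self _ _)).pos)

theorem Surv_inter (a : ℕ → Ω → ℕ) (B : Finset ℕ) (u u' : ℕ) :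
    Surv a B {u} ∩ Surv a B {u'} = Surv a B {u, u'} := by
  ext ω
  simp only [Surv, Set.mem_inter_iff, Set.mem_ofPred_eq, mem_singleton, forall_eq, mem_insert,
    forall_eq_or_imp]
  constructor
  · rintro ⟨h1, h2⟩ p hp
    exact ⟨h1 p hp, h2 p hp⟩
  · intro h
    exact ⟨fun p hp => (h p hp).1, fun p hp => (h p hp).2⟩

/-- **Concentration of the number of survivors.** -/
theorem surv_conc (h : Model P a) (U B : Finset ℕ) (hB : ∀ p ∈ B, p.Prime) (ρ : ℝ)
    (hρ : ∀ u ∈ U, ∀ u' ∈ U, u ≠ u' → ∏ p ∈ B.filter (fun p => u % p = u' % p), (1 - 1 / (p : ℝ))⁻¹ ≤ ρ)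
    (hρ1 : 1 ≤ ρ) (t : ℝ) (ht : 0 < t) :
    P.real {ω | t ≤ |cnt U (fun u => Surv a B {u}) ω - U.card * ∏ p ∈ B, (1 - 1 / (p : ℝ))|} ≤
      ((U.card * ∏ p ∈ B, (1 - 1 / (p : ℝ))) ^ 2 * (ρ - 1) + U.card * ∏ p ∈ B, (1 - 1 / (p : ℝ))) / t ^ 2 := by
  have := prob h
  set W := ∏ p ∈ B, (1 - 1 / (p : ℝ)) with hW
  have hp2 : ∀ p ∈ B, (2 : ℝ) ≤ p := fun p hp => by exact_mod_cast (hB p hp).two_le
  have hfac : ∀ p ∈ B, 0 < 1 - 1 / (p : ℝ) := fun p hp => by
    have h1 := hp2 p hp
    have : 1 / (p : ℝ) ≤ 1 / 2 := by gcongr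
    linarith
  have hW0 : 0 < W := prod_pos hfac
  have hP1 : ∀ u ∈ U, P.real (Surv a B {u}) = W := by
    intro u _
    rw [Surv_prob h _ _ hB, hW]
    refine prod_congr rfl fun p _ => ?_
    simp
  have hsum : ∑ u ∈ U, P.real (Surv a B {u}) = U.card * W := by
    rw [sum_congr rfl hP1]
    simp
  have h1 := cheb (P := P) U (fun u => Surv a B {u}) (fun u _ => Surv_meas h _ _) t ht
  rw [hsum] at h1
  refine h1.trans ?_
  gcongr
  have h2 : ∀ u ∈ U, ∀ u' ∈ U, P.real (Surv a B {u} ∩ Surv a B {u'}) ≤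
      W ^ 2 * ρ + (if u = u' then W else 0) := by
    intro u hu u' hu'
    rw [Surv_inter, Surv_prob h _ _ hB]
    by_cases huu : u = u'
    · subst huu
      rw [if_pos rfl]
      have : ∏ p ∈ B, (1 - (((({u, u} : Finset ℕ)).image (fun u => u % p)).card : ℝ) / p) = W := by
        rw [hW]
        refine prod_congr rfl fun p _ => ?_
        simp
      rw [this]
      have : 0 ≤ W ^ 2 * ρ := by positivity
      linarith
    · rw [if_neg huu, add_zero]
      have h3 : ∀ p ∈ B, (1 - (((({u, u'} : Finset ℕ)).image (fun u => u % p)).card : ℝ) / p) ≤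
          (1 - 1 / (p : ℝ)) ^ 2 * (if u % p = u' % p then (1 - 1 / (p : ℝ))⁻¹ else 1) := by
        intro p hp
        have hf := hfac p hp
        have hp0 : (0 : ℝ) < p := by linarith [hp2 p hp]
        split_ifs with he
        · have : (({u, u'} : Finset ℕ)).image (fun u => u % p) = {u' % p} := by
            rw [image_insert, image_singleton, he]
            simp
          rw [this, card_singleton]
          have : (1 - 1 / (p : ℝ)) ^ 2 * (1 - 1 / (p : ℝ))⁻¹ = 1 - 1 / (p : ℝ) := by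
            field_simp
          rw [this]
          simp
        · have : ((({u, u'} : Finset ℕ)).image (fun u => u % p)).card = 2 := by
            rw [image_insert, image_singleton]
            exact card_pair he
          rw [this, mul_one]
          have : (1 - 1 / (p : ℝ)) ^ 2 = 1 - 2 / p + 1 / p ^ 2 := by
            field_simp
            ring
          rw [this]
          have : 0 ≤ 1 / (p : ℝ) ^ 2 := by positivity
          push_cast
          linarith
      have h4 : ∏ p ∈ B, (1 - (((({u, u'} : Finset ℕ)).image (fun u => u % p)).card : ℝ) / p) ≤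
          ∏ p ∈ B, ((1 - 1 / (p : ℝ)) ^ 2 * (if u % p = u' % p then (1 - 1 / (p : ℝ))⁻¹ else 1)) := by
        refine prod_le_prod (fun p hp => ?_) h3
        have h5 : ((({u, u'} : Finset ℕ)).image (fun u => u % p)).card ≤ 2 :=
          card_image_le.trans card_le_two
        have h6 : (((({u, u'} : Finset ℕ)).image (fun u => u % p)).card : ℝ) ≤ 2 := by exact_mod_cast h5
        have h7 := hp2 p hp
        have h8 : (((({u, u'} : Finset ℕ)).image (fun u => u % p)).card : ℝ) / p ≤ 1 := by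
          rw [div_le_one (by linarith)]
          linarith
        linarith
      refine h4.trans ?_
      rw [prod_mul_distrib, prod_pow, ← hW, ← prod_filter]
      have := hρ u hu u' hu' huu
      gcongr
  have h3 : ∑ i ∈ U, ∑ j ∈ U, P.real (Surv a B {i} ∩ Surv a B {j}) ≤
      (U.card : ℝ) ^ 2 * (W ^ 2 * ρ) + U.card * W := by
    calc ∑ i ∈ U, ∑ j ∈ U, P.real (Surv a B {i} ∩ Surv a B {j})
        ≤ ∑ i ∈ U, ∑ j ∈ U, (W ^ 2 * ρ + (if i = j then W else 0)) :=
          sum_le_sum fun i hi => sum_le_sum fun j hj => h2 i hi j hj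
      _ = (U.card : ℝ) ^ 2 * (W ^ 2 * ρ) + U.card * W := by
          simp only [sum_add_distrib, sum_const, nsmul_eq_mul]
          have : ∑ i ∈ U, ∑ j ∈ U, (if i = j then W else 0) = U.card * W := by
            rw [sum_congr rfl fun i hi => by rw [sum_ite_eq, if_pos hi]]
            simp
          rw [this]
          ring
  nlinarith

end Pool.Agent.T2H32.BF
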