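import Mathlib
import Pool.Agent.H305R2.MertensE
import Pool.Agent.R98.PrimeSum

set_option autoImplicit false

/-! # Number theoretic input -/

open Finset Filter Topology

namespace Pool.Agent.T2H32.BF

/-- `V n = ∏_{p ≤ n} (1 - 1/p)` -/
noncomputable def V (n : ℕ) : ℝ := ∏ p ∈ (range (n + 1)).filter Nat.Prime, (1 - 1 / (p : ℝ))

theorem V_pos (n : ℕ) : 0 < V n := by
  refine prod_pos fun p hp => ?_
  have h1 : (2 : ℝ) ≤ p := by exact_mod_cast (mem_filter.1 hp).2.two_le
  have h2 : 1 / (p : ℝ) ≤ 1 / 2 := by gcongr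
  linarith

theorem V_anti : Antitone V := by
  refine antitone_nat_of_succ_le fun n => ?_
  unfold V
  by_cases h : (n + 1).Prime
  · rw [range_add_one, filter_insert, if_pos h, prod_insert (by simp)]
    have h1 : (2 : ℝ) ≤ ((n + 1 : ℕ) : ℝ) := by exact_mod_cast h.two_le
    have h2 : 0 ≤ 1 / ((n + 1 : ℕ) : ℝ) := by positivity
    have h3 := V_pos n
    unfold V at h3
    nlinarith
  · rw [range_add_one, filter_insert, if_neg h]

theorem V_ratio (m n : ℕ) (h : m ≤ n) :
    V n / V m = ∏ p ∈ (Ioc m n).filter Nat.Prime, (1 - 1 / (p : ℝ)) := by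
  have h1 : V n = V m * ∏ p ∈ (Ioc m n).filter Nat.Prime, (1 - 1 / (p : ℝ)) := by
    unfold V
    rw [← prod_union]
    · congr 1
      ext p
      simp only [mem_filter, mem_range, mem_union, mem_Ioc]
      constructor
      · rintro ⟨h1, h2⟩
        by_cases h3 : p < m + 1
        · exact Or.inl ⟨h3, h2⟩
        · exact Or.inr ⟨⟨by omega, by omega⟩, h2⟩
      · rintro (⟨h1, h2⟩ | ⟨⟨h1, h1'⟩, h2⟩)
        · exact ⟨by omega, h2⟩
        · exact ⟨by omega, h2⟩
    · rw [disjoint_left]
      intro p hp hp'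
      simp only [mem_filter, mem_range, mem_Ioc] at hp hp'
      omega
  have := V_pos m
  rw [h1]
  field_simp

theorem mertens : Tendsto (fun n : ℕ => V n * Real.log n) atTop
    (𝓝 (Real.exp (-Real.eulerMascheroniConstant))) := by
  have h := Pool.Agent.H305R2.mertens_three.inv₀ (Real.exp_pos _).ne'
  rw [← Real.exp_neg] at h
  refine h.congr fun n => ?_
  rw [inv_div, prod_inv_distrib, div_inv_eq_mul, mul_comm]
  congr 1
  unfold V
  refine prod_congr ?_ fun p _ => ?_
  · ext p
    simp only [mem_filter, mem_Icc, mem_range]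
    constructor
    · rintro ⟨⟨h1, h2⟩, h3⟩
      exact ⟨by omega, h3⟩
    · rintro ⟨h1, h3⟩
      exact ⟨⟨h3.one_le, by omega⟩, h3⟩
  · rw [one_div]

theorem pnt : Tendsto (fun n : ℕ => (Nat.primeCounting n : ℝ) * Real.log n / n) atTop (𝓝 1) :=
  Pool.Agent.R98.pnt

/-! ### the scales -/

/-- `log X` -/
noncomputable def l1 (X : ℕ) : ℝ := Real.log X
/-- `log log X` -/
noncomputable def l2 (X : ℕ) : ℝ := Real.log (Real.log X)

theorem tl1 : Tendsto l1 atTop atTop := Real.tendsto_log_atTop.comp tendsto_natCast_atTop_atTop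
theorem tl2 : Tendsto l2 atTop atTop := Real.tendsto_log_atTop.comp tl1

/-- `log log X / log X ^ r → 0` -/
theorem l2_l1 (n : ℕ) (r : ℝ) (hr : 0 < r) : Tendsto (fun X => l2 X ^ n / l1 X ^ r) atTop (𝓝 0) := by
  have h1 : Tendsto (fun x : ℝ => Real.log x ^ n / x ^ r) atTop (𝓝 0) := by
    have := isLittleO_log_rpow_rpow_atTop (s := r) (n : ℝ) hr
    have h2 := this.tendsto_div_nhds_zero
    refine h2.congr fun x => ?_
    rw [Real.rpow_natCast]
  exact h1.comp tl1

/-- block length -/
noncomputable def yy (c : ℝ) (X : ℕ) : ℕ := ⌈c * l1 X ^ 2⌉₊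
/-- first sieving limit -/
noncomputable def ww (X : ℕ) : ℕ := ⌊l1 X / l2 X⌋₊

variable (c : ℝ) (hc : 0 < c)

include hc in
theorem yy_lim : Tendsto (fun X => (yy c X : ℝ) / l1 X ^ 2) atTop (𝓝 c) := by
  have h0 : Tendsto (fun X => l1 X ^ 2) atTop atTop := (tendsto_pow_atTop (by norm_num)).comp tl1
  have h1 : Tendsto (fun X => c + 1 / l1 X ^ 2) atTop (𝓝 c) := by
    have := (tendsto_const_nhds (x := (1 : ℝ))).div_atTop h0
    simpa using this.const_add c
  refine tendsto_of_tendsto_of_tendsto_of_le_of_le' tendsto_const_nhds h1 ?_ ?_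
  · filter_upwards [h0.eventually_gt_atTop 0] with X hX
    rw [le_div_iff₀ hX]
    exact Nat.le_ceil _
  · filter_upwards [h0.eventually_gt_atTop 0] with X hX
    rw [div_le_iff₀ hX]
    have h2 := (Nat.ceil_lt_add_one (show 0 ≤ c * l1 X ^ 2 by positivity)).le
    have h3 : (c + 1 / l1 X ^ 2) * l1 X ^ 2 = c * l1 X ^ 2 + 1 := by
      rw [add_mul, div_mul_cancel₀ _ hX.ne']
    rw [h3]
    exact h2

theorem l1_l2 : Tendsto (fun X => l1 X / l2 X) atTop atTop := by
  have h1 := l2_l1 1 1 one_pos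
  have h2 : Tendsto (fun X => l2 X / l1 X) atTop (𝓝[>] 0) := by
    refine tendsto_nhdsWithin_iff.2 ⟨?_, ?_⟩
    · refine h1.congr fun X => ?_
      rw [pow_one, Real.rpow_one]
    · filter_upwards [tl1.eventually_gt_atTop 0, tl2.eventually_gt_atTop 0] with X h3 h4
      exact div_pos h4 h3
  refine (tendsto_inv_nhdsGT_zero.comp h2).congr fun X => ?_
  simp

theorem ww_lim : Tendsto (fun X => (ww X : ℝ) * l2 X / l1 X) atTop (𝓝 1) := by
  have h1 : Tendsto (fun X => (⌊l1 X / l2 X⌋₊ : ℝ) / (l1 X / l2 X)) atTop (𝓝 1) :=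
    tendsto_nat_floor_div_atTop.comp l1_l2
  refine h1.congr' ?_
  filter_upwards [tl1.eventually_gt_atTop 0, tl2.eventually_gt_atTop 0] with X h3 h4
  unfold ww
  field_simp

theorem ww_atTop : Tendsto (fun X => (ww X : ℝ)) atTop atTop :=
  tendsto_natCast_atTop_atTop.comp (tendsto_nat_floor_atTop.comp l1_l2)

include hc in
theorem yy_atTop : Tendsto (fun X => (yy c X : ℝ)) atTop atTop := by
  have h0 : Tendsto (fun X => l1 X ^ 2) atTop atTop := (tendsto_pow_atTop (by norm_num)).comp tl1
  refine ((yy_lim c hc).pos_mul_atTop hc h0).congr' ?_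
  filter_upwards [tl1.eventually_gt_atTop 0] with X h3
  field_simp

/-- if `f X / l1 X ^ n → κ > 0` up to factors `l2 X ^ m` then `log f X / l2 X → n`. -/
theorem log_ratio (f : ℕ → ℝ) (n : ℕ) (m : ℕ) (κ : ℝ) (hκ : 0 < κ)
    (h : Tendsto (fun X => f X * l2 X ^ m / l1 X ^ n) atTop (𝓝 κ)) :
    Tendsto (fun X => Real.log (f X) / l2 X) atTop (𝓝 n) := by
  have h1 : Tendsto (fun X => Real.log (f X * l2 X ^ m / l1 X ^ n)) atTop (𝓝 (Real.log κ)) :=
    (Real.continuousAt_log hκ.ne').tendsto.comp h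
  have h2 : Tendsto (fun X => Real.log (f X * l2 X ^ m / l1 X ^ n) / l2 X) atTop (𝓝 0) :=
    h1.div_atTop tl2
  have h3 : Tendsto (fun X => Real.log (l2 X) / l2 X) atTop (𝓝 0) := by
    have := (Real.isLittleO_log_id_atTop).tendsto_div_nhds_zero
    exact this.comp tl2
  have h4 : Tendsto (fun X => Real.log (f X * l2 X ^ m / l1 X ^ n) / l2 X + n -
      m * (Real.log (l2 X) / l2 X)) atTop (𝓝 (0 + n - m * 0)) :=
    (h2.add_const _).sub (h3.const_mul _)
  rw [mul_zero, sub_zero, zero_add] at h4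
  refine h4.congr' ?_
  have hpos : ∀ᶠ X in atTop, 0 < f X * l2 X ^ m / l1 X ^ n := h.eventually_const_lt hκ
  filter_upwards [hpos, tl1.eventually_gt_atTop 0, tl2.eventually_gt_atTop 0] with X hX hX1 hX2
  have hf : 0 < f X := by
    by_contra hcon
    push Not at hcon
    have : f X * l2 X ^ m / l1 X ^ n ≤ 0 :=
      div_nonpos_of_nonpos_of_nonneg (mul_nonpos_of_nonpos_of_nonneg hcon (by positivity)) (by positivity)
    linarith
  rw [Real.log_div (by positivity) (by positivity), Real.log_mul (by positivity) (by positivity),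
    Real.log_pow, Real.log_pow]
  have e : Real.log (l1 X) = l2 X := rfl
  rw [e]
  field_simp
  ring

theorem log_ww : Tendsto (fun X => Real.log (ww X) / l2 X) atTop (𝓝 1) := by
  have := log_ratio (fun X => (ww X : ℝ)) 1 1 1 one_pos (by
    refine ww_lim.congr fun X => ?_
    rw [pow_one, pow_one])
  simpa using this

include hc in
theorem log_yy : Tendsto (fun X => Real.log (yy c X) / l2 X) atTop (𝓝 2) := by
  have := log_ratio (fun X => (yy c X : ℝ)) 2 0 c hc (by
    refine (yy_lim c hc).congr fun X => ?_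
    rw [pow_zero, mul_one])
  simpa using this

/-- Mertens along a scale -/
theorem V_scale (f : ℕ → ℕ) (κ : ℝ) (hκ : 0 < κ) (hf : Tendsto f atTop atTop)
    (h : Tendsto (fun X => Real.log (f X) / l2 X) atTop (𝓝 κ)) :
    Tendsto (fun X => V (f X) * l2 X) atTop (𝓝 (Real.exp (-Real.eulerMascheroniConstant) / κ)) := by
  have h1 := (mertens.comp hf).div h hκ.ne'
  refine h1.congr' ?_
  have h2 : Tendsto (fun X => Real.log (f X)) atTop atTop :=
    Real.tendsto_log_atTop.comp (tendsto_natCast_atTop_atTop.comp hf)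
  filter_upwards [tl2.eventually_gt_atTop 0, h2.eventually_gt_atTop 0] with X h3 h4
  simp only [Function.comp_apply, Pi.div_apply]
  field_simp

theorem ww_nat : Tendsto ww atTop atTop := tendsto_nat_floor_atTop.comp l1_l2

include hc in
theorem yy_nat : Tendsto (yy c) atTop atTop := tendsto_natCast_atTop_iff.1 (yy_atTop c hc)

theorem V_ww : Tendsto (fun X => V (ww X) * l2 X) atTop (𝓝 (Real.exp (-Real.eulerMascheroniConstant))) := by
  have := V_scale ww 1 one_pos ww_nat log_ww
  simpa using this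

include hc in
theorem V_YY : Tendsto (fun X => V (yy c X ^ 6) * l2 X) atTop
    (𝓝 (Real.exp (-Real.eulerMascheroniConstant) / 12)) := by
  refine V_scale (fun X => yy c X ^ 6) 12 (by norm_num) ?_ ?_
  · exact (tendsto_pow_atTop (by norm_num)).comp (yy_nat c hc)
  · have h := (log_yy c hc).const_mul 6
    norm_num at h
    refine h.congr fun X => ?_
    push_cast
    rw [Real.log_pow]
    push_cast
    ring

include hc in
theorem V_sqrt : Tendsto (fun X => V (Nat.sqrt (yy c X)) * l2 X) atTop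
    (𝓝 (Real.exp (-Real.eulerMascheroniConstant))) := by
  have hs : Tendsto (fun X => Nat.sqrt (yy c X)) atTop atTop := by
    refine tendsto_atTop.2 fun b => ?_
    filter_upwards [(yy_nat c hc).eventually_ge_atTop (b ^ 2)] with X hX
    exact Nat.le_sqrt'.2 hX
  have h1 : Tendsto (fun X => Real.log (Nat.sqrt (yy c X)) / l2 X) atTop (𝓝 1) := by
    -- `y / 4 ≤ sqrt y ^ 2 ≤ y`
    have hup : Tendsto (fun X => (Real.log (yy c X) / 2) / l2 X) atTop (𝓝 1) := by
      have h := (log_yy c hc).div_const 2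
      norm_num at h
      refine h.congr fun X => ?_
      ring
    have hlo : Tendsto (fun X => (Real.log (yy c X) / 2) / l2 X - Real.log 2 / l2 X) atTop (𝓝 1) := by
      have := (tendsto_const_nhds (x := Real.log 2)).div_atTop tl2
      simpa using hup.sub this
    refine tendsto_of_tendsto_of_tendsto_of_le_of_le' hlo hup ?_ ?_
    · filter_upwards [hs.eventually_ge_atTop 1, tl2.eventually_gt_atTop 0, (yy_nat c hc).eventually_ge_atTop 1]
        with X h2 h3 h4
      rw [← sub_div]
      gcongr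
      have h5 : yy c X ≤ (2 * Nat.sqrt (yy c X)) ^ 2 := by
        have h6 := Nat.sqrt_le_add (yy c X)
        nlinarith
      have h7 : (yy c X : ℝ) ≤ (2 * (Nat.sqrt (yy c X) : ℝ)) ^ 2 := by exact_mod_cast h5
      have h8 : (0 : ℝ) < yy c X := by exact_mod_cast h4
      have h9 : (0 : ℝ) < Nat.sqrt (yy c X) := by exact_mod_cast h2
      have h10 := Real.log_le_log h8 h7
      rw [Real.log_pow, Real.log_mul (by norm_num) h9.ne'] at h10
      push_cast at h10
      linarith
    · filter_upwards [hs.eventually_ge_atTop 1, tl2.eventually_gt_atTop 0] with X h2 h3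
      gcongr
      have h9 : (0 : ℝ) < Nat.sqrt (yy c X) := by exact_mod_cast h2
      have h7 : ((Nat.sqrt (yy c X) : ℝ)) ^ 2 ≤ yy c X := by exact_mod_cast Nat.sqrt_le' (yy c X)
      have h10 := Real.log_le_log (by positivity) h7
      rw [Real.log_pow] at h10
      push_cast at h10
      linarith
  have := V_scale _ 1 one_pos hs h1
  simpa using this

end Pool.Agent.T2H32.BF
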