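import Mathlib

set_option autoImplicit false

/-! # Occupancy probabilities -/

open Finset

namespace Pool.Agent.T2H32.BF

/-- `F q k s` is the probability that `s` given bins are all hit by the balls `0, ..., k-1`, where ball
`i` hits at most one bin, each one with probability `q i`. -/
noncomputable def F (q : ℕ → ℝ) : ℕ → ℕ → ℝ
  | 0, s => if s = 0 then 1 else 0
  | k + 1, s => (1 - s * q k) * F q k s + s * q k * F q k (s - 1)

theorem F_zero_right (q : ℕ → ℝ) (k : ℕ) : F q k 0 = 1 := by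
  induction k with
  | zero => simp [F]
  | succ k ih => simp [F, ih]

theorem F_nonneg (q : ℕ → ℝ) (S n : ℕ) (h0 : ∀ k < n, 0 ≤ q k) (h1 : ∀ k < n, S * q k ≤ 1) :
    ∀ k ≤ n, ∀ s ≤ S, 0 ≤ F q k s := by
  intro k
  induction k with
  | zero =>
    intro _ s _
    simp only [F]
    split_ifs <;> norm_num
  | succ k ih =>
    intro hk s hs
    simp only [F]
    have h2 := ih (by omega) s hs
    have h3 := ih (by omega) (s - 1) (by omega)
    have h4 := h0 k (by omega)
    have h5 : (s : ℝ) * q k ≤ 1 := by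
      refine le_trans ?_ (h1 k (by omega))
      gcongr
    have h6 : 0 ≤ (1 - s * q k) := by linarith
    positivity

theorem F_anti (q : ℕ → ℝ) (S n : ℕ) (h0 : ∀ k < n, 0 ≤ q k) (h1 : ∀ k < n, S * q k ≤ 1) :
    ∀ k ≤ n, ∀ s < S, F q k (s + 1) ≤ F q k s := by
  intro k
  induction k with
  | zero =>
    intro _ s _
    simp only [F]
    rw [if_neg (by omega)]
    split_ifs <;> norm_num
  | succ k ih =>
    intro hk s hs
    have h4 := h0 k (by omega)
    have h5 : ((s + 1 : ℕ) : ℝ) * q k ≤ 1 := by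
      refine le_trans ?_ (h1 k (by omega))
      have : ((s + 1 : ℕ) : ℝ) ≤ S := by exact_mod_cast hs
      gcongr
    have hC := ih (by omega) s hs
    simp only [F, Nat.add_sub_cancel]
    have e1 : (1 - ((s + 1 : ℕ) : ℝ) * q k) * F q k (s + 1) + ((s + 1 : ℕ) : ℝ) * q k * F q k s ≤ F q k s := by
      nlinarith
    refine e1.trans ?_
    rcases Nat.eq_zero_or_pos s with h | h
    · subst h
      simp
    · have hB := ih (by omega) (s - 1) (by omega)
      rw [Nat.sub_add_cancel h] at hB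
      have hs0 : (0 : ℝ) ≤ s * q k := by positivity
      nlinarith

theorem F_le_one (q : ℕ → ℝ) (S n : ℕ) (h0 : ∀ k < n, 0 ≤ q k) (h1 : ∀ k < n, S * q k ≤ 1) :
    ∀ k ≤ n, ∀ s ≤ S, F q k s ≤ 1 := by
  intro k hk s
  induction s with
  | zero => intro _; rw [F_zero_right]
  | succ s ih => intro hs; exact (F_anti q S n h0 h1 k hk s (by omega)).trans (ih (by omega))

/-- upper bound: negative dependence -/
theorem F_upper (q : ℕ → ℝ) (S n : ℕ) (h0 : ∀ k < n, 0 ≤ q k) (h1 : ∀ k < n, S * q k ≤ 1)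
    (h2 : ∀ k < n, q k ≤ 1) :
    ∀ k ≤ n, ∀ s ≤ S, F q k s ≤ (1 - ∏ i ∈ range k, (1 - q i)) ^ s := by
  intro k
  induction k with
  | zero =>
    intro _ s _
    simp only [F, range_zero, prod_empty, sub_self]
    split_ifs with h
    · subst h; simp
    · rw [zero_pow h]
  | succ k ih =>
    intro hk s hs
    set δ := ∏ i ∈ range k, (1 - q i) with hδ
    have hδ0 : 0 ≤ δ := prod_nonneg fun i hi => by
      have := h2 i (by have := mem_range.1 hi; omega)
      linarith
    have hδ1 : δ ≤ 1 := prod_le_one (fun i hi => by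
      have := h2 i (by have := mem_range.1 hi; omega)
      linarith) (fun i hi => by
      have := h0 i (by have := mem_range.1 hi; omega)
      linarith)
    rw [prod_range_succ, ← hδ]
    have hq0 := h0 k (by omega)
    have hq1 := h2 k (by omega)
    rcases Nat.eq_zero_or_pos s with h | h
    · subst h
      simp [F_zero_right]
    · obtain ⟨t, rfl⟩ : ∃ t, s = t + 1 := ⟨s - 1, by omega⟩
      simp only [F, Nat.add_sub_cancel]
      have hA := ih (by omega) (t + 1) hs
      have hB := ih (by omega) t (by omega)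
      have h5 : ((t + 1 : ℕ) : ℝ) * q k ≤ 1 := by
        refine le_trans ?_ (h1 k (by omega))
        gcongr
      set G := 1 - δ with hG
      have hG0 : 0 ≤ G := by linarith
      have hG1 : G ≤ 1 := by linarith
      have e1 : 1 - δ * (1 - q k) = G + q k * (1 - G) := by rw [hG]; ring
      rw [e1]
      -- Bernoulli: `(G + x)^(t+1) ≥ G^(t+1) + (t+1) x G^t`
      have hbern : ∀ x : ℝ, 0 ≤ x → ∀ t : ℕ, G ^ (t + 1) + (t + 1 : ℕ) * x * G ^ t ≤ (G + x) ^ (t + 1) := by
        intro x hx t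
        induction t with
        | zero => simp
        | succ t iht =>
          have h6 : (G + x) ^ (t + 1 + 1) = (G + x) ^ (t + 1) * (G + x) := pow_succ _ _
          rw [h6]
          have h7 : (G ^ (t + 1) + (t + 1 : ℕ) * x * G ^ t) * (G + x) ≤ (G + x) ^ (t + 1) * (G + x) := by
            gcongr
          refine le_trans ?_ h7
          have h8 : (G ^ (t + 1) + (t + 1 : ℕ) * x * G ^ t) * (G + x) =
              G ^ (t + 1 + 1) + ((t + 1 + 1 : ℕ) : ℝ) * x * G ^ (t + 1) + (t + 1 : ℕ) * x ^ 2 * G ^ t := by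
            push_cast
            ring
          rw [h8]
          have : 0 ≤ (t + 1 : ℕ) * x ^ 2 * G ^ t := by positivity
          linarith
      have hb := hbern (q k * (1 - G)) (mul_nonneg hq0 (by linarith)) t
      refine le_trans ?_ hb
      have h9 : (1 - ((t + 1 : ℕ) : ℝ) * q k) * F q k (t + 1) + ((t + 1 : ℕ) : ℝ) * q k * F q k t ≤
          (1 - ((t + 1 : ℕ) : ℝ) * q k) * G ^ (t + 1) + ((t + 1 : ℕ) : ℝ) * q k * G ^ t := by
        have h10 : 0 ≤ 1 - ((t + 1 : ℕ) : ℝ) * q k := by linarith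
        gcongr
      refine h9.trans (le_of_eq ?_)
      rw [pow_succ]
      ring

/-- the invariant -/
def Inv (q : ℕ → ℝ) (s k : ℕ) (v : ℝ) : Prop :=
  ∀ t < s, v * F q k t ≤ (1 + v) * F q k (t + 1)

theorem Inv_step (q : ℕ → ℝ) (s n k : ℕ) (hk : k < n) (h0 : ∀ k < n, 0 < q k) (h1 : ∀ k < n, s * q k ≤ 1)
    (v σ : ℝ) (hv : 0 < v) (hσ : s * q k ≤ σ) (hI : Inv q s k v) :
    Inv q s (k + 1) (v + q k * v * (1 + v) / (v + σ)) := by
  intro t ht
  have hq := h0 k hk
  have hsR : (0 : ℝ) ≤ s := Nat.cast_nonneg s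
  have hσ0 : 0 ≤ σ := le_trans (by positivity) hσ
  have hvσ : 0 < v + σ := by linarith
  set Δ := q k * v * (1 + v) / (v + σ) with hΔ
  have hΔ0 : 0 ≤ Δ := by positivity
  have hΔe : Δ * (v + σ) = q k * v * (1 + v) := by rw [hΔ]; field_simp
  have hB0 : 0 ≤ F q k t := F_nonneg q s n (fun k hk => (h0 k hk).le) h1 k hk.le t ht.le
  have hC0 : 0 ≤ F q k (t + 1) := F_nonneg q s n (fun k hk => (h0 k hk).le) h1 k hk.le (t + 1) ht
  have hI1 := hI t ht
  have htq : ((t + 1 : ℕ) : ℝ) * q k ≤ s * q k := by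
    have : ((t + 1 : ℕ) : ℝ) ≤ s := by exact_mod_cast ht
    gcongr
  have htq1 : ((t + 1 : ℕ) : ℝ) * q k ≤ 1 := htq.trans (h1 k hk)
  simp only [F, Nat.add_sub_cancel]
  set B := F q k t with hB
  set C := F q k (t + 1) with hC
  -- `v (F_{k+1} t) ≤ B (v + t q)`
  have hL : v * ((1 - (t : ℝ) * q k) * B + (t : ℝ) * q k * F q k (t - 1)) ≤ B * (v + t * q k) := by
    rcases Nat.eq_zero_or_pos t with h | h
    · have : (t : ℝ) = 0 := by exact_mod_cast h
      rw [this]
      nlinarith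
    · have hI2 := hI (t - 1) (by omega)
      rw [Nat.sub_add_cancel h, ← hB] at hI2
      have ht0 : (0 : ℝ) ≤ (t : ℝ) * q k := by positivity
      nlinarith
  -- `(1 + v) F_{k+1}(t+1) ≥ B (v + (t+1) q)`
  have hR : B * (v + ((t + 1 : ℕ) : ℝ) * q k) ≤
      (1 + v) * ((1 - ((t + 1 : ℕ) : ℝ) * q k) * C + ((t + 1 : ℕ) : ℝ) * q k * B) := by
    have h3 : 0 ≤ 1 - ((t + 1 : ℕ) : ℝ) * q k := by linarith
    nlinarith
  set X := (1 - (t : ℝ) * q k) * B + (t : ℝ) * q k * F q k (t - 1) with hX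
  set Z := (1 - ((t + 1 : ℕ) : ℝ) * q k) * C + ((t + 1 : ℕ) : ℝ) * q k * B with hZ
  -- key scalar inequality
  have key : (v + Δ) * (1 + v) * (v + t * q k) ≤ (1 + (v + Δ)) * v * (v + ((t + 1 : ℕ) : ℝ) * q k) := by
    have h4 : Δ * (v + t * q k - v * q k) ≤ q k * v * (1 + v) := by
      rw [← hΔe]
      have h5 : v + t * q k - v * q k ≤ v + σ := by
        have h6 : (t : ℝ) * q k ≤ ((t + 1 : ℕ) : ℝ) * q k := by
          push_cast
          nlinarith
        have : 0 ≤ v * q k := by positivity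
        linarith
      gcongr
    push_cast
    nlinarith
  have h7 : (v + Δ) * (1 + v) * (v * X) ≤ (1 + (v + Δ)) * v * ((1 + v) * Z) := by
    calc (v + Δ) * (1 + v) * (v * X) ≤ (v + Δ) * (1 + v) * (B * (v + t * q k)) := by gcongr
      _ = B * ((v + Δ) * (1 + v) * (v + t * q k)) := by ring
      _ ≤ B * ((1 + (v + Δ)) * v * (v + ((t + 1 : ℕ) : ℝ) * q k)) := by gcongr
      _ = (1 + (v + Δ)) * v * (B * (v + ((t + 1 : ℕ) : ℝ) * q k)) := by ring
      _ ≤ _ := by gcongr
  have h8 : 0 < v * (1 + v) := by positivity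
  have h9 : (v * (1 + v)) * ((v + Δ) * X) ≤ (v * (1 + v)) * ((1 + (v + Δ)) * Z) := by
    calc (v * (1 + v)) * ((v + Δ) * X) = (v + Δ) * (1 + v) * (v * X) := by ring
      _ ≤ _ := h7
      _ = _ := by ring
  exact le_of_mul_le_mul_left h9 h8

/-- potential -/
noncomputable def Ψ (σ v : ℝ) : ℝ := Real.log (1 + v) + σ * (Real.log v - Real.log (1 + v))

theorem Ψ_step (s : ℕ) (hs : 1 ≤ s) (σ q v : ℝ) (hv : 0 < v) (hq : 0 < q) (hσ : s * q ≤ σ) (hσ1 : σ ≤ 1 / 2) :
    Ψ σ v + (1 - 1 / s) * q ≤ Ψ σ (v + q * v * (1 + v) / (v + σ)) := by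
  have hs0 : (1 : ℝ) ≤ s := by exact_mod_cast hs
  have hσ0 : 0 < σ := lt_of_lt_of_le (by positivity) hσ
  set A := q * (1 + v) / (v + σ) with hA
  set B := q * v / (v + σ) with hB
  have hA0 : 0 < A := by positivity
  have hB0 : 0 < B := by positivity
  have e1 : v + q * v * (1 + v) / (v + σ) = v * (1 + A) := by rw [hA]; ring
  have e2 : 1 + (v + q * v * (1 + v) / (v + σ)) = (1 + v) * (1 + B) := by rw [hB]; ring
  unfold Ψ
  rw [e2, e1, Real.log_mul (by positivity) (by positivity), Real.log_mul (by positivity) (by positivity)]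
  have hlog : ∀ x : ℝ, 0 < x → x ≤ 1 / s → x * (1 - 1 / s) ≤ Real.log (1 + x) := by
    intro x hx hxs
    have h1 := Real.one_sub_inv_le_log_of_pos (show 0 < 1 + x by linarith)
    refine le_trans ?_ h1
    have h2 : 1 - (1 + x)⁻¹ = x / (1 + x) := by field_simp; ring
    rw [h2, le_div_iff₀ (by linarith)]
    have h3 : (1 - 1 / (s : ℝ)) * (1 + x) ≤ 1 := by
      have h4 : 0 ≤ 1 / (s : ℝ) := by positivity
      nlinarith
    calc x * (1 - 1 / s) * (1 + x) = x * ((1 - 1 / s) * (1 + x)) := by ring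
      _ ≤ x * 1 := by gcongr
      _ = x := mul_one x
  have hAs : A ≤ 1 / s := by
    rw [hA, div_le_div_iff₀ (by positivity) (by positivity)]
    nlinarith
  have hBs : B ≤ 1 / s := by
    refine le_trans ?_ hAs
    rw [hA, hB]
    gcongr
    linarith
  have hlA := hlog A hA0 hAs
  have hlB := hlog B hB0 hBs
  have e3 : (1 - σ) * B + σ * A = q := by
    rw [hA, hB]
    field_simp
    ring
  have e4 : (1 - σ) * (B * (1 - 1 / s)) + σ * (A * (1 - 1 / s)) = (1 - 1 / s) * q := by
    rw [← e3]; ring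
  have e5 : (1 - σ) * (B * (1 - 1 / s)) ≤ (1 - σ) * Real.log (1 + B) := by
    have : 0 ≤ 1 - σ := by linarith
    gcongr
  have e6 : σ * (A * (1 - 1 / s)) ≤ σ * Real.log (1 + A) := by gcongr
  nlinarith

theorem F_diag (q : ℕ → ℝ) (n : ℕ) (κ : ℝ) (hκ : 0 < κ) (S : ℕ) (hq : ∀ k < n, κ ≤ q k)
    (h1 : ∀ k < n, S * q k ≤ 1) : ∀ s ≤ n, s ≤ S → κ ^ s ≤ F q s s := by
  intro s
  induction s with
  | zero => intro _ _; simp [F]
  | succ s ih =>
    intro hs hS
    have h2 := ih (by omega) (by omega)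
    simp only [F, Nat.add_sub_cancel]
    have h3 := hq s (by omega)
    have h4 : ((s + 1 : ℕ) : ℝ) * q s ≤ 1 := by
      refine le_trans ?_ (h1 s (by omega))
      have : 0 ≤ q s := hκ.le.trans h3
      gcongr
    have h5 : 0 ≤ F q s (s + 1) := F_nonneg q S n (fun k hk => hκ.le.trans (hq k hk)) h1 s (by omega)
      (s + 1) hS
    have h6 : 0 ≤ (1 - ((s + 1 : ℕ) : ℝ) * q s) * F q s (s + 1) := mul_nonneg (by linarith) h5
    have h7 : κ * κ ^ s ≤ ((s + 1 : ℕ) : ℝ) * q s * F q s s := by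
      have h8 : κ ≤ ((s + 1 : ℕ) : ℝ) * q s := by
        push_cast
        have : 0 ≤ (s : ℝ) := Nat.cast_nonneg s
        have : 0 < q s := hκ.trans_le h3
        nlinarith
      have h9 : 0 ≤ κ ^ s := by positivity
      calc κ * κ ^ s ≤ (((s + 1 : ℕ) : ℝ) * q s) * κ ^ s := by gcongr
        _ ≤ _ := by
          have h10 : 0 ≤ ((s + 1 : ℕ) : ℝ) * q s := hκ.le.trans h8
          exact mul_le_mul_of_nonneg_left h2 h10
    rw [pow_succ, mul_comm]
    linarith

/-- **Lower bound for the occupancy probability.** -/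
theorem F_lower (q : ℕ → ℝ) (n s : ℕ) (η κ : ℝ) (hκ : 0 < κ) (hκ1 : κ ≤ 1)
    (hq : ∀ k < n, κ ≤ q k ∧ q k ≤ η) (hsη : s * η ≤ 1 / 2) (hs : 1 ≤ s) (hsn : s ≤ n) (d : ℝ)
    (hd : Real.exp (-((1 - 1 / s) * (∑ i ∈ range n, q i - s * η)) +
      s * η * (s * Real.log (1 / κ) + Real.log 2)) ≤ d) (hd1 : d ≤ 1) :
    ∀ t ≤ s, (1 - d) ^ t ≤ F q n t := by
  have hsR : (1 : ℝ) ≤ s := by exact_mod_cast hs
  have hη : 0 < η := hκ.trans_le ((hq 0 (by omega)).1.trans (hq 0 (by omega)).2)
  have h0 : ∀ k < n, 0 < q k := fun k hk => hκ.trans_le (hq k hk).1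
  have h1 : ∀ k < n, (s : ℝ) * q k ≤ 1 := fun k hk => by
    have := (hq k hk).2
    have : (s : ℝ) * q k ≤ s * η := by gcongr
    linarith
  set σ := (s : ℝ) * η with hσ
  have hσ0 : 0 < σ := by positivity
  have main : ∀ k, s ≤ k → k ≤ n → ∃ v : ℝ, 0 < v ∧ Inv q s k v ∧
      Ψ σ (κ ^ s) + (1 - 1 / s) * ∑ i ∈ Ico s k, q i ≤ Ψ σ v := by
    intro k hk
    induction k, hk using Nat.le_induction with
    | base =>
      intro _
      refine ⟨κ ^ s, by positivity, ?_, by simp⟩
      intro t ht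
      have e1 := F_diag q n κ hκ s (fun k hk => (hq k hk).1) h1 s hsn le_rfl
      have e2 : F q s s ≤ F q s (t + 1) := by
        have : ∀ u, t + 1 ≤ u → u ≤ s → F q s u ≤ F q s (t + 1) := by
          intro u hu
          induction u, hu using Nat.le_induction with
          | base => intro _; exact le_rfl
          | succ u hu ih =>
            intro hus
            exact (F_anti q s n (fun k hk => (h0 k hk).le) h1 s hsn u (by omega)).trans (ih (by omega))
        exact this s ht le_rfl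
      have e3 := F_le_one q s n (fun k hk => (h0 k hk).le) h1 s hsn t ht.le
      have e4 : 0 < κ ^ s := by positivity
      have e5 : 0 ≤ F q s (t + 1) := e4.le.trans (e1.trans e2)
      nlinarith
    | succ k hk ih =>
      intro hkn
      obtain ⟨v, hv, hI, hΨ⟩ := ih (by omega)
      have hqk := hq k (by omega)
      refine ⟨v + q k * v * (1 + v) / (v + σ), ?_, Inv_step q s n k (by omega) h0 h1 v σ hv ?_ hI, ?_⟩
      · have := h0 k (by omega)
        positivity
      · rw [hσ]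
        have := hqk.2
        gcongr
      · have hst := Ψ_step s hs σ (q k) v hv (h0 k (by omega)) (by rw [hσ]; have := hqk.2; gcongr) hsη
        rw [sum_Ico_succ_top hk]
        nlinarith
  obtain ⟨v, hv, hI, hΨ⟩ := main n hsn le_rfl
  -- the value
  have hv1 : 1 / (1 + v) ≤ d := by
    refine le_trans ?_ hd
    have e1 : Real.log (1 + v) ≥ Ψ σ v := by
      unfold Ψ
      have : Real.log v ≤ Real.log (1 + v) := Real.log_le_log hv (by linarith)
      nlinarith
    have e2 : Ψ σ (κ ^ s) ≥ -(s * η * (s * Real.log (1 / κ) + Real.log 2)) := by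
      unfold Ψ
      have hk : 0 < κ ^ s := by positivity
      have hk1 : κ ^ s ≤ 1 := pow_le_one₀ hκ.le hκ1
      have e3 : 0 ≤ Real.log (1 + κ ^ s) := Real.log_nonneg (by linarith)
      have e4 : Real.log (1 + κ ^ s) ≤ Real.log 2 := Real.log_le_log (by linarith) (by linarith)
      rw [Real.log_pow, one_div, Real.log_inv, ← hσ]
      nlinarith
    have e5 : ∑ i ∈ range n, q i - s * η ≤ ∑ i ∈ Ico s n, q i := by
      rw [← sum_range_add_sum_Ico q hsn]
      have : ∑ i ∈ range s, q i ≤ s * η := by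
        calc ∑ i ∈ range s, q i ≤ ∑ i ∈ range s, η := sum_le_sum fun i hi =>
              (hq i (by have := mem_range.1 hi; omega)).2
          _ = s * η := by simp
      linarith
    have e6 : 0 ≤ 1 - 1 / (s : ℝ) := by
      have : 1 / (s : ℝ) ≤ 1 := by rw [div_le_one (by positivity)]; exact hsR
      linarith
    have e7 : (1 - 1 / (s : ℝ)) * (∑ i ∈ range n, q i - s * η) ≤ (1 - 1 / s) * ∑ i ∈ Ico s n, q i := by
      gcongr
    have e8 : 1 / (1 + v) = Real.exp (-Real.log (1 + v)) := by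
      rw [Real.exp_neg, Real.exp_log (by linarith), one_div]
    rw [e8]
    apply Real.exp_le_exp.2
    linarith
  intro t
  induction t with
  | zero => intro _; simp [F_zero_right]
  | succ t ih =>
    intro ht
    have h2 := ih (by omega)
    have h3 := hI t (by omega)
    have h4 : 0 ≤ F q n t := F_nonneg q s n (fun k hk => (h0 k hk).le) h1 n le_rfl t (by omega)
    have h5 : 0 ≤ F q n (t + 1) := F_nonneg q s n (fun k hk => (h0 k hk).le) h1 n le_rfl (t + 1) ht
    have h6 : (v / (1 + v)) * F q n t ≤ F q n (t + 1) := by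
      rw [div_mul_eq_mul_div, div_le_iff₀ (by linarith)]
      linarith
    have h7 : 1 - d ≤ v / (1 + v) := by
      have : v / (1 + v) = 1 - 1 / (1 + v) := by field_simp; ring
      linarith
    have h8 : 0 ≤ 1 - d := by linarith
    calc (1 - d) ^ (t + 1) = (1 - d) * (1 - d) ^ t := by ring
      _ ≤ (v / (1 + v)) * F q n t := mul_le_mul h7 h2 (by positivity) (by positivity)
      _ ≤ _ := h6

end Pool.Agent.T2H32.BF
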