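import Pool.Agent.T2H32.BF.Two
import Pool.Agent.T2H32.BF.Count

set_option autoImplicit false

/-! # Blocks at one scale -/

open Finset MeasureTheory ProbabilityTheory

namespace Pool.Agent.T2H32.BF

variable {Ω : Type*} [MeasurableSpace Ω] {P : Measure Ω} {a : ℕ → Ω → ℕ}

/-- primes up to `w` -/
def PW (w : ℕ) : Finset ℕ := (range (w + 1)).filter Nat.Prime
/-- primes in `(m, n]` -/
def PI (m n : ℕ) : Finset ℕ := (Ioc m n).filter Nat.Prime

theorem exists_N0 (w : ℕ) (b : ℕ → ℕ) : ∃ n, n < primorial w ∧ ∀ p ∈ PW w, n % p = b p % p := by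
  have hs : ∀ i ∈ PW w, (fun i : ℕ => i) i ≠ 0 := fun i hi => (mem_filter.1 hi).2.ne_zero
  have pp : Set.Pairwise (↑(PW w)) (Function.onFun Nat.Coprime (fun i : ℕ => i)) := by
    intro i hi j hj hij
    have h1 := (mem_filter.1 (mem_coe.1 hi)).2
    have h2 := (mem_filter.1 (mem_coe.1 hj)).2
    exact (Nat.coprime_primes h1 h2).2 hij
  refine ⟨Nat.chineseRemainderOfFinset b (fun i => i) (PW w) hs pp, ?_, ?_⟩
  · exact Nat.chineseRemainderOfFinset_lt_prod b (fun i => i) hs pp
  · exact fun p hp => (Nat.chineseRemainderOfFinset b (fun i => i) (PW w) hs pp).2 p hp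

/-- auxiliary -/
noncomputable def N00 (w : ℕ) (b : ℕ → ℕ) : ℕ := Classical.choose (exists_N0 w b)

/-- the class modulo the primes up to `w` -/
noncomputable def N0 (w : ℕ) (b : ℕ → ℕ) : ℕ := N00 w (fun p => if p ∈ PW w then b p else 0)

theorem N0_lt (w : ℕ) (b : ℕ → ℕ) : N0 w b < primorial w :=
  (Classical.choose_spec (exists_N0 w (fun p => if p ∈ PW w then b p else 0))).1

theorem N0_mod (w : ℕ) (b : ℕ → ℕ) (p : ℕ) (hp : p ∈ PW w) : N0 w b % p = b p % p := by
  have h := (Classical.choose_spec (exists_N0 w (fun p => if p ∈ PW w then b p else 0))).2 p hp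
  rw [if_pos hp] at h
  exact h

theorem N0_congr (w : ℕ) (b b' : ℕ → ℕ) (h : ∀ p ∈ PW w, b p = b' p) : N0 w b = N0 w b' := by
  have e : (fun p => if p ∈ PW w then b p else 0) = (fun p => if p ∈ PW w then b' p else 0) := by
    funext p
    split_ifs with hp
    · exact h p hp
    · rfl
  unfold N0
  rw [e]

/-- position of the block `i` -/
noncomputable def pos (w y : ℕ) (b : ℕ → ℕ) (i : ℕ) : ℕ := N0 w b + primorial w * (4 * y) * i

theorem pos_congr (w y : ℕ) (b b' : ℕ → ℕ) (i : ℕ) (h : ∀ p ∈ PW w, b p = b' p) :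
    pos w y b i = pos w y b' i := by
  unfold pos
  rw [N0_congr w b b' h]

theorem pos_mod (w y : ℕ) (b : ℕ → ℕ) (i p : ℕ) (hp : p ∈ PW w) : pos w y b i % p = b p % p := by
  have h1 : p ∣ primorial w * (4 * y) * i := by
    have : p ∣ primorial w := by
      unfold primorial
      exact dvd_prod_of_mem _ hp
    exact (this.mul_right _).mul_right _
  unfold pos
  rw [Nat.add_mod, Nat.mod_eq_zero_of_dvd h1, add_zero, Nat.mod_mod, N0_mod w b p hp]

/-- shifted set -/
noncomputable def US (w y : ℕ) (A : Finset ℕ) (b : ℕ → ℕ) (i : ℕ) : Finset ℕ :=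
  (rough w A).image (fun m => pos w y b i + m)

theorem US_card (w y : ℕ) (A : Finset ℕ) (b : ℕ → ℕ) (i : ℕ) : (US w y A b i).card = (rough w A).card :=
  card_image_of_injective _ (add_right_injective _)

/-- those surviving the primes in `(w, Y]` -/
noncomputable def TS (w y Y : ℕ) (A : Finset ℕ) (b : ℕ → ℕ) (i : ℕ) : Finset ℕ :=
  (US w y A b i).filter (fun u => ∀ p ∈ PI w Y, u % p ≠ b p)

theorem US_congr (w y : ℕ) (A : Finset ℕ) (b b' : ℕ → ℕ) (i : ℕ) (h : ∀ p ∈ PW w, b p = b' p) :
    US w y A b i = US w y A b' i := by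
  unfold US
  rw [pos_congr w y b b' i h]

theorem TS_congr (w y Y : ℕ) (A : Finset ℕ) (b b' : ℕ → ℕ) (i : ℕ) (h : ∀ p ∈ PW w ∪ PI w Y, b p = b' p) :
    TS w y Y A b i = TS w y Y A b' i := by
  unfold TS
  rw [US_congr w y A b b' i (fun p hp => h p (mem_union_left _ hp))]
  refine filter_congr fun u _ => ?_
  constructor
  · intro h1 p hp
    rw [← h p (mem_union_right _ hp)]
    exact h1 p hp
  · intro h1 p hp
    rw [h p (mem_union_right _ hp)]
    exact h1 p hp

/-- the block `i` is good -/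
def good (w y Y s v : ℕ) (b : ℕ → ℕ) (i : ℕ) : Prop :=
  (TS w y Y (Ioc 0 y) b i).card ≤ s ∧ v ≤ (TS w y Y (Ioc y (2 * y)) b i).card

/-- the block `i` is sieved out, the next one is not -/
def Blk (w y Y Z Z' : ℕ) (b : ℕ → ℕ) (i : ℕ) : Prop :=
  (∀ u ∈ TS w y Y (Ioc 0 y) b i, ∃ p ∈ PI Y Z, u % p = b p) ∧
    ¬ (∀ u ∈ TS w y Y (Ioc y (2 * y)) b i, ∃ p ∈ PI Y Z', u % p = b p)

theorem cnt_measurable {ι : Type*} (I : Finset ι) (E : ι → Set Ω) (hE : ∀ i ∈ I, MeasurableSet (E i)) :
    Measurable (cnt I E) := by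
  unfold cnt
  exact Finset.measurable_sum _ fun i hi => (measurable_const (a := (1 : ℝ))).indicator (hE i hi)

theorem markov_cnt [IsProbabilityMeasure P] {ι : Type*} (I : Finset ι) (E : ι → Set Ω)
    (hE : ∀ i ∈ I, MeasurableSet (E i)) (t : ℝ) (ht : 0 < t) :
    P.real {ω | t ≤ cnt I E ω} ≤ (∑ i ∈ I, P.real (E i)) / t := by
  have hint : ∫ ω, cnt I E ω ∂P = ∑ i ∈ I, P.real (E i) := by
    unfold cnt
    rw [integral_finsetSum _ fun k hk => (integrable_const (1 : ℝ)).indicator (hE k hk)]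
    refine Finset.sum_congr rfl fun k hk => ?_
    rw [integral_indicator_const _ (hE k hk)]
    simp
  have hi : Integrable (cnt I E) P := by
    unfold cnt
    exact integrable_finsetSum _ fun k hk => (integrable_const (1 : ℝ)).indicator (hE k hk)
  have h0 : 0 ≤ᵐ[P] cnt I E := Filter.Eventually.of_forall fun ω =>
    Finset.sum_nonneg fun _ _ => Set.indicator_nonneg (fun _ _ => zero_le_one) _
  have := mul_meas_ge_le_integral_of_nonneg h0 hi t
  rw [hint] at this
  rw [le_div_iff₀ ht, mul_comm]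
  exact this

omit [MeasurableSpace Ω] in
theorem cnt_surv (U B : Finset ℕ) (ω : Ω) : cnt U (fun u => Surv a B {u}) ω =
    ((U.filter (fun u => ∀ p ∈ B, u % p ≠ a p ω)).card : ℝ) := by
  classical
  unfold cnt
  rw [card_filter, Nat.cast_sum]
  refine sum_congr rfl fun u _ => ?_
  by_cases h : ∀ p ∈ B, u % p ≠ a p ω
  · rw [if_pos h, Set.indicator_of_mem]
    · simp
    · intro p hp u' hu'
      rw [mem_singleton.1 hu']
      exact h p hp
  · rw [if_neg h, Set.indicator_of_notMem]
    · simp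
    · intro h1
      exact h fun p hp => h1 p hp u (mem_singleton_self u)

theorem card_dvd_diff' (L : Finset ℕ) (hL : ∀ p ∈ L, p.Prime) (u u' X : ℕ) (hne : u ≠ u')
    (hu : u ≤ u' + X) (hu' : u' ≤ u + X) : (L.filter (fun p => u % p = u' % p)).card ≤ Nat.log 2 X := by
  wlog huu : u < u' generalizing u u'
  · have h1 := this u' u hne.symm hu' hu (by omega)
    have e : L.filter (fun p => u % p = u' % p) = L.filter (fun p => u' % p = u % p) := by
      ext p
      simp only [mem_filter, eq_comm]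
    rw [e]
    exact h1
  set D := u' - u with hD
  have hD0 : 0 < D := by omega
  have hsub : L.filter (fun p => u % p = u' % p) ⊆ D.primeFactors := by
    intro p hp
    rw [mem_filter] at hp
    rw [Nat.mem_primeFactors]
    refine ⟨hL p hp.1, ?_, hD0.ne'⟩
    have h1 : u ≡ u' [MOD p] := hp.2
    exact (Nat.modEq_iff_dvd' huu.le).1 h1
  refine (card_le_card hsub).trans ?_
  have h1 : 2 ^ D.primeFactors.card ≤ D := by
    calc 2 ^ D.primeFactors.card ≤ ∏ p ∈ D.primeFactors, p :=
          pow_card_le_prod _ _ _ fun p hp => (Nat.prime_of_mem_primeFactors hp).two_le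
      _ ≤ D := Nat.le_of_dvd hD0 (Nat.prod_primeFactors_dvd D)
  have h2 : 2 ^ D.primeFactors.card ≤ X := h1.trans (by omega)
  exact Nat.le_log_of_pow_le (by norm_num) h2

/-- the correlation factor -/
theorem rho_bound (w Y y : ℕ) (U : Finset ℕ) (n : ℕ) (hw : 1 ≤ w) (hU : ∀ u ∈ U, n ≤ u ∧ u ≤ n + 2 * y) :
    ∀ u ∈ U, ∀ u' ∈ U, u ≠ u' → ∏ p ∈ (PI w Y).filter (fun p => u % p = u' % p), (1 - 1 / (p : ℝ))⁻¹ ≤
      ((1 - 1 / ((w : ℝ) + 1))⁻¹) ^ Nat.log 2 (2 * y) := by
  intro u hu u' hu' hne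
  have hw0 : (1 : ℝ) ≤ w := by exact_mod_cast hw
  have h1 : 1 / ((w : ℝ) + 1) ≤ 1 / 2 := by gcongr; linarith
  have h0 : 0 < 1 - 1 / ((w : ℝ) + 1) := by linarith
  have h1' : 0 < 1 / ((w : ℝ) + 1) := by positivity
  have h2 : (1 : ℝ) ≤ (1 - 1 / ((w : ℝ) + 1))⁻¹ := by
    rw [one_le_inv₀ h0]
    linarith
  have h3 : ∀ p ∈ (PI w Y).filter (fun p => u % p = u' % p), (1 - 1 / (p : ℝ))⁻¹ ≤
      (1 - 1 / ((w : ℝ) + 1))⁻¹ := by
    intro p hp
    have hp1 := (mem_filter.1 hp).1
    unfold PI at hp1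
    rw [mem_filter, mem_Ioc] at hp1
    have h4 : (w : ℝ) + 1 ≤ p := by exact_mod_cast hp1.1.1
    have h5 : 1 / (p : ℝ) ≤ 1 / ((w : ℝ) + 1) := by gcongr
    apply inv_anti₀ h0
    linarith
  have hpos : ∀ p ∈ (PI w Y).filter (fun p => u % p = u' % p), 0 ≤ (1 - 1 / (p : ℝ))⁻¹ := by
    intro p hp
    have hp1 := (mem_filter.1 hp).1
    unfold PI at hp1
    have h4 : (1 : ℝ) ≤ p := by exact_mod_cast (mem_filter.1 hp1).2.one_le
    rw [inv_nonneg, sub_nonneg, div_le_one (by linarith)]
    exact h4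
  calc ∏ p ∈ (PI w Y).filter (fun p => u % p = u' % p), (1 - 1 / (p : ℝ))⁻¹
      ≤ ∏ p ∈ (PI w Y).filter (fun p => u % p = u' % p), (1 - 1 / ((w : ℝ) + 1))⁻¹ :=
        prod_le_prod hpos h3
    _ = ((1 - 1 / ((w : ℝ) + 1))⁻¹) ^ ((PI w Y).filter (fun p => u % p = u' % p)).card := by
        rw [prod_const]
    _ ≤ _ := by
        refine pow_le_pow_right₀ h2 ?_
        refine card_dvd_diff' (PI w Y) (fun p hp => (mem_filter.1 hp).2) u u' (2 * y) hne ?_ ?_
        · have := hU u hu
          have := hU u' hu'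
          omega
        · have := hU u hu
          have := hU u' hu'
          omega

open Classical in
/-- **First phase.** -/
theorem phase1 (h : Model P a) (w y Y s v i0 : ℕ) (hw : 1 ≤ w) (hi0 : 0 < i0)
    (W ρ ε μ μ' : ℝ) (hW : W = ∏ p ∈ PI w Y, (1 - 1 / (p : ℝ)))
    (hρ : ρ = ((1 - 1 / ((w : ℝ) + 1))⁻¹) ^ Nat.log 2 (2 * y))
    (hμ : μ = (rough w (Ioc 0 y)).card * W) (hμ' : μ' = (rough w (Ioc y (2 * y))).card * W)
    (hμ0 : 0 < μ) (hμ'0 : 0 < μ') (hε : 0 < ε)
    (hs : (1 + ε) * μ ≤ s + 1) (hv : (v : ℝ) - 1 ≤ μ' / 2) :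
    P.real {ω | (i0 : ℝ) / 2 ≤
      (((Ico i0 (2 * i0)).filter (fun i => ¬ good w y Y s v (fun p => a p ω) i)).card : ℝ)} ≤
      2 * ((μ ^ 2 * (ρ - 1) + μ) / (ε * μ) ^ 2 + (μ' ^ 2 * (ρ - 1) + μ') / (μ' / 2) ^ 2) := by
  have := prob h
  have hw0 : (1 : ℝ) ≤ w := by exact_mod_cast hw
  have h0 : 0 < 1 - 1 / ((w : ℝ) + 1) := by
    have h1 : 1 / ((w : ℝ) + 1) ≤ 1 / 2 := by gcongr; linarith
    linarith
  have hρ1 : 1 ≤ ρ := by
    rw [hρ]
    apply one_le_pow₀
    rw [one_le_inv₀ h0]
    have h1' : 0 < 1 / ((w : ℝ) + 1) := by positivity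
    linarith
  set η := (μ ^ 2 * (ρ - 1) + μ) / (ε * μ) ^ 2 + (μ' ^ 2 * (ρ - 1) + μ') / (μ' / 2) ^ 2 with hη
  have hρ0 : 0 ≤ ρ - 1 := by linarith
  have hη0 : 0 ≤ η := by positivity
  have hi0R : (0 : ℝ) < i0 := by exact_mod_cast hi0
  refine cond h (PW w) (PI w Y) ?_ (fun b => (i0 : ℝ) / 2 ≤
      (((Ico i0 (2 * i0)).filter (fun i => ¬ good w y Y s v b i)).card : ℝ)) ?_ (2 * η) (by positivity) ?_
  · rw [disjoint_left]
    intro p hp hp'
    unfold PW at hp
    unfold PI at hp'
    rw [mem_filter, mem_range] at hp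
    rw [mem_filter, mem_Ioc] at hp'
    omega
  · intro b b' hbb
    have e : ∀ i, good w y Y s v b i ↔ good w y Y s v b' i := by
      intro i
      unfold good
      rw [TS_congr w y Y _ b b' i hbb, TS_congr w y Y _ b b' i hbb]
    have e2 : (Ico i0 (2 * i0)).filter (fun i => ¬ good w y Y s v b i) =
        (Ico i0 (2 * i0)).filter (fun i => ¬ good w y Y s v b' i) :=
      filter_congr fun i _ => not_congr (e i)
    simp only [e2]
  · intro α
    -- the exceptional events
    set U := fun i => US w y (Ioc 0 y) α i with hU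
    set U' := fun i => US w y (Ioc y (2 * y)) α i with hU'
    set E : ℕ → Set Ω := fun i =>
      {ω | ε * μ ≤ |cnt (U i) (fun u => Surv a (PI w Y) {u}) ω - (U i).card * ∏ p ∈ PI w Y, (1 - 1 / (p : ℝ))|} ∪
      {ω | μ' / 2 ≤ |cnt (U' i) (fun u => Surv a (PI w Y) {u}) ω - (U' i).card * ∏ p ∈ PI w Y, (1 - 1 / (p : ℝ))|}
      with hE
    have hUc : ∀ i, ((U i).card : ℝ) * ∏ p ∈ PI w Y, (1 - 1 / (p : ℝ)) = μ := by
      intro i
      rw [hU, ← hW]
      simp only
      rw [US_card, hμ]
    have hU'c : ∀ i, ((U' i).card : ℝ) * ∏ p ∈ PI w Y, (1 - 1 / (p : ℝ)) = μ' := by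
      intro i
      rw [hU', ← hW]
      simp only
      rw [US_card, hμ']
    have hEm : ∀ i ∈ Ico i0 (2 * i0), MeasurableSet (E i) := by
      intro i _
      refine MeasurableSet.union ?_ ?_
      · exact measurableSet_le measurable_const
          ((cnt_measurable _ _ fun u _ => Surv_meas h _ _).sub_const _).abs
      · exact measurableSet_le measurable_const
          ((cnt_measurable _ _ fun u _ => Surv_meas h _ _).sub_const _).abs
    have hrough : ∀ (A : Finset ℕ) i, (∀ m ∈ A, m ≤ 2 * y) → ∀ u ∈ US w y A α i,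
        pos w y α i ≤ u ∧ u ≤ pos w y α i + 2 * y := by
      intro A i hA u hu
      unfold US at hu
      rw [mem_image] at hu
      obtain ⟨m, hm, rfl⟩ := hu
      have := hA m (mem_filter.1 hm).1
      omega
    have hEp : ∀ i ∈ Ico i0 (2 * i0), P.real (E i) ≤ η := by
      intro i _
      refine (measureReal_union_le _ _).trans ?_
      have e1 := surv_conc h (U i) (PI w Y) (fun p hp => (mem_filter.1 hp).2) ρ (by
        rw [hρ]
        exact rho_bound w Y y (U i) (pos w y α i) hw (hrough _ i (fun m hm => by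
          have := mem_Ioc.1 hm
          omega))) hρ1 (ε * μ) (by positivity)
      have e2 := surv_conc h (U' i) (PI w Y) (fun p hp => (mem_filter.1 hp).2) ρ (by
        rw [hρ]
        exact rho_bound w Y y (U' i) (pos w y α i) hw (hrough _ i (fun m hm => by
          have := mem_Ioc.1 hm
          omega))) hρ1 (μ' / 2) (by positivity)
      simp only [hUc, hU'c] at e1 e2 ⊢
      exact add_le_add e1 e2
    have hsub : {ω | (i0 : ℝ) / 2 ≤ (((Ico i0 (2 * i0)).filter
        (fun i => ¬ good w y Y s v (fun p => if p ∈ PW w then α p else a p ω) i)).card : ℝ)} ⊆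
        {ω | (i0 : ℝ) / 2 ≤ cnt (Ico i0 (2 * i0)) E ω} := by
      intro ω hω
      have hω : (i0 : ℝ) / 2 ≤ (((Ico i0 (2 * i0)).filter
        (fun i => ¬ good w y Y s v (fun p => if p ∈ PW w then α p else a p ω) i)).card : ℝ) := hω
      show (i0 : ℝ) / 2 ≤ cnt (Ico i0 (2 * i0)) E ω
      refine hω.trans ?_
      unfold cnt
      rw [card_filter, Nat.cast_sum]
      refine sum_le_sum fun i _ => ?_
      by_cases hE1 : ω ∈ E i
      · rw [Set.indicator_of_mem hE1]
        split_ifs <;> simp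
      · rw [Set.indicator_of_notMem hE1]
        have hgood : good w y Y s v (fun p => if p ∈ PW w then α p else a p ω) i := by
          simp only [hE, Set.mem_union, Set.mem_ofPred_eq, not_or, not_le, hUc, hU'c, cnt_surv] at hE1
          obtain ⟨h1, h2⟩ := hE1
          have hTS : ∀ A, TS w y Y A (fun p => if p ∈ PW w then α p else a p ω) i =
              (US w y A α i).filter (fun u => ∀ p ∈ PI w Y, u % p ≠ a p ω) := by
            intro A
            unfold TS
            rw [US_congr w y A (fun p => if p ∈ PW w then α p else a p ω) α i (fun p hp => if_pos hp)]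
            refine filter_congr fun u _ => ?_
            have hnot : ∀ p ∈ PI w Y, p ∉ PW w := by
              intro p hp' hp
              unfold PW at hp
              unfold PI at hp'
              rw [mem_filter, mem_range] at hp
              rw [mem_filter, mem_Ioc] at hp'
              omega
            constructor
            · intro h3 p hp
              have := h3 p hp
              simp only [if_neg (hnot p hp)] at this
              exact this
            · intro h3 p hp
              simp only [if_neg (hnot p hp)]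
              exact h3 p hp
          rw [abs_lt] at h1 h2
          constructor
          · rw [hTS]
            have h3 : (((US w y (Ioc 0 y) α i).filter (fun u => ∀ p ∈ PI w Y, u % p ≠ a p ω)).card : ℝ) <
                s + 1 := by linarith [h1.2]
            have h4 : ((US w y (Ioc 0 y) α i).filter (fun u => ∀ p ∈ PI w Y, u % p ≠ a p ω)).card < s + 1 := by
              exact_mod_cast h3
            omega
          · rw [hTS]
            have h3 : (v : ℝ) - 1 <
                (((US w y (Ioc y (2 * y)) α i).filter (fun u => ∀ p ∈ PI w Y, u % p ≠ a p ω)).card : ℝ) := by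
              linarith [h2.1]
            have h4 : v < ((US w y (Ioc y (2 * y)) α i).filter (fun u => ∀ p ∈ PI w Y, u % p ≠ a p ω)).card + 1 := by
              have : (v : ℝ) <
                (((US w y (Ioc y (2 * y)) α i).filter (fun u => ∀ p ∈ PI w Y, u % p ≠ a p ω)).card : ℝ) + 1 := by
                linarith
              exact_mod_cast this
            omega
        rw [if_neg (not_not.2 hgood)]
        simp
    refine (measureReal_mono hsub).trans ((markov_cnt _ E hEm _ (by positivity)).trans ?_)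
    rw [div_le_iff₀ (by positivity)]
    calc ∑ i ∈ Ico i0 (2 * i0), P.real (E i) ≤ ∑ i ∈ Ico i0 (2 * i0), η := sum_le_sum hEp
      _ = i0 * η := by
          rw [sum_const, Nat.card_Ico, nsmul_eq_mul]
          congr 2
          omega
      _ = 2 * η * (i0 / 2) := by ring

end Pool.Agent.T2H32.BF
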