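import Pool.Agent.T2H32.BF.Scale

set_option autoImplicit false

/-! # Second phase at one scale, and the union of the two phases -/

open Finset MeasureTheory ProbabilityTheory

namespace Pool.Agent.T2H32.BF

variable {Ω : Type*} [MeasurableSpace Ω] {P : Measure Ω} {a : ℕ → Ω → ℕ}

theorem US_mem (w y : ℕ) (A : Finset ℕ) (b : ℕ → ℕ) (i u : ℕ) (hu : u ∈ US w y A b i) :
    ∃ m ∈ A, (∀ p ≤ w, p.Prime → ¬ p ∣ m) ∧ u = pos w y b i + m := by
  unfold US rough at hu
  rw [mem_image] at hu
  obtain ⟨m, hm, rfl⟩ := hu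
  rw [mem_filter] at hm
  exact ⟨m, hm.1, hm.2, rfl⟩

theorem TS_sub (w y Y : ℕ) (A : Finset ℕ) (b : ℕ → ℕ) (i : ℕ) : TS w y Y A b i ⊆ US w y A b i :=
  filter_subset _ _

theorem pos_lt (w y : ℕ) (hy : 1 ≤ y) (b : ℕ → ℕ) (i j : ℕ) (hij : i < j) :
    pos w y b i + 2 * y < pos w y b j := by
  unfold pos
  have h1 : 1 ≤ primorial w := primorial_pos w
  have h2 : primorial w * (4 * y) * i + primorial w * (4 * y) ≤ primorial w * (4 * y) * j := by
    calc primorial w * (4 * y) * i + primorial w * (4 * y) = primorial w * (4 * y) * (i + 1) := by ring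
      _ ≤ _ := Nat.mul_le_mul_left _ hij
  have h3 : 4 * y ≤ primorial w * (4 * y) := Nat.le_mul_of_pos_left _ h1
  omega

theorem pos_le (w y i0 X : ℕ) (hy : 1 ≤ y) (hX : primorial w * (4 * y) * (2 * i0) ≤ X) (b : ℕ → ℕ) (i : ℕ)
    (hi : i < 2 * i0) : pos w y b i + 2 * y ≤ X := by
  have h0 := N0_lt w b
  unfold pos
  have h1 : 1 ≤ primorial w := primorial_pos w
  have h2 : primorial w * (4 * y) * i + primorial w * (4 * y) ≤ primorial w * (4 * y) * (2 * i0) := by
    calc primorial w * (4 * y) * i + primorial w * (4 * y) = primorial w * (4 * y) * (i + 1) := by ring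
      _ ≤ _ := Nat.mul_le_mul_left _ hi
  have h3 : primorial w + 2 * y ≤ primorial w * (4 * y) := by nlinarith
  omega

open Classical in
/-- **Second phase.** -/
theorem phase2' (h : Model P a) (w y Y Z Z' X s v i0 : ℕ) (hy : 1 ≤ y) (hyY : 2 * y ≤ Y)
    (hwY : w ≤ Y) (hZZ : Z ≤ Z') (hi0 : 0 < i0)
    (hX : primorial w * (4 * y) * (2 * i0) ≤ X)
    (δ δ' d : ℝ) (hδ : δ = ∏ p ∈ PI Y Z, (1 - 1 / (p : ℝ))) (hδ' : δ' = ∏ p ∈ PI Y Z', (1 - 1 / (p : ℝ)))
    (hδ2 : δ ≤ 1 / 2) (hδd : δ ≤ d) (hd : d < 1)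
    (hlow : ∀ U : Finset ℕ, U.card ≤ s → (∀ p ∈ PI Y Z, Set.InjOn (fun u => u % p) U) →
      (1 - d) ^ U.card ≤ P.real (Kill a U (PI Y Z)))
    (τ ξ : ℝ) (hτ0 : 0 ≤ τ) (hτ : τ ≤ 1 / 2) (hξ0 : 0 ≤ ξ)
    (hξ : Real.exp (8 * s ^ 3 * Nat.log 2 X / Y) * ((1 - δ) / (1 - d)) ^ (2 * s) ≤ 1 + ξ)
    (hττ : ∀ t ≤ s, (1 - δ') ^ (t + v) ≤ τ * (1 - d) ^ t) :
    P.real {ω | (i0 : ℝ) / 2 <
        (((Ico i0 (2 * i0)).filter (fun i => good w y Y s v (fun p => a p ω) i)).card : ℝ) ∧
      (((Ico i0 (2 * i0)).filter (fun i => good w y Y s v (fun p => a p ω) i ∧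
        Blk w y Y Z Z' (fun p => a p ω) i)).card : ℝ) < i0 * (1 - d) ^ s / 8} ≤
      32 / (i0 * (1 - d) ^ s) + 16 * (ξ + 2 * τ) := by
  have := prob h
  have h1d : 0 < 1 - d := by linarith
  have hi0R : (0 : ℝ) < i0 := by exact_mod_cast hi0
  have hY0 : 0 < Y := by omega
  have hη : 0 ≤ 32 / (i0 * (1 - d) ^ s) + 16 * (ξ + 2 * τ) := by positivity
  have hdisj : ∀ p ∈ PI Y Z', p ∉ PW w ∪ PI w Y := by
    intro p hp' hp
    unfold PI at hp'
    rw [mem_filter, mem_Ioc] at hp'
    rw [mem_union] at hp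
    unfold PW PI at hp
    rw [mem_filter, mem_filter, mem_range, mem_Ioc] at hp
    omega
  have hsubZ : PI Y Z ⊆ PI Y Z' := by
    unfold PI
    exact filter_subset_filter _ (Ioc_subset_Ioc_right hZZ)
  refine cond h (PW w ∪ PI w Y) (PI Y Z') (disjoint_right.2 hdisj)
    (fun b => (i0 : ℝ) / 2 < (((Ico i0 (2 * i0)).filter (fun i => good w y Y s v b i)).card : ℝ) ∧
      (((Ico i0 (2 * i0)).filter (fun i => good w y Y s v b i ∧ Blk w y Y Z Z' b i)).card : ℝ) <
        i0 * (1 - d) ^ s / 8) ?_ _ hη ?_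
  · intro b b' hbb
    have hTS : ∀ A i, TS w y Y A b i = TS w y Y A b' i := fun A i =>
      TS_congr w y Y A b b' i (fun p hp => hbb p (mem_union_left _ hp))
    have e : ∀ i, good w y Y s v b i ↔ good w y Y s v b' i := by
      intro i
      unfold good
      rw [hTS, hTS]
    have e' : ∀ i, Blk w y Y Z Z' b i ↔ Blk w y Y Z Z' b' i := by
      intro i
      unfold Blk
      rw [hTS, hTS]
      have hex : ∀ u : ℕ, ∀ L ⊆ PI Y Z', (∃ p ∈ L, u % p = b p) ↔ (∃ p ∈ L, u % p = b' p) := by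
        intro u L hL
        constructor
        · rintro ⟨p, hp, h2⟩
          exact ⟨p, hp, by rw [h2]; exact hbb p (mem_union_right _ (hL hp))⟩
        · rintro ⟨p, hp, h2⟩
          exact ⟨p, hp, by rw [h2]; exact (hbb p (mem_union_right _ (hL hp))).symm⟩
      constructor
      · rintro ⟨h2, h3⟩
        exact ⟨fun u hu => (hex u _ hsubZ).1 (h2 u hu),
          fun h4 => h3 fun u hu => (hex u _ subset_rfl).2 (h4 u hu)⟩
      · rintro ⟨h2, h3⟩
        exact ⟨fun u hu => (hex u _ hsubZ).2 (h2 u hu),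
          fun h4 => h3 fun u hu => (hex u _ subset_rfl).1 (h4 u hu)⟩
    have e2 : (Ico i0 (2 * i0)).filter (fun i => good w y Y s v b i) =
        (Ico i0 (2 * i0)).filter (fun i => good w y Y s v b' i) := filter_congr fun i _ => e i
    have e3 : (Ico i0 (2 * i0)).filter (fun i => good w y Y s v b i ∧ Blk w y Y Z Z' b i) =
        (Ico i0 (2 * i0)).filter (fun i => good w y Y s v b' i ∧ Blk w y Y Z Z' b' i) :=
      filter_congr fun i _ => and_congr (e i) (e' i)
    simp only [e2, e3]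
  · intro α
    set 𝒢 := (Ico i0 (2 * i0)).filter (fun i => good w y Y s v α i) with h𝒢
    set T := fun i => TS w y Y (Ioc 0 y) α i with hT
    set V := fun i => TS w y Y (Ioc y (2 * y)) α i with hV
    have hTS : ∀ A i (ω : Ω), TS w y Y A (fun p => if p ∈ PW w ∪ PI w Y then α p else a p ω) i =
        TS w y Y A α i := fun A i ω => TS_congr w y Y A _ α i (fun p hp => if_pos hp)
    have hgood : ∀ i (ω : Ω), good w y Y s v (fun p => if p ∈ PW w ∪ PI w Y then α p else a p ω) i ↔
        good w y Y s v α i := by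
      intro i ω
      unfold good
      rw [hTS, hTS]
    by_cases hcase : (i0 : ℝ) / 2 < 𝒢.card
    · -- the abstract second phase
      have hTmem : ∀ i, ∀ u ∈ T i, pos w y α i < u ∧ u ≤ pos w y α i + y := by
        intro i u hu
        obtain ⟨m, hm, -, rfl⟩ := US_mem w y _ α i u (TS_sub _ _ _ _ _ _ hu)
        rw [mem_Ioc] at hm
        omega
      have hVmem : ∀ i, ∀ u ∈ V i, pos w y α i + y < u ∧ u ≤ pos w y α i + 2 * y := by
        intro i u hu
        obtain ⟨m, hm, -, rfl⟩ := US_mem w y _ α i u (TS_sub _ _ _ _ _ _ hu)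
        rw [mem_Ioc] at hm
        omega
      have h𝒢ne : 𝒢.Nonempty := by
        rw [← card_pos]
        have : (0 : ℝ) < 𝒢.card := by linarith
        exact_mod_cast this
      have key := phase2 h 𝒢 T V (PI Y Z) (PI Y Z') (fun p hp => (mem_filter.1 hp).2) hsubZ ?_ ?_ ?_ X ?_
        (Y : ℝ) (by exact_mod_cast hY0) ?_ s v (fun i hi => (mem_filter.1 hi).2.1)
        (fun i hi => (mem_filter.1 hi).2.2) δ δ' d hδ hδ' hδ2 hδd hd hlow τ ξ hτ0 hτ hξ0 hξ hττ h𝒢ne
      · refine le_trans (measureReal_mono ?_) (key.trans ?_)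
        · intro ω hω
          obtain ⟨-, h2⟩ := hω
          have h2 : (((Ico i0 (2 * i0)).filter (fun i =>
              good w y Y s v (fun p => if p ∈ PW w ∪ PI w Y then α p else a p ω) i ∧
              Blk w y Y Z Z' (fun p => if p ∈ PW w ∪ PI w Y then α p else a p ω) i)).card : ℝ) <
              i0 * (1 - d) ^ s / 8 := h2
          show cnt 𝒢 (fun i => Kill a (T i) (PI Y Z) \ Kill a (V i) (PI Y Z')) ω < 𝒢.card * (1 - d) ^ s / 4
          have h3 : (i0 : ℝ) * (1 - d) ^ s / 8 ≤ 𝒢.card * (1 - d) ^ s / 4 := by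
            have : 0 < (1 - d) ^ s := by positivity
            nlinarith
          refine lt_of_le_of_lt ?_ (h2.trans_le h3)
          rw [← filter_filter]
          have e1 : (Ico i0 (2 * i0)).filter (fun i =>
              good w y Y s v (fun p => if p ∈ PW w ∪ PI w Y then α p else a p ω) i) = 𝒢 :=
            filter_congr fun i _ => hgood i ω
          rw [e1, card_filter, Nat.cast_sum]
          unfold cnt
          refine sum_le_sum fun i _ => ?_
          by_cases hD : ω ∈ Kill a (T i) (PI Y Z) \ Kill a (V i) (PI Y Z')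
          · rw [Set.indicator_of_mem hD]
            have hB : Blk w y Y Z Z' (fun p => if p ∈ PW w ∪ PI w Y then α p else a p ω) i := by
              unfold Blk
              rw [hTS, hTS]
              refine ⟨fun u hu => ?_, fun h4 => hD.2 fun u hu => ?_⟩
              · obtain ⟨p, hp, h5⟩ := hD.1 u hu
                refine ⟨p, hp, ?_⟩
                simp only [if_neg (hdisj p (hsubZ hp))]
                exact h5
              · obtain ⟨p, hp, h5⟩ := h4 u hu
                refine ⟨p, hp, ?_⟩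
                simp only [if_neg (hdisj p hp)] at h5
                exact h5
            rw [if_pos hB]
            simp
          · rw [Set.indicator_of_notMem hD]
            split_ifs <;> simp
        · have h3 : 0 < (1 - d) ^ s := by positivity
          have h4 : (16 : ℝ) / (𝒢.card * (1 - d) ^ s) ≤ 32 / (i0 * (1 - d) ^ s) := by
            rw [div_le_div_iff₀ (by have : (0 : ℝ) < 𝒢.card := by linarith
                                    positivity) (by positivity)]
            nlinarith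
          linarith
      · intro i _ p hp u hu u' hu' he
        have hpY : Y < p := by
          unfold PI at hp
          exact (mem_Ioc.1 (mem_filter.1 hp).1).1
        have hrange : ∀ u ∈ (T i ∪ V i : Finset ℕ), pos w y α i < u ∧ u ≤ pos w y α i + 2 * y := by
          intro u hu
          rcases mem_union.1 hu with h5 | h5
          · have := hTmem i u h5
            omega
          · have := hVmem i u h5
            omega
        have h5 := hrange u (by exact_mod_cast hu)
        have h6 := hrange u' (by exact_mod_cast hu')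
        have h7 : u ≡ u' [MOD p] := he
        rcases le_total u u' with h8 | h8
        · have h9 := (Nat.modEq_iff_dvd' h8).1 h7
          have h10 := Nat.eq_zero_of_dvd_of_lt h9 (by omega)
          omega
        · have h9 := (Nat.modEq_iff_dvd' h8).1 h7.symm
          have h10 := Nat.eq_zero_of_dvd_of_lt h9 (by omega)
          omega
      · intro i _
        rw [disjoint_left]
        intro u hu hu'
        have := hTmem i u hu
        have := hVmem i u hu'
        omega
      · intro i _ j _ hij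
        rw [disjoint_left]
        intro u hu hu'
        have h5 := hTmem i u hu
        have h6 := hTmem j u hu'
        rcases lt_or_gt_of_ne hij with h7 | h7
        · have := pos_lt w y hy α i j h7
          omega
        · have := pos_lt w y hy α j i h7
          omega
      · intro i hi u hu
        have h5 := hTmem i u hu
        have h6 := (mem_Ico.1 (mem_filter.1 hi).1).2
        have := pos_le w y i0 X hy hX α i h6
        omega
      · intro p hp
        unfold PI at hp
        have := (mem_Ioc.1 (mem_filter.1 hp).1).1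
        exact_mod_cast this.le
    · -- nothing to do
      have e : {ω | (i0 : ℝ) / 2 < (((Ico i0 (2 * i0)).filter (fun i =>
          good w y Y s v (fun p => if p ∈ PW w ∪ PI w Y then α p else a p ω) i)).card : ℝ) ∧
          (((Ico i0 (2 * i0)).filter (fun i =>
          good w y Y s v (fun p => if p ∈ PW w ∪ PI w Y then α p else a p ω) i ∧
          Blk w y Y Z Z' (fun p => if p ∈ PW w ∪ PI w Y then α p else a p ω) i)).card : ℝ) <
            i0 * (1 - d) ^ s / 8} = ∅ := by
        rw [Set.eq_empty_iff_forall_notMem]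
        rintro ω ⟨h2, -⟩
        have e1 : (Ico i0 (2 * i0)).filter (fun i =>
              good w y Y s v (fun p => if p ∈ PW w ∪ PI w Y then α p else a p ω) i) = 𝒢 :=
            filter_congr fun i _ => hgood i ω
        rw [e1] at h2
        exact hcase h2
      rw [e, measureReal_empty]
      exact hη

open Classical in
/-- **Both phases.** -/
theorem scale (h : Model P a) (w y Y Z Z' X s v i0 : ℕ) (hw : 1 ≤ w) (hy : 1 ≤ y) (hyY : 2 * y ≤ Y)
    (hwY : w ≤ Y) (hZZ : Z ≤ Z') (hi0 : 0 < i0)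
    (hX : primorial w * (4 * y) * (2 * i0) ≤ X)
    (W ρ ε μ μ' : ℝ) (hW : W = ∏ p ∈ PI w Y, (1 - 1 / (p : ℝ)))
    (hρ : ρ = ((1 - 1 / ((w : ℝ) + 1))⁻¹) ^ Nat.log 2 (2 * y))
    (hμ : μ = (rough w (Ioc 0 y)).card * W) (hμ' : μ' = (rough w (Ioc y (2 * y))).card * W)
    (hμ0 : 0 < μ) (hμ'0 : 0 < μ') (hε : 0 < ε)
    (hs : (1 + ε) * μ ≤ s + 1) (hv : (v : ℝ) - 1 ≤ μ' / 2)
    (δ δ' d : ℝ) (hδ : δ = ∏ p ∈ PI Y Z, (1 - 1 / (p : ℝ))) (hδ' : δ' = ∏ p ∈ PI Y Z', (1 - 1 / (p : ℝ)))
    (hδ2 : δ ≤ 1 / 2) (hδd : δ ≤ d) (hd : d < 1)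
    (hlow : ∀ U : Finset ℕ, U.card ≤ s → (∀ p ∈ PI Y Z, Set.InjOn (fun u => u % p) U) →
      (1 - d) ^ U.card ≤ P.real (Kill a U (PI Y Z)))
    (τ ξ : ℝ) (hτ0 : 0 ≤ τ) (hτ : τ ≤ 1 / 2) (hξ0 : 0 ≤ ξ)
    (hξ : Real.exp (8 * s ^ 3 * Nat.log 2 X / Y) * ((1 - δ) / (1 - d)) ^ (2 * s) ≤ 1 + ξ)
    (hττ : ∀ t ≤ s, (1 - δ') ^ (t + v) ≤ τ * (1 - d) ^ t) :
    P.real {ω | (((Ico i0 (2 * i0)).filter (fun i =>
        Blk w y Y Z Z' (fun p => a p ω) i)).card : ℝ) < i0 * (1 - d) ^ s / 8} ≤
      2 * ((μ ^ 2 * (ρ - 1) + μ) / (ε * μ) ^ 2 + (μ' ^ 2 * (ρ - 1) + μ') / (μ' / 2) ^ 2) +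
      (32 / (i0 * (1 - d) ^ s) + 16 * (ξ + 2 * τ)) := by
  have := prob h
  have h1 := phase1 h w y Y s v i0 hw hi0 W ρ ε μ μ' hW hρ hμ hμ' hμ0 hμ'0 hε hs hv
  have h2 := phase2' h w y Y Z Z' X s v i0 hy hyY hwY hZZ hi0 hX δ δ' d hδ hδ' hδ2 hδd hd hlow τ ξ hτ0 hτ
    hξ0 hξ hττ
  refine le_trans ?_ (add_le_add h1 h2)
  refine le_trans (measureReal_mono ?_) (measureReal_union_le _ _)
  intro ω hω
  have hω : (((Ico i0 (2 * i0)).filter (fun i =>
        Blk w y Y Z Z' (fun p => a p ω) i)).card : ℝ) < i0 * (1 - d) ^ s / 8 := hω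
  by_cases h3 : (i0 : ℝ) / 2 ≤
      (((Ico i0 (2 * i0)).filter (fun i => ¬ good w y Y s v (fun p => a p ω) i)).card : ℝ)
  · exact Or.inl h3
  · right
    refine ⟨?_, lt_of_le_of_lt ?_ hω⟩
    · have h4 := card_filter_add_card_filter_not (s := Ico i0 (2 * i0))
        (fun i => good w y Y s v (fun p => a p ω) i)
      rw [Nat.card_Ico] at h4
      have h5 : (((Ico i0 (2 * i0)).filter (fun i => good w y Y s v (fun p => a p ω) i)).card : ℝ) +
          (((Ico i0 (2 * i0)).filter (fun i => ¬ good w y Y s v (fun p => a p ω) i)).card : ℝ) = i0 := by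
        have : 2 * i0 - i0 = i0 := by omega
        rw [this] at h4
        exact_mod_cast h4
      push Not at h3
      show (i0 : ℝ) / 2 < (((Ico i0 (2 * i0)).filter (fun i => good w y Y s v (fun p => a p ω) i)).card : ℝ)
      linarith
    · have h6 : ((Ico i0 (2 * i0)).filter (fun i => good w y Y s v (fun p => a p ω) i ∧
          Blk w y Y Z Z' (fun p => a p ω) i)).card ≤
          ((Ico i0 (2 * i0)).filter (fun i => Blk w y Y Z Z' (fun p => a p ω) i)).card :=
        card_le_card fun i hi => by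
          rw [mem_filter] at hi ⊢
          exact ⟨hi.1, hi.2.2⟩
      exact_mod_cast h6

end Pool.Agent.T2H32.BF
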