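import Pool.Agent.T2H32.BF.Mom

set_option autoImplicit false

/-! # The second moment of the number of blocks that are sieved out -/

open Finset MeasureTheory ProbabilityTheory
open scoped ENNReal

namespace Pool.Agent.T2H32.BF

variable {Ω : Type*} [MeasurableSpace Ω] {P : Measure Ω} {a : ℕ → Ω → ℕ}

/-- number of primes of a finite set dividing the difference of two numbers -/
theorem card_dvd_diff (L : Finset ℕ) (hL : ∀ p ∈ L, p.Prime) (u u' X : ℕ) (hne : u ≠ u') (hu : u ≤ X)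
    (hu' : u' ≤ X) : (L.filter (fun p => u % p = u' % p)).card ≤ Nat.log 2 X := by
  wlog huu : u < u' generalizing u u'
  · have h1 := this u' u hne.symm hu' hu (by omega)
    have e : L.filter (fun p => u % p = u' % p) = L.filter (fun p => u' % p = u % p) := by
      ext p
      simp only [mem_filter, eq_comm]
    rw [e]
    exact h1
  set D := u' - u with hD
  have hD0 : 0 < D := by omega
  have hsub : L.filter (fun p => u % p = u' % p) ⊆ D.primeFactors := by
    intro p hp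
    rw [mem_filter] at hp
    rw [Nat.mem_primeFactors]
    refine ⟨hL p hp.1, ?_, hD0.ne'⟩
    have h1 : u ≡ u' [MOD p] := hp.2
    exact (Nat.modEq_iff_dvd' huu.le).1 h1
  refine (card_le_card hsub).trans ?_
  have h1 : 2 ^ D.primeFactors.card ≤ D := by
    calc 2 ^ D.primeFactors.card ≤ ∏ p ∈ D.primeFactors, p :=
          pow_card_le_prod _ _ _ fun p hp => (Nat.prime_of_mem_primeFactors hp).two_le
      _ ≤ D := Nat.le_of_dvd hD0 (Nat.prod_primeFactors_dvd D)
  have h2 : 2 ^ D.primeFactors.card ≤ X := h1.trans (by omega)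
  exact Nat.le_log_of_pow_le (by norm_num) h2

/-- two blocks -/
theorem Kill_pair (h : Model P a) (T T' L : Finset ℕ) (hL : ∀ p ∈ L, p.Prime)
    (hT : ∀ p ∈ L, Set.InjOn (fun u => u % p) T) (hT' : ∀ p ∈ L, Set.InjOn (fun u => u % p) T')
    (hd : Disjoint T T') (X : ℕ) (hX : ∀ u ∈ T ∪ T', u ≤ X) (Y : ℝ) (hY : 0 < Y)
    (hLY : ∀ p ∈ L, Y ≤ p) (s : ℕ) (hs : T.card ≤ s) (hs' : T'.card ≤ s)
    (hδ : ∏ p ∈ L, (1 - 1 / (p : ℝ)) ≤ 1 / 2) :
    P.real (Kill a T L ∩ Kill a T' L) ≤ Real.exp (8 * s ^ 3 * Nat.log 2 X / Y) *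
      ((1 - ∏ p ∈ L, (1 - 1 / (p : ℝ))) ^ T.card * (1 - ∏ p ∈ L, (1 - 1 / (p : ℝ))) ^ T'.card) := by
  have := prob h
  set δ := ∏ p ∈ L, (1 - 1 / (p : ℝ)) with hδd
  have hfac : ∀ p ∈ L, 0 ≤ 1 - 1 / (p : ℝ) ∧ 1 - 1 / (p : ℝ) ≤ 1 := fun p hp => by
    have h1 : (2 : ℝ) ≤ p := by exact_mod_cast (hL p hp).two_le
    have h2 : 1 / (p : ℝ) ≤ 1 / 2 := by gcongr
    have h3 : 0 ≤ 1 / (p : ℝ) := by positivity
    constructor <;> linarith
  have hδ0 : 0 ≤ δ := prod_nonneg fun p hp => (hfac p hp).1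
  rw [Kill_union]
  set L2 := L.filter (fun p => ∃ u ∈ T, ∃ u' ∈ T', u % p = u' % p) with hL2
  set L1 := L \ L2 with hL1
  have hLL : L = L1 ∪ L2 := by
    rw [hL1, sdiff_union_of_subset (filter_subset _ _)]
  have hdis : Disjoint L1 L2 := sdiff_disjoint
  have hcardL2 : L2.card ≤ s ^ 2 * Nat.log 2 X := by
    have h1 : L2 ⊆ (T ×ˢ T').biUnion (fun z => L.filter (fun p => z.1 % p = z.2 % p)) := by
      intro p hp
      rw [hL2, mem_filter] at hp
      obtain ⟨hp1, u, hu, u', hu', he⟩ := hp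
      rw [mem_biUnion]
      exact ⟨(u, u'), mem_product.2 ⟨hu, hu'⟩, mem_filter.2 ⟨hp1, he⟩⟩
    refine (card_le_card h1).trans (card_biUnion_le.trans ?_)
    calc ∑ z ∈ T ×ˢ T', (L.filter (fun p => z.1 % p = z.2 % p)).card
        ≤ ∑ z ∈ T ×ˢ T', Nat.log 2 X := by
          refine sum_le_sum fun z hz => ?_
          rw [mem_product] at hz
          refine card_dvd_diff L hL z.1 z.2 X ?_ (hX _ (mem_union_left _ hz.1)) (hX _ (mem_union_right _ hz.2))
          intro he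
          exact disjoint_left.1 hd hz.1 (he ▸ hz.2)
      _ = T.card * T'.card * Nat.log 2 X := by
          rw [sum_const, card_product, smul_eq_mul]
      _ ≤ s ^ 2 * Nat.log 2 X := by
          rw [sq]
          gcongr
  -- distinctness
  have hinj1 : ∀ p ∈ L1, Set.InjOn (fun u => u % p) (T ∪ T' : Finset ℕ) := by
    intro p hp u hu u' hu' he
    rw [hL1, mem_sdiff] at hp
    rw [coe_union] at hu hu'
    have hnot : ∀ u ∈ T, ∀ u' ∈ T', u % p ≠ u' % p := by
      intro u hu u' hu' he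
      exact hp.2 (mem_filter.2 ⟨hp.1, u, hu, u', hu', he⟩)
    rcases hu with hu | hu <;> rcases hu' with hu' | hu'
    · exact hT p hp.1 hu hu' he
    · exact absurd he (hnot u (by exact_mod_cast hu) u' (by exact_mod_cast hu'))
    · exact absurd he.symm (hnot u' (by exact_mod_cast hu') u (by exact_mod_cast hu))
    · exact hT' p hp.1 hu hu' he
  have hG : ∀ U' ⊆ T ∪ T', P.real (Kill a U' L1) ≤ (1 - δ) ^ U'.card := by
    intro U' hU'
    have h1 := Kill_upper h U' L1 (fun p hp => hL p (mem_sdiff.1 hp).1) (fun p hp =>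
      (hinj1 p hp).mono (by exact_mod_cast hU'))
    refine h1.trans ?_
    have h2 : δ ≤ ∏ p ∈ L1, (1 - 1 / (p : ℝ)) := by
      rw [hδd, hLL, prod_union hdis]
      have h3 : ∏ p ∈ L2, (1 - 1 / (p : ℝ)) ≤ 1 :=
        prod_le_one (fun p hp => (hfac p (mem_filter.1 hp).1).1) (fun p hp => (hfac p (mem_filter.1 hp).1).2)
      have h4 : 0 ≤ ∏ p ∈ L1, (1 - 1 / (p : ℝ)) :=
        prod_nonneg fun p hp => (hfac p (mem_sdiff.1 hp).1).1
      nlinarith
    have h5 : ∏ p ∈ L1, (1 - 1 / (p : ℝ)) ≤ 1 :=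
      prod_le_one (fun p hp => (hfac p (mem_sdiff.1 hp).1).1) (fun p hp => (hfac p (mem_sdiff.1 hp).1).2)
    gcongr
  have h2 := Kill_upper_exc h (T ∪ T') L1 L2 (fun p hp => hL p (mem_filter.1 hp).1) hdis (1 - δ)
    (by linarith) (by linarith) (fun p hp r => by
      have hpL := (mem_filter.1 hp).1
      have h3 : (T ∪ T').filter (fun u => u % p = r) =
          T.filter (fun u => u % p = r) ∪ T'.filter (fun u => u % p = r) := filter_union _ _ _
      rw [h3]
      refine (card_union_le _ _).trans ?_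
      have h4 : (T.filter (fun u => u % p = r)).card ≤ 1 := by
        rw [card_le_one]
        intro x hx y hy
        rw [mem_filter] at hx hy
        exact hT p hpL (by exact_mod_cast hx.1) (by exact_mod_cast hy.1) (hx.2.trans hy.2.symm)
      have h5 : (T'.filter (fun u => u % p = r)).card ≤ 1 := by
        rw [card_le_one]
        intro x hx y hy
        rw [mem_filter] at hx hy
        exact hT' p hpL (by exact_mod_cast hx.1) (by exact_mod_cast hy.1) (hx.2.trans hy.2.symm)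
      omega) hG (T ∪ T') (subset_refl _)
  rw [← hLL] at h2
  refine h2.trans ?_
  have hcu : (T ∪ T').card = T.card + T'.card := card_union_of_disjoint hd
  rw [← pow_add, ← hcu]
  have h1δ : 0 ≤ 1 - δ := by linarith
  refine mul_le_mul_of_nonneg_right ?_ (by positivity)
  have h3 : ∀ p ∈ L2, 1 + 4 * ((T ∪ T').card : ℝ) / p ≤ Real.exp (8 * s / Y) := by
    intro p hp
    have hpL := (mem_filter.1 hp).1
    have h4 : ((T ∪ T').card : ℝ) ≤ 2 * s := by
      rw [hcu]
      push_cast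
      have : (T.card : ℝ) ≤ s := by exact_mod_cast hs
      have : (T'.card : ℝ) ≤ s := by exact_mod_cast hs'
      linarith
    have h5 : 4 * ((T ∪ T').card : ℝ) / p ≤ 8 * s / Y := by
      have := hLY p hpL
      have h6 : 4 * ((T ∪ T').card : ℝ) ≤ 8 * s := by linarith
      gcongr
    have h6 := Real.add_one_le_exp (8 * (s : ℝ) / Y)
    linarith
  calc ∏ p ∈ L2, (1 + 4 * ((T ∪ T').card : ℝ) / p) ≤ ∏ p ∈ L2, Real.exp (8 * s / Y) :=
        prod_le_prod (fun p _ => add_nonneg zero_le_one (div_nonneg (mul_nonneg (by norm_num)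
          (Nat.cast_nonneg _)) (Nat.cast_nonneg _))) h3
    _ = Real.exp (8 * s / Y) ^ L2.card := by rw [prod_const]
    _ ≤ Real.exp (8 * s / Y) ^ (s ^ 2 * Nat.log 2 X) := by
        refine pow_le_pow_right₀ ?_ hcardL2
        exact Real.one_le_exp (div_nonneg (mul_nonneg (by norm_num) (Nat.cast_nonneg _)) hY.le)
    _ = Real.exp (8 * s ^ 3 * Nat.log 2 X / Y) := by
        rw [← Real.exp_nat_mul]
        congr 1
        rw [Nat.cast_mul, Nat.cast_pow]
        ring

/-- second moment lemma -/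
theorem second_moment [IsProbabilityMeasure P] {ι : Type*} (I : Finset ι) (K D : ι → Set Ω)
    (hD : ∀ i ∈ I, MeasurableSet (D i)) (hDK : ∀ i ∈ I, D i ⊆ K i)
    (τ ξ : ℝ) (hτ0 : 0 ≤ τ) (hτ : τ ≤ 1 / 2) (hξ : 0 ≤ ξ)
    (h1 : ∀ i ∈ I, (1 - τ) * P.real (K i) ≤ P.real (D i))
    (h2 : ∀ i ∈ I, ∀ j ∈ I, i ≠ j → P.real (K i ∩ K j) ≤ (1 + ξ) * (P.real (K i) * P.real (K j)))
    (hS : 0 < ∑ i ∈ I, P.real (K i)) :
    P.real {ω | cnt I D ω < (∑ i ∈ I, P.real (K i)) / 4} ≤
      16 / (∑ i ∈ I, P.real (K i)) + 16 * (ξ + 2 * τ) := by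
  classical
  set S := ∑ i ∈ I, P.real (K i) with hSd
  have hE1 : (1 - τ) * S ≤ ∑ i ∈ I, P.real (D i) := by
    rw [hSd, mul_sum]
    exact sum_le_sum h1
  have hsub : {ω | cnt I D ω < S / 4} ⊆ {ω | S / 4 ≤ |cnt I D ω - ∑ i ∈ I, P.real (D i)|} := by
    intro ω hω
    have hω : cnt I D ω < S / 4 := hω
    show S / 4 ≤ |cnt I D ω - ∑ i ∈ I, P.real (D i)|
    rw [abs_sub_comm]
    refine le_trans ?_ (le_abs_self _)
    nlinarith
  have h3 := cheb (P := P) I D hD (S / 4) (by positivity)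
  refine (measureReal_mono hsub).trans (h3.trans ?_)
  have h4 : ∑ i ∈ I, ∑ j ∈ I, P.real (D i ∩ D j) ≤ S + (1 + ξ) * S ^ 2 := by
    have h5 : ∀ i ∈ I, ∀ j ∈ I, P.real (D i ∩ D j) ≤
        (if i = j then P.real (K i) else 0) + (1 + ξ) * (P.real (K i) * P.real (K j)) := by
      intro i hi j hj
      have h6 : P.real (D i ∩ D j) ≤ P.real (K i ∩ K j) :=
        measureReal_mono (Set.inter_subset_inter (hDK i hi) (hDK j hj))
      by_cases hij : i = j
      · subst hij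
        rw [if_pos rfl]
        rw [Set.inter_self] at h6
        have h7 : P.real (D i ∩ D i) ≤ P.real (K i) := by rw [Set.inter_self] at *; exact h6
        have h8 : 0 ≤ P.real (K i) := measureReal_nonneg
        have : 0 ≤ (1 + ξ) * (P.real (K i) * P.real (K i)) := by positivity
        linarith
      · rw [if_neg hij, zero_add]
        exact h6.trans (h2 i hi j hj hij)
    calc ∑ i ∈ I, ∑ j ∈ I, P.real (D i ∩ D j)
        ≤ ∑ i ∈ I, ∑ j ∈ I, ((if i = j then P.real (K i) else 0) + (1 + ξ) * (P.real (K i) * P.real (K j))) :=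
          sum_le_sum fun i hi => sum_le_sum fun j hj => h5 i hi j hj
      _ = S + (1 + ξ) * S ^ 2 := by
          simp only [sum_add_distrib]
          congr 1
          · rw [hSd]
            refine sum_congr rfl fun i hi => ?_
            rw [sum_ite_eq, if_pos hi]
          · rw [sq, hSd, sum_mul_sum, mul_sum]
            refine sum_congr rfl fun i _ => ?_
            rw [mul_sum]
  have h5 : ((1 - τ) * S) ^ 2 ≤ (∑ i ∈ I, P.real (D i)) ^ 2 := by
    have : 0 ≤ (1 - τ) * S := by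
      have : 0 ≤ 1 - τ := by linarith
      positivity
    gcongr
  have h6 : (∑ i ∈ I, ∑ j ∈ I, P.real (D i ∩ D j) - (∑ i ∈ I, P.real (D i)) ^ 2) ≤
      S + S ^ 2 * (ξ + 2 * τ) := by
    have : ((1 - τ) * S) ^ 2 = S ^ 2 - 2 * τ * S ^ 2 + τ ^ 2 * S ^ 2 := by ring
    have : 0 ≤ τ ^ 2 * S ^ 2 := by positivity
    nlinarith
  calc (∑ i ∈ I, ∑ j ∈ I, P.real (D i ∩ D j) - (∑ i ∈ I, P.real (D i)) ^ 2) / (S / 4) ^ 2
      ≤ (S + S ^ 2 * (ξ + 2 * τ)) / (S / 4) ^ 2 := by gcongr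
    _ = 16 / S + 16 * (ξ + 2 * τ) := by
        field_simp
        ring

/-- **The second phase.** -/
theorem phase2 (h : Model P a) (I : Finset ℕ) (T V : ℕ → Finset ℕ) (L L' : Finset ℕ)
    (hL' : ∀ p ∈ L', p.Prime) (hLL : L ⊆ L')
    (hinj : ∀ i ∈ I, ∀ p ∈ L', Set.InjOn (fun u => u % p) (T i ∪ V i : Finset ℕ))
    (hTV : ∀ i ∈ I, Disjoint (T i) (V i))
    (hTT : ∀ i ∈ I, ∀ j ∈ I, i ≠ j → Disjoint (T i) (T j))
    (X : ℕ) (hX : ∀ i ∈ I, ∀ u ∈ T i, u ≤ X) (Y : ℝ) (hY : 0 < Y) (hLY : ∀ p ∈ L, Y ≤ p)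
    (s v : ℕ) (hs : ∀ i ∈ I, (T i).card ≤ s) (hv : ∀ i ∈ I, v ≤ (V i).card)
    (δ δ' d : ℝ) (hδ : δ = ∏ p ∈ L, (1 - 1 / (p : ℝ))) (hδ' : δ' = ∏ p ∈ L', (1 - 1 / (p : ℝ)))
    (hδ2 : δ ≤ 1 / 2) (hδd : δ ≤ d) (hd : d < 1)
    (hlow : ∀ U : Finset ℕ, U.card ≤ s → (∀ p ∈ L, Set.InjOn (fun u => u % p) U) →
      (1 - d) ^ U.card ≤ P.real (Kill a U L))
    (τ ξ : ℝ) (hτ0 : 0 ≤ τ) (hτ : τ ≤ 1 / 2) (hξ0 : 0 ≤ ξ)
    (hξ : Real.exp (8 * s ^ 3 * Nat.log 2 X / Y) * ((1 - δ) / (1 - d)) ^ (2 * s) ≤ 1 + ξ)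
    (hττ : ∀ t ≤ s, (1 - δ') ^ (t + v) ≤ τ * (1 - d) ^ t) (hI : I.Nonempty) :
    P.real {ω | cnt I (fun i => Kill a (T i) L \ Kill a (V i) L') ω < I.card * (1 - d) ^ s / 4} ≤
      16 / (I.card * (1 - d) ^ s) + 16 * (ξ + 2 * τ) := by
  have := prob h
  have hL : ∀ p ∈ L, p.Prime := fun p hp => hL' p (hLL hp)
  have hfac : ∀ p ∈ L', 0 ≤ 1 - 1 / (p : ℝ) ∧ 1 - 1 / (p : ℝ) ≤ 1 := fun p hp => by
    have h1 : (2 : ℝ) ≤ p := by exact_mod_cast (hL' p hp).two_le
    have h2 : 1 / (p : ℝ) ≤ 1 / 2 := by gcongr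
    have h3 : 0 ≤ 1 / (p : ℝ) := by positivity
    constructor <;> linarith
  have hδ0 : 0 ≤ δ := hδ ▸ prod_nonneg fun p hp => (hfac p (hLL hp)).1
  have h1d : 0 < 1 - d := by linarith
  have hTinj : ∀ i ∈ I, ∀ p ∈ L, Set.InjOn (fun u => u % p) (T i) := fun i hi p hp =>
    (hinj i hi p (hLL hp)).mono (by exact_mod_cast subset_union_left)
  have hlowT : ∀ i ∈ I, (1 - d) ^ (T i).card ≤ P.real (Kill a (T i) L) := fun i hi =>
    hlow _ (hs i hi) (hTinj i hi)
  have hSlow : I.card * (1 - d) ^ s ≤ ∑ i ∈ I, P.real (Kill a (T i) L) := by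
    calc (I.card : ℝ) * (1 - d) ^ s = ∑ i ∈ I, (1 - d) ^ s := by simp
      _ ≤ _ := by
        refine sum_le_sum fun i hi => (pow_le_pow_of_le_one h1d.le (by linarith) (hs i hi)).trans (hlowT i hi)
  have hIc : (0 : ℝ) < I.card := by exact_mod_cast hI.card_pos
  have hS0 : 0 < (I.card : ℝ) * (1 - d) ^ s := by positivity
  have key := second_moment (P := P) I (fun i => Kill a (T i) L) (fun i => Kill a (T i) L \ Kill a (V i) L')
    (fun i _ => (Kill_meas h _ _).diff (Kill_meas h _ _)) (fun i _ => Set.sdiff_subset) τ ξ hτ0 hτ hξ0 ?_ ?_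
    (hS0.trans_le hSlow)
  · refine le_trans (measureReal_mono ?_) (key.trans ?_)
    · intro ω hω
      have hω : cnt I (fun i => Kill a (T i) L \ Kill a (V i) L') ω < I.card * (1 - d) ^ s / 4 := hω
      show cnt I (fun i => Kill a (T i) L \ Kill a (V i) L') ω < _
      refine hω.trans_le ?_
      gcongr
    · gcongr
  · intro i hi
    have e1 : P.real (Kill a (T i) L) ≤ P.real (Kill a (T i) L \ Kill a (V i) L') +
        P.real (Kill a (T i) L ∩ Kill a (V i) L') := by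
      have h3 : P.real (Kill a (T i) L ∩ Kill a (V i) L') + P.real (Kill a (T i) L \ Kill a (V i) L') =
          P.real (Kill a (T i) L) := measureReal_inter_add_sdiff (Kill_meas h _ _)
      linarith
    have e2 : P.real (Kill a (T i) L ∩ Kill a (V i) L') ≤ (1 - δ') ^ ((T i).card + (V i).card) := by
      calc P.real (Kill a (T i) L ∩ Kill a (V i) L') ≤ P.real (Kill a (T i ∪ V i) L') := by
            rw [← Kill_union]
            exact measureReal_mono (Set.inter_subset_inter (Kill_mono a _ _ _ hLL) subset_rfl)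
        _ ≤ _ := by
            have h4 := Kill_upper h (T i ∪ V i) L' hL' (hinj i hi)
            rw [← hδ', card_union_of_disjoint (hTV i hi)] at h4
            exact h4
    have hδ'1 : 0 ≤ 1 - δ' ∧ 1 - δ' ≤ 1 := by
      have h5 : 0 ≤ δ' := hδ' ▸ prod_nonneg fun p hp => (hfac p hp).1
      have h6 : δ' ≤ 1 := hδ' ▸ prod_le_one (fun p hp => (hfac p hp).1) (fun p hp => (hfac p hp).2)
      constructor <;> linarith
    have e3 : (1 - δ') ^ ((T i).card + (V i).card) ≤ τ * (1 - d) ^ (T i).card := by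
      refine le_trans ?_ (hττ _ (hs i hi))
      exact pow_le_pow_of_le_one hδ'1.1 hδ'1.2 (by have := hv i hi; omega)
    have e4 : τ * (1 - d) ^ (T i).card ≤ τ * P.real (Kill a (T i) L) :=
      mul_le_mul_of_nonneg_left (hlowT i hi) hτ0
    linarith
  · intro i hi j hj hij
    have e1 := Kill_pair h (T i) (T j) L hL (hTinj i hi) (hTinj j hj) (hTT i hi j hj hij) X (by
      intro u hu
      rcases mem_union.1 hu with hu | hu
      · exact hX i hi u hu
      · exact hX j hj u hu) Y hY hLY s (hs i hi) (hs j hj) (hδ ▸ hδ2)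
    rw [← hδ] at e1
    refine e1.trans ?_
    have hr : 1 ≤ (1 - δ) / (1 - d) := by
      rw [one_le_div h1d]
      linarith
    have e2 : (1 - δ) ^ (T i).card * (1 - δ) ^ (T j).card ≤
        ((1 - δ) / (1 - d)) ^ (2 * s) * ((1 - d) ^ (T i).card * (1 - d) ^ (T j).card) := by
      have e3 : (1 - δ) ^ (T i).card * (1 - δ) ^ (T j).card =
          ((1 - δ) / (1 - d)) ^ ((T i).card + (T j).card) * ((1 - d) ^ (T i).card * (1 - d) ^ (T j).card) := by
        rw [← pow_add, ← pow_add, ← mul_pow]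
        congr 1
        field_simp
      rw [e3]
      have e4 : ((1 - δ) / (1 - d)) ^ ((T i).card + (T j).card) ≤ ((1 - δ) / (1 - d)) ^ (2 * s) :=
        pow_le_pow_right₀ hr (by have := hs i hi; have := hs j hj; omega)
      gcongr
    have e5 : (1 - d) ^ (T i).card * (1 - d) ^ (T j).card ≤
        P.real (Kill a (T i) L) * P.real (Kill a (T j) L) :=
      mul_le_mul (hlowT i hi) (hlowT j hj) (by positivity) measureReal_nonneg
    calc Real.exp (8 * s ^ 3 * Nat.log 2 X / Y) * ((1 - δ) ^ (T i).card * (1 - δ) ^ (T j).card)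
        ≤ Real.exp (8 * s ^ 3 * Nat.log 2 X / Y) * (((1 - δ) / (1 - d)) ^ (2 * s) *
          ((1 - d) ^ (T i).card * (1 - d) ^ (T j).card)) := by gcongr
      _ = (Real.exp (8 * s ^ 3 * Nat.log 2 X / Y) * ((1 - δ) / (1 - d)) ^ (2 * s)) *
          ((1 - d) ^ (T i).card * (1 - d) ^ (T j).card) := by ring
      _ ≤ (1 + ξ) * (P.real (Kill a (T i) L) * P.real (Kill a (T j) L)) := by gcongr

end Pool.Agent.T2H32.BF
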